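import Pool.Agent.Lib.MP_ccbbf6_gt.L5.PIG

/-!
# Level 6, X4: the case of even `κ`, `0 < κ < n - 1`, is impossible (helper93)

Over the directions at one point the planes `V_v` (dimension `κ + 1` odd) have the unit section `v`; the Euler form `f` of
the complement is closed of degree `κ`. On the unit sphere of one plane its integral is `-2`; the inclusion of this sphere
into the directions is contractible since `κ + 1 < n`.
-/

set_option autoImplicit false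
set_option linter.unusedSectionVars false
set_option linter.unusedVariables false
set_option maxSynthPendingDepth 3

open Set Filter Topology Metric Real Module Matrix
open scoped ContDiff RealInnerProductSpace

noncomputable section

namespace Pool.Agent.Lib.MP_ccbbf6_gt.L6

open Geo L4 L4.FR L4.ORI L5

section lin

variable {n r : ℕ}

/-- linear combination of a frame -/
def vA (a : Fin r → Eu n) (ξ : V r) : Eu n := ∑ i, ξ i • a i

theorem inner_vA {a : Fin r → Eu n} (ha : Orthonormal ℝ a) (ξ : V r) : ⟪vA a ξ, vA a ξ⟫ = ∑ i, ξ i ^ 2 := by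
  unfold vA
  rw [ha.inner_sum]
  refine Finset.sum_congr rfl fun i _ => ?_
  simp [sq]

theorem norm_vA {a : Fin r → Eu n} (ha : Orthonormal ℝ a) (ξ : V r) : ‖vA a ξ‖ = ‖toE ξ‖ := by
  have h1 : ‖vA a ξ‖ ^ 2 = ‖toE ξ‖ ^ 2 := by
    rw [← real_inner_self_eq_norm_sq, inner_vA ha, toE_sq]
  exact (sq_eq_sq₀ (norm_nonneg _) (norm_nonneg _)).1 h1

theorem vA_ne {a : Fin r → Eu n} (ha : Orthonormal ℝ a) {ξ : V r} (hξ : ξ ≠ 0) : vA a ξ ≠ 0 := by
  intro h
  have h1 := norm_vA ha ξ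
  rw [h, norm_zero] at h1
  have h2 : toE ξ = 0 := norm_eq_zero.1 h1.symm
  refine hξ (funext fun i => ?_)
  exact congrArg (fun v : EuclideanSpace ℝ (Fin r) => v i) h2

theorem vA_mem {a : Fin r → Eu n} {W : Submodule ℝ (Eu n)} (ha : ∀ i, a i ∈ W) (ξ : V r) : vA a ξ ∈ W :=
  Submodule.sum_mem _ fun i _ => W.smul_mem _ (ha i)

theorem inner_vA_zero {a : Fin r → Eu n} {w : Eu n} (h : ∀ i, ⟪w, a i⟫ = 0) (ξ : V r) : ⟪w, vA a ξ⟫ = 0 := by
  unfold vA
  rw [inner_sum]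
  refine Finset.sum_eq_zero fun i _ => ?_
  rw [real_inner_smul_right, h i, mul_zero]

theorem comb_ne {a : Fin r → Eu n} (ha : Orthonormal ℝ a) {w : Eu n} (hw : w ≠ 0) (h : ∀ i, ⟪w, a i⟫ = 0) {ξ : V r}
    (hξ : ξ ≠ 0) (s : ℝ) : (1 - s) • vA a ξ + s • w ≠ 0 := by
  intro h0
  have h1 : ⟪w, (1 - s) • vA a ξ + s • w⟫ = s * ‖w‖ ^ 2 := by
    rw [inner_add_right, real_inner_smul_right, real_inner_smul_right, inner_vA_zero h, real_inner_self_eq_norm_sq, mul_zero,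
      zero_add]
  rw [h0, inner_zero_right] at h1
  have h2 : s = 0 := by
    rcases mul_eq_zero.1 h1.symm with h2 | h2
    · exact h2
    · exact absurd (norm_eq_zero.1 (pow_eq_zero_iff (two_ne_zero)|>.1 h2)) hw
  rw [h2, sub_zero, one_smul, zero_smul, add_zero] at h0
  exact vA_ne ha hξ h0

/-- the contraction of the unit sphere of a plane inside the directions -/
def cmb (a : Fin r → Eu n) (w : Eu n) (ha : Orthonormal ℝ a) (hw : w ≠ 0) (h : ∀ i, ⟪w, a i⟫ = 0) :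
    SMap ((spV 0).xP r).xR (spR n) :=
  ⟨fun z => ⟨(1 - z.2) • vA a z.1.1.2 + z.2 • w, comb_ne ha hw h z.1.2 z.2⟩, fun k p => by
    show ContDiff ℝ ∞ fun x => (1 - (p.1 x).2) • vA a (p.1 x).1.1.2 + (p.1 x).2 • w
    have h1 : ContDiff ℝ ∞ fun x => (p.1 x).2 := p.2.2
    have h2 : ContDiff ℝ ∞ fun x => (p.1 x).1.1.2 := p.2.1.2
    refine ((contDiff_const.sub h1).smul ?_).add (h1.smul contDiff_const)
    unfold vA
    exact ContDiff.sum fun i _ => (contDiff_pi.1 h2 i).smul contDiff_const⟩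

end lin

theorem pull_cst {X Y : Space} (f : SMap X Y) {y : Y.pt} (h : ∀ x, f.1 x = y) {j : ℕ} (hj : 0 < j) {θ : Om Y}
    (hθ : Deg j θ) : f.pull θ = 0 :=
  Om_ext fun k p => by
    rw [on_pull, on_zero]
    let z : FR.Sm k 0 := ⟨fun _ => 0, contDiff_const⟩
    let q : Y.Plot 0 := (f.pl p).cmp ⟨fun _ => 0, contDiff_const⟩
    have h1 : f.pl p = q.cmp z := Plot_ext fun x => by
      change f.1 (p.1 x) = f.1 (p.1 0)
      rw [h, h]
    rw [h1, on_cmp, Dg_big hj (hθ 0 q), map_zero]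

variable {n : ℕ} {M : Type} [MetricSpace M] [CompactSpace M] {𝒜 : SDist n M} {m : ℕ}

/-- the Euler form of the complement of the unit section in the planes at `p` -/
def fP (hB : Bl M) (hk : 𝒜.HK (2 * m)) {p : M} {o : Eu n → EuclideanSpace ℝ (Fin (2 * m + 1) → Fin n)}
    (ho : OrP 𝒜 (2 * m) p o) : Om (spR n) := fG (FO (spR n)) (PR hB hk p) (oRn ho) (aR n)

theorem Deg_fP (hB : Bl M) (hk : 𝒜.HK (2 * m)) {p : M} {o : Eu n → EuclideanSpace ℝ (Fin (2 * m + 1) → Fin n)}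
    (ho : OrP 𝒜 (2 * m) p o) : Deg (2 * m) (fP hB hk ho) := OT.DegF _ _ _

theorem d_fP (hB : Bl M) (hk : 𝒜.HK (2 * m)) {p : M} {o : Eu n → EuclideanSpace ℝ (Fin (2 * m + 1) → Fin n)}
    (ho : OrP 𝒜 (2 * m) p o) : dO _ (fP hB hk ho) = 0 :=
  d_fG (φ := FO (spR n)) (Or_PR hB hk ho) (Sec_PR hB hk p)

/-- **`κ` is not even** (`0 < κ < n - 1`) -/
theorem even_false (hn : 3 ≤ n) (hB : Bl M) (hm : 1 ≤ m) (hk : 𝒜.HK (2 * m)) (hlt : 2 * m + 1 < n) (p : M) : False := by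
  obtain ⟨o, ho⟩ := exists_orP (𝒜 := 𝒜) hn hB (κ := 2 * m) (by omega) hk p
  obtain ⟨v, hv⟩ : ∃ v : Eu n, v ≠ 0 := by
    refine ⟨EuclideanSpace.single ⟨0, by omega⟩ 1, fun h => ?_⟩
    have h1 := congrArg (fun x : Eu n => x ⟨0, by omega⟩) h
    simp at h1
  obtain ⟨a, ha, hoa⟩ := ho.isOr v hv
  -- a vector orthogonal to the plane
  obtain ⟨w, hw, hwa⟩ : ∃ w : Eu n, w ≠ 0 ∧ ∀ i, ⟪w, a i⟫ = 0 := by
    have h1 : 0 < finrank ℝ (𝒜.PV p v)ᗮ := by
      have h2 := Submodule.finrank_add_finrank_orthogonal (𝒜.PV p v)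
      have h3 : finrank ℝ (Eu n) = n := finrank_euclideanSpace_fin
      have h4 := ha.rank
      rw [h3, h4] at h2
      omega
    obtain ⟨w, hw⟩ := (Submodule.ne_bot_iff _).1 (Submodule.one_le_finrank_iff.1 h1)
    refine ⟨w, hw.2, fun i => ?_⟩
    rw [real_inner_comm]
    exact (Submodule.mem_orthogonal _ _).1 hw.1 (a i) (ha.mem i)
  have hEx : ∀ {ξ : V (2 * m + 1)}, ξ ≠ 0 → 𝒜.Ex p (rad π (vA a ξ)) = 𝒜.Ex p (rad π v) := fun hξ =>
    (mem_PV_iff 𝒜 hB p hv (vA_ne ha.on hξ)).1 (vA_mem ha.mem _)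
  obtain ⟨b, hb⟩ : ∃ b : Fin (2 * m + 1) → Fin n → ℝ, b = fun j l => a j l := ⟨_, rfl⟩
  have hbon : ∀ i j, ∑ x, b i x * b j x = if i = j then (1 : ℝ) else 0 := by
    rw [hb]
    exact ha.sum_mul
  obtain ⟨Φ, hΦ⟩ : ∃ Φ : SMap ((spV 0).xP (2 * m + 1)).xR (spR n), Φ = cmb a w ha.on hw hwa := ⟨_, rfl⟩
  -- the two ends
  have e1 : (jO _ 1).pull (Φ.pull (fP hB hk ho)) = 0 := by
    rw [← pull_comp]
    refine pull_cst (Φ.comp (jO _ 1)) (y := ⟨w, hw⟩) (fun z => ?_) (j := 2 * m) (by omega) (Deg_fP hB hk ho)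
    refine Subtype.ext ?_
    rw [hΦ]
    show (1 - (1 : ℝ)) • vA a z.1.2 + (1 : ℝ) • w = w
    rw [sub_self, zero_smul, one_smul, zero_add]
  have e0 : SI (2 * m + 1) (spV 0) ((jO _ 0).pull (Φ.pull (fP hB hk ho))) = algebraMap ℝ (Om (spV 0)) (-2) := by
    rw [← pull_comp]
    obtain ⟨Ψ, hΨ⟩ : ∃ Ψ : SMap ((spV 0).xP (2 * m + 1)) (spR n), Ψ = Φ.comp (jO _ 0) := ⟨_, rfl⟩
    have hval : ∀ z : ((spV 0).xP (2 * m + 1)).pt, (Ψ.1 z).1 = vA a z.1.2 := fun z => by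
      rw [hΨ, hΦ]
      show (1 - (0 : ℝ)) • vA a z.1.2 + (0 : ℝ) • w = vA a z.1.2
      rw [sub_zero, one_smul, zero_smul, add_zero]
    rw [← hΨ]
    have f1 : (PR hB hk p).map (FHom.pull Ψ).g = PC (spV 0) b := by
      ext i j z
      show ent ((𝒜.PV p (Ψ.1 z).1).starProjection) i j = ∑ k, b k i * b k j
      rw [hval, prX_same hB p v (vA a z.1.2) hv (vA_ne ha.on z.2) (hEx z.2), ha.proj, hb]
    have f2 : (fun I => (FHom.pull Ψ).g (oRn ho I)) = fun I => algebraMap ℝ (SF ((spV 0).xP (2 * m + 1))) (1 * dtn b I) := by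
      funext I
      refine Subtype.ext (funext fun z => ?_)
      show o (Ψ.1 z).1 I = 1 * dtn b I
      rw [hval, ho.same v (vA a z.1.2) hv (vA_ne ha.on z.2) (hEx z.2), hoa, one_mul, hb]
      rfl
    have f3 : (fun l => (FHom.pull Ψ).g (aR n l)) = YSF (spV 0) b := by
      funext l
      refine Subtype.ext (funext fun z => ?_)
      show (‖(Ψ.1 z).1‖⁻¹ • (Ψ.1 z).1) l = (YSF (spV 0) b l).1 z
      have e4 : (YSF (spV 0) b l).1 z = ∑ j, b j l * hat z.1.2 j := by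
        have e5 : vl z (YSF (spV 0) b l) = ∑ j, b j l * hat z.1.2 j := by
          unfold YSF
          rw [map_sum]
          exact Finset.sum_congr rfl fun j _ => by rw [map_smul]; rfl
        exact e5
      rw [e4, hval, norm_vA ha.on, WithLp.ofLp_smul, Pi.smul_apply, smul_eq_mul]
      unfold vA
      rw [WithLp.ofLp_sum, Finset.sum_apply, Finset.mul_sum, hb]
      refine Finset.sum_congr rfl fun j _ => ?_
      rw [WithLp.ofLp_smul, Pi.smul_apply, smul_eq_mul]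
      show ‖toE z.1.2‖⁻¹ * (z.1.2 j * _) = _ * (‖toE z.1.2‖⁻¹ * z.1.2 j)
      ring
    have h2 := FHom.fG (FHom.pull Ψ) (P := PR hB hk p) (y := aR n) (o := oRn ho)
    have hor : Or (2 * m + 1) ((PR hB hk p).map (FHom.pull Ψ).g) (fun I => (FHom.pull Ψ).g (oRn ho I)) :=
      (Or_PR hB hk ho).map' ((FHom.pull Ψ).g : SF (spR n) →+* SF ((spV 0).xP (2 * m + 1)))
    have hy : Sec ((PR hB hk p).map (FHom.pull Ψ).g) (fun l => (FHom.pull Ψ).g (aR n l)) :=
      (Sec_PR hB hk p).map (FHom.pull Ψ).g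
    rw [f1, f2] at hor
    rw [f1, f3] at hy
    rw [f1, f2, f3] at h2
    have h3 : Ψ.pull (fP hB hk ho) = fG (FO ((spV 0).xP (2 * m + 1))) (PC (spV 0) b)
      (fun I => algebraMap ℝ _ (1 * dtn b I)) (YSF (spV 0) b) := h2
    rw [h3, SI_fG_PC hbon hor hy, mul_one]
  -- the homotopy
  have h1 := d_K (X := (spV 0).xP (2 * m + 1)) (Φ.pull (fP hB hk ho))
  rw [pull_d, d_fP, map_zero, map_zero, add_zero, e1, zero_sub] at h1
  have h2 : SI (2 * m + 1) (spV 0) (KO _ (Φ.pull (fP hB hk ho))) = 0 := by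
    refine SI_low (j := 2 * m - 1) (Deg_K ?_) (by omega)
    have h3 : 2 * m - 1 + 1 = 2 * m := by omega
    rw [h3]
    exact Deg_pull Φ (Deg_fP hB hk ho)
  have h3 := SI_d (N := 2 * m + 1) (X := spV 0) (KO _ (Φ.pull (fP hB hk ho)))
  rw [h2, h1, map_zero, map_neg, e0] at h3
  have h4 : (-1 : ℝ) ^ (2 * m + 1 + 1) • -(algebraMap ℝ (Om (spV 0)) (-2)) = algebraMap ℝ (Om (spV 0)) 2 := by
    have h5 : (-1 : ℝ) ^ (2 * m + 1 + 1) = 1 := by
      have : 2 * m + 1 + 1 = 2 * (m + 1) := by ring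
      rw [this, pow_mul]
      norm_num
    rw [h5, one_smul, ← map_neg, neg_neg]
  rw [h4] at h3
  have h5 : val (algebraMap ℝ (Om (spV 0)) 2) (idP 0) = val (algebraMap ℝ (Om (spV 0)) 0) (idP 0) := by
    rw [← h3, map_zero]
  have h6 : ∀ r : ℝ, val (algebraMap ℝ (Om (spV 0)) r) (idP 0) = r := by
    intro r
    unfold val
    have h7 : Om.on (algebraMap ℝ (Om (spV 0)) r) (idP 0) = algebraMap ℝ (Fm 0) r := rfl
    rw [h7, ← (fc 0).commutes, fn_fc]
    rfl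
  rw [h6, h6] at h5
  exact two_ne_zero h5

end Pool.Agent.Lib.MP_ccbbf6_gt.L6
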