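import Pool.Agent.Lib.MP_ccbbf6_gt.L5.RG0

/-!
# Level 6, RGA: the coefficient of `l^2 u^(m-1)` (IIIg) (helper80; statement helper67)
-/

set_option autoImplicit false
set_option linter.unusedSectionVars false

noncomputable section

open Finset

namespace Pool.Agent.Lib.MP_ccbbf6_gt.L5.FR6

open L4

variable {A : Type*} [CommRing A] [Algebra ℝ A]

/-! ### perturbations by multiples of `e` -/

theorem GP_split (B R : ℕ → A) (e l : A) (n : ℕ) :
    GP B (fun j => e * R j) l n = GP B (fun _ => 0) l n + e * GP (fun _ => 0) R l n := by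
  induction n using Nat.strong_induction_on with
  | _ n ih =>
    rw [GP_eq, GP_eq B (fun _ => 0), GP_eq (fun _ => 0) R, mul_smul_comm, ← smul_add]
    congr 1
    have h1 : ∑ a ∈ range n, (if Odd a then (2 * ((n + 1).choose (a + 2) : ℝ)) •
        (l ^ (a + 1) * GP B (fun j => e * R j) l (n - 1 - a)) else 0) =
        ∑ a ∈ range n, (if Odd a then (2 * ((n + 1).choose (a + 2) : ℝ)) •
          (l ^ (a + 1) * GP B (fun _ => 0) l (n - 1 - a)) else 0) +
        e * ∑ a ∈ range n, (if Odd a then (2 * ((n + 1).choose (a + 2) : ℝ)) •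
          (l ^ (a + 1) * GP (fun _ => 0) R l (n - 1 - a)) else 0) := by
      rw [Finset.mul_sum, ← Finset.sum_add_distrib]
      refine Finset.sum_congr rfl fun a ha => ?_
      have ha' := Finset.mem_range.1 ha
      rw [ih (n - 1 - a) (by omega)]
      split_ifs
      · rw [mul_add, smul_add, mul_smul_comm]
        congr 2
        ring
      · rw [mul_zero, add_zero]
    rw [h1]
    simp only [mul_zero, smul_zero, Finset.sum_const_zero]
    ring

theorem elc_e (p g : ℕ → A) (e : A) (n : ℕ) : ∃ G, elc (fun k => p k + e * g k) n = elc p n + e * G := by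
  obtain ⟨φ, hφ⟩ : ∃ φ : A →ₐ[ℝ] A ⧸ Ideal.span {e}, φ = Ideal.Quotient.mkₐ ℝ (Ideal.span {e}) := ⟨_, rfl⟩
  have h0 : ∀ x, φ x = 0 ↔ x ∈ Ideal.span {e} := fun x => by
    rw [hφ]
    exact Ideal.Quotient.eq_zero_iff_mem
  have h : elc (fun k => p k + e * g k) n - elc p n ∈ Ideal.span {e} := by
    rw [← h0, map_sub, map_elc, map_elc]
    have h2 : (fun k => φ (p k + e * g k)) = fun k => φ (p k) := by
      funext k
      rw [map_add, map_mul, (h0 e).2 (Ideal.mem_span_singleton_self e), zero_mul, add_zero]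
    rw [h2, sub_self]
  obtain ⟨G, hG⟩ := Ideal.mem_span_singleton'.1 h
  exact ⟨G, by rw [mul_comm e, hG]; ring⟩

/-! ### homogeneous elements -/

/-- homogeneous elements of degree `n`: `l` has degree `1`, `u` has degree `h` -/
def Hsp (h : ℕ) (l u : A) (n : ℕ) : Submodule ℝ A := Submodule.span ℝ {x | ∃ i j, i + h * j = n ∧ x = l ^ i * u ^ j}

theorem Hsp_mul {h : ℕ} {l u : A} {n k : ℕ} {x y : A} (hx : x ∈ Hsp h l u n) (hy : y ∈ Hsp h l u k) :
    x * y ∈ Hsp h l u (n + k) := by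
  unfold Hsp at *
  have h1 := Submodule.mul_mem_mul hx hy
  rw [Submodule.span_mul_span] at h1
  refine Submodule.span_mono ?_ h1
  rintro _ ⟨a, ⟨i, j, h2, rfl⟩, b, ⟨i', j', h3, rfl⟩, rfl⟩
  refine ⟨i + i', j + j', ?_, ?_⟩
  · rw [mul_add, ← h2, ← h3]
    ring
  · show l ^ i * u ^ j * (l ^ i' * u ^ j') = _
    ring

theorem Hsp_pow {h : ℕ} {l u : A} (n : ℕ) : l ^ n ∈ Hsp h l u n :=
  Submodule.subset_span ⟨n, 0, by rw [mul_zero, add_zero], by rw [pow_zero, mul_one]⟩

theorem Hsp_spr {h : ℕ} {l u : A} (w : ℕ → ℝ) (n : ℕ) : spr h w n • u ^ (n / h) ∈ Hsp h l u n := by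
  by_cases h1 : h ∣ n
  · refine Submodule.smul_mem _ _ (Submodule.subset_span ⟨0, n / h, ?_, ?_⟩)
    · rw [zero_add, Nat.mul_div_cancel' h1]
    · rw [pow_zero, one_mul]
  · rw [spr_not w h1, zero_smul]
    exact Submodule.zero_mem _

theorem Hsp_sgn {h : ℕ} {l u : A} {n : ℕ} {x : A} (hx : x ∈ Hsp h l u n) (k : ℕ) : (-1) ^ k * x ∈ Hsp h l u n := by
  have h3 : (-1) ^ k * x = ((-1 : ℝ) ^ k) • x := by
    rw [Algebra.smul_def, map_pow, map_neg, map_one]
  rw [h3]
  exact Submodule.smul_mem _ _ hx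

theorem Hsp_GP {h : ℕ} {l u : A} (w : ℕ → ℝ) (n : ℕ) :
    GP (fun j => spr h w j • u ^ (j / h)) (fun _ => 0) l n ∈ Hsp h l u n := by
  induction n using Nat.strong_induction_on with
  | _ n ih =>
    rw [GP_eq]
    refine Submodule.smul_mem _ _ (Submodule.sub_mem _ ?_ ?_)
    · rw [zero_add]
      refine Submodule.sum_mem _ fun a ha => Submodule.smul_mem _ _ ?_
      have ha' := Finset.mem_range.1 ha
      have h1 := Hsp_mul (Hsp_pow (h := h) (l := l) (u := u) a) (Hsp_spr (h := h) (l := l) (u := u) w (n - a))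
      have h2 : a + (n - a) = n := by omega
      rw [h2] at h1
      rw [neg_pow, mul_assoc]
      exact Hsp_sgn h1 a
    · refine Submodule.sum_mem _ fun a ha => ?_
      have ha' := Finset.mem_range.1 ha
      split_ifs
      · refine Submodule.smul_mem _ _ ?_
        have h1 := Hsp_mul (Hsp_pow (h := h) (l := l) (u := u) (a + 1)) (ih (n - 1 - a) (by omega))
        have h2 : a + 1 + (n - 1 - a) = n := by omega
        rwa [h2] at h1
      · exact Submodule.zero_mem _

theorem Hsp_elc {h : ℕ} {l u : A} {p : ℕ → A} (hp : ∀ n, p n ∈ Hsp h l u n) (n : ℕ) : elc p n ∈ Hsp h l u n := by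
  induction n using Nat.strong_induction_on with
  | _ n ih =>
    rcases n with _ | n
    · rw [elc_zero]
      have := Hsp_pow (h := h) (l := l) (u := u) 0
      rwa [pow_zero] at this
    · rw [elc_succ]
      refine Submodule.smul_mem _ _ (Submodule.sum_mem _ fun k hk => ?_)
      have hk' := Finset.mem_range.1 hk
      have h1 := Hsp_mul (ih (n - k) (by omega)) (hp (k + 1))
      have h2 : n - k + (k + 1) = n + 1 := by omega
      rw [h2] at h1
      exact Hsp_sgn h1 k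

theorem Hsp_coord {h : ℕ} (hh : 0 < h) {l u : A} {n : ℕ} {x : A} (hx : x ∈ Hsp h l u n) :
    ∃ f : ℕ → ℝ, x = ∑ j ∈ range (n / h + 1), f j • (l ^ (n - h * j) * u ^ j) := by
  unfold Hsp at hx
  induction hx using Submodule.span_induction with
  | mem x hx =>
    obtain ⟨i, j, h1, rfl⟩ := hx
    refine ⟨fun k => if k = j then 1 else 0, ?_⟩
    rw [Finset.sum_eq_single_of_mem j]
    · show l ^ i * u ^ j = (if j = j then (1 : ℝ) else 0) • (l ^ (n - h * j) * u ^ j)
      rw [if_pos rfl, one_smul]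
      have h2 : n - h * j = i := by omega
      rw [h2]
    · refine Finset.mem_range.2 (Nat.lt_succ_of_le ((Nat.le_div_iff_mul_le hh).2 ?_))
      rw [mul_comm]
      omega
    · intro k _ hk
      show (if k = j then (1 : ℝ) else 0) • (l ^ (n - h * k) * u ^ k) = 0
      rw [if_neg hk, zero_smul]
  | zero => exact ⟨fun _ => 0, by simp⟩
  | add x y _ _ hx hy =>
    obtain ⟨f, hf⟩ := hx
    obtain ⟨g, hg⟩ := hy
    refine ⟨fun j => f j + g j, ?_⟩
    simp only [add_smul, Finset.sum_add_distrib]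
    rw [← hf, ← hg]
  | smul a x _ hx =>
    obtain ⟨f, hf⟩ := hx
    refine ⟨fun j => a * f j, ?_⟩
    simp only [← smul_smul, ← Finset.smul_sum]
    rw [← hf]

/-! ### modulo `x^3` -/

theorem sum3 {f : ℕ → A} (h : ∀ a, f (a + 3) = 0) (n : ℕ) : ∑ a ∈ range (n + 3), f a = f 0 + f 1 + f 2 := by
  rw [Finset.sum_range_succ', Finset.sum_range_succ', Finset.sum_range_succ', Finset.sum_eq_zero fun a _ => h a, zero_add]
  show f 2 + f 1 + f 0 = _
  ring

theorem sum2 {f : ℕ → A} (h : ∀ a, f (a + 2) = 0) (n : ℕ) : ∑ a ∈ range (n + 2), f a = f 0 + f 1 := by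
  rw [Finset.sum_range_succ', Finset.sum_range_succ', Finset.sum_eq_zero fun a _ => h a, zero_add]
  show f 1 + f 0 = _
  ring

theorem trunc_GP {x : A} (hx : x ^ 3 = 0) (b : ℕ → ℝ) (n : ℕ) :
    GP (fun j => b j • (1 : A)) (fun _ => 0) x n = (b n / 2) • (1 : A) + (-((n : ℝ) / 4) * b (n - 1)) • x := by
  have hx3 : ∀ a, x ^ (a + 3) = 0 := fun a => by rw [pow_add, hx, mul_zero]
  have hn3 : ∀ a, (-x) ^ (a + 3) = 0 := fun a => by rw [neg_pow, hx3, mul_zero]
  induction n using Nat.strong_induction_on with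
  | _ n ih =>
    rcases n with _ | _ | n
    · rw [GP_eq]
      simp only [Finset.range_zero, Finset.sum_empty, zero_add, Finset.range_one, Finset.sum_singleton, Nat.choose_self,
        Nat.cast_one, one_smul, pow_zero, one_mul, sub_zero, CharP.cast_eq_zero, mul_one, Nat.sub_zero]
      module
    · rw [GP_eq, Finset.sum_range_succ, Finset.sum_range_succ, Finset.sum_range_succ, Finset.range_zero, Finset.sum_empty,
        Finset.sum_empty]
      simp only [zero_add, Nat.not_odd_zero, if_false, Nat.choose_one_right, Nat.choose_self, Nat.sub_zero, Nat.sub_self, pow_zero,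
        pow_one, sub_zero, Nat.reduceAdd, mul_smul_comm, mul_one]
      push_cast
      match_scalars
      · norm_num
        ring
      · norm_num
    · have e1 := sum3 (f := fun a => ((n + 2 + 1).choose (a + 1) : ℝ) • ((-x) ^ a * (b (n + 2 - a) • (1 : A))))
        (fun a => by rw [hn3, zero_mul, smul_zero]) n
      have e2 := sum2 (f := fun a => if Odd a then (2 * ((n + 2 + 1).choose (a + 2) : ℝ)) •
        (x ^ (a + 1) * GP (fun j => b j • (1 : A)) (fun _ => 0) x (n + 2 - 1 - a)) else 0) (fun a => by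
          have h1 : x ^ (a + 2 + 1) = 0 := hx3 a
          rw [h1, zero_mul, smul_zero, ite_self]) n
      rw [GP_eq]
      show (2 * (((n + 2 : ℕ) : ℝ) + 1))⁻¹ • ((0 : A) + ∑ a ∈ range (n + 3), ((n + 2 + 1).choose (a + 1) : ℝ) •
        ((-x) ^ a * (b (n + 2 - a) • (1 : A))) - ∑ a ∈ range (n + 2), if Odd a then (2 * ((n + 2 + 1).choose (a + 2) : ℝ)) •
        (x ^ (a + 1) * GP (fun j => b j • (1 : A)) (fun _ => 0) x (n + 2 - 1 - a)) else 0) = _
      rw [e1, e2]
      have h3 : n + 2 - 1 - 1 = n := by omega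
      have h4 : n + 2 - 1 = n + 1 := by omega
      have h5 : ((n + 2 + 1).choose 2 : ℝ) = ((n : ℝ) + 3) * (n + 2) / 2 := by
        rw [Nat.cast_choose_two]
        push_cast
        ring
      have h6 : x ^ (1 + 1) * GP (fun j => b j • (1 : A)) (fun _ => 0) x n = (b n / 2) • x ^ 2 := by
        rw [ih n (by omega), mul_add, mul_smul_comm, mul_smul_comm, mul_one, ← pow_succ, hx3 0, smul_zero, add_zero]
      simp only [Nat.not_odd_zero, if_false, if_pos odd_one, h4, h6, zero_add, Nat.sub_zero, pow_zero, pow_one,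
        Nat.choose_one_right, mul_smul_comm, mul_one, Nat.reduceAdd, Nat.add_sub_cancel, h5, neg_sq]
      push_cast
      match_scalars
      · field_simp
      · field_simp
        ring
      · field_simp
        ring

/-- the logarithm of the perturbation -/
def Lr (b : ℕ → ℝ) : PowerSeries ℝ := PowerSeries.X * PowerSeries.mk fun k => -(1 / 4) * ((-1) ^ k * b k)

theorem EL_x {x : A} (hx : x ^ 3 = 0) (b : ℕ → ℝ) :
    EL (fun n => (-((n : ℝ) / 4) * b (n - 1)) • x) =
      1 + PowerSeries.C x * PowerSeries.map (algebraMap ℝ A) (Lr b) +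
        PowerSeries.C (x ^ 2) * PowerSeries.map (algebraMap ℝ A) ((1 / 2 : ℝ) • (Lr b) ^ 2) := by
  obtain ⟨F, hF⟩ : ∃ F, F = PowerSeries.map (algebraMap ℝ A) (Lr b) := ⟨_, rfl⟩
  obtain ⟨c, hc⟩ : ∃ c : A, c = algebraMap ℝ A (1 / 2) := ⟨_, rfl⟩
  have hc2 : 2 * c = 1 := by
    rw [hc, ← map_ofNat (algebraMap ℝ A) 2, ← map_mul]
    norm_num
  have h1 : PowerSeries.map (algebraMap ℝ A) ((1 / 2 : ℝ) • (Lr b) ^ 2) = PowerSeries.C c * F ^ 2 := by
    rw [PowerSeries.smul_eq_C_mul, map_mul, map_pow, PowerSeries.map_C, ← hc, ← hF]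
  have h2 : PS (fun n => (-((n : ℝ) / 4) * b (n - 1)) • x) = PowerSeries.C x * PowerSeries.derivative A F := by
    ext k
    rw [PowerSeries.coeff_C_mul, PowerSeries.coeff_derivative, hF, PowerSeries.coeff_map]
    unfold PS Lr
    rw [PowerSeries.coeff_succ_X_mul, PowerSeries.coeff_mk, PowerSeries.coeff_mk]
    have e1 : ((k : A) + 1) = algebraMap ℝ A ((k : ℝ) + 1) := by rw [map_add, map_natCast, map_one]
    have e2 : ((-1 : A)) ^ k = algebraMap ℝ A ((-1) ^ k) := by rw [map_pow, map_neg, map_one]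
    show (-1) ^ k * ((-(((k + 1 : ℕ) : ℝ) / 4) * b k) • x) = _
    rw [e1, e2, Algebra.smul_def, ← mul_assoc, ← map_mul, ← map_mul, mul_comm x]
    congr 2
    push_cast
    ring
  rw [h1, ← hF]
  have hx3 : (PowerSeries.C x : PowerSeries A) ^ 3 = 0 := by rw [← map_pow, hx, map_zero]
  have hcc : (2 : PowerSeries A) * PowerSeries.C c = 1 := by
    rw [← map_ofNat (PowerSeries.C (R := A)) 2, ← map_mul, hc2, map_one]
  refine ode_unique (q := PS fun n => (-((n : ℝ) / 4) * b (n - 1)) • x) (EL_ode _) ?_ ?_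
  · have h5 : PowerSeries.derivative A (PowerSeries.C x * F) = PowerSeries.C x * PowerSeries.derivative A F := by
      rw [Derivation.leibniz, PowerSeries.derivative_C, smul_zero, add_zero, smul_eq_mul]
    have h6 : PowerSeries.derivative A (PowerSeries.C (x ^ 2) * (PowerSeries.C c * F ^ 2)) =
        PowerSeries.C x ^ 2 * (PowerSeries.C c * (2 * F * PowerSeries.derivative A F)) := by
      rw [Derivation.leibniz, PowerSeries.derivative_C, smul_zero, add_zero, smul_eq_mul, Derivation.leibniz,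
        PowerSeries.derivative_C, smul_zero, add_zero, smul_eq_mul, PowerSeries.derivative_pow, map_pow]
      ring
    rw [h2, map_add, map_add, PowerSeries.derivative_one, zero_add, h5, h6, map_pow]
    linear_combination (PowerSeries.C x ^ 2 * F * PowerSeries.derivative A F) * hcc -
      (PowerSeries.C c * F ^ 2 * PowerSeries.derivative A F) * hx3
  · rw [EL_zero, map_add, map_add, map_one, map_mul, map_mul, map_mul, map_pow _ F 2]
    have h7 : PowerSeries.constantCoeff F = 0 := by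
      rw [hF, ← PowerSeries.coeff_zero_eq_constantCoeff_apply, PowerSeries.coeff_map]
      unfold Lr
      rw [PowerSeries.coeff_zero_X_mul, map_zero]
    rw [h7]
    ring

/-! ### the series -/

section series

variable {h : ℕ}

/-- the series of the signed `w` -/
def Ws (h : ℕ) (w : ℕ → ℝ) : PowerSeries ℝ := PowerSeries.mk fun c => (-1) ^ (h * c) * w c

theorem EL_spr (hh : h ≠ 0) (w : ℕ → ℝ) : EL (fun j => spr h w j / 2) = PowerSeries.expand h hh (C0s h w) := by
  have h1 : (fun j => spr h w j / 2) = spr h fun c => w c / 2 := by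
    funext j
    unfold spr
    split_ifs
    · rfl
    · rw [zero_div]
  rw [h1]
  ext n
  unfold EL
  rw [PowerSeries.coeff_mk]
  by_cases h2 : h ∣ n
  · obtain ⟨c, rfl⟩ := h2
    rw [PowerSeries.coeff_expand_mul]
    unfold C0s
    rw [PowerSeries.coeff_mk]
  · rw [PowerSeries.coeff_expand_of_not_dvd _ _ _ h2, elc_spr _ h2]

theorem expand_Ws (hh : h ≠ 0) (w : ℕ → ℝ) :
    PowerSeries.expand h hh (Ws h w) = PowerSeries.mk fun k => (-1) ^ k * spr h w k := by
  ext n
  rw [PowerSeries.coeff_mk]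
  by_cases h2 : h ∣ n
  · obtain ⟨c, rfl⟩ := h2
    rw [PowerSeries.coeff_expand_mul, spr_mul (Nat.pos_of_ne_zero hh)]
    unfold Ws
    rw [PowerSeries.coeff_mk]
  · rw [PowerSeries.coeff_expand_of_not_dvd _ _ _ h2, spr_not _ h2, mul_zero]

theorem Lr_spr (hh : h ≠ 0) (w : ℕ → ℝ) :
    Lr (spr h w) = PowerSeries.X * ((-(1 / 4) : ℝ) • PowerSeries.expand h hh (Ws h w)) := by
  rw [expand_Ws]
  rfl

theorem ode_C0 (hh : h ≠ 0) (w : ℕ → ℝ) :
    (h : ℝ) • (PowerSeries.X * PowerSeries.derivative ℝ (C0s h w)) =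
      (-(1 / 2) : ℝ) • (C0s h w * (Ws h w - PowerSeries.C (w 0))) := by
  have hinj : Function.Injective (PowerSeries.expand h hh (R := ℝ)) := by
    intro f g hfg
    ext n
    have := congrArg (PowerSeries.coeff (h * n)) hfg
    rwa [PowerSeries.coeff_expand_mul, PowerSeries.coeff_expand_mul] at this
  apply hinj
  rw [map_smul, map_smul, map_mul (PowerSeries.expand h hh) (C0s h w), map_sub (PowerSeries.expand h hh) (Ws h w),
    PowerSeries.expand_C, ← EL_spr hh w]
  have h1 := congrArg (fun z => PowerSeries.X * z) (EL_ode fun j => spr h w j / 2)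
  have h2 : PowerSeries.X * PowerSeries.derivative ℝ (EL fun j => spr h w j / 2) =
      (h : ℝ) • PowerSeries.expand h hh (PowerSeries.X * PowerSeries.derivative ℝ (C0s h w)) := by
    rw [EL_spr hh w]
    ext n
    rw [map_smul, smul_eq_mul]
    rcases n with _ | n
    · rw [PowerSeries.coeff_zero_X_mul]
      have h3 := PowerSeries.coeff_expand_mul (p := h) (hp := hh) (φ := PowerSeries.X * PowerSeries.derivative ℝ (C0s h w)) 0
      rw [mul_zero, PowerSeries.coeff_zero_X_mul] at h3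
      rw [h3, mul_zero]
    · rw [PowerSeries.coeff_succ_X_mul, PowerSeries.coeff_derivative]
      by_cases h2 : h ∣ n + 1
      · obtain ⟨c, hc⟩ := h2
        obtain ⟨d, rfl⟩ : ∃ d, c = d + 1 := by
          rcases c with _ | d
          · rw [mul_zero] at hc
            omega
          · exact ⟨d, rfl⟩
        rw [hc, PowerSeries.coeff_expand_mul, PowerSeries.coeff_expand_mul, PowerSeries.coeff_succ_X_mul,
          PowerSeries.coeff_derivative]
        have h3 : (n : ℝ) + 1 = h * (d + 1) := by exact_mod_cast hc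
        rw [h3]
        ring
      · rw [PowerSeries.coeff_expand_of_not_dvd _ _ _ h2, PowerSeries.coeff_expand_of_not_dvd _ _ _ h2, zero_mul, mul_zero]
  have h3 : PowerSeries.X * PS (fun j => spr h w j / 2) =
      (-(1 / 2) : ℝ) • (PowerSeries.expand h hh (Ws h w) - PowerSeries.C (w 0)) := by
    rw [expand_Ws]
    ext n
    rw [map_smul, map_sub, PowerSeries.coeff_mk, PowerSeries.coeff_C, smul_eq_mul]
    rcases n with _ | n
    · have h4 : spr h w 0 = w 0 := spr_mul (Nat.pos_of_ne_zero hh) w 0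
      rw [PowerSeries.coeff_zero_X_mul, if_pos rfl, pow_zero, one_mul, h4, sub_self, mul_zero]
    · unfold PS
      rw [PowerSeries.coeff_succ_X_mul, PowerSeries.coeff_mk, if_neg (Nat.succ_ne_zero n), sub_zero, pow_succ]
      ring
  rw [← h2, h1, mul_left_comm, h3, mul_smul_comm]

theorem C0_ne (w : ℕ → ℝ) : PowerSeries.constantCoeff (C0s h w) ≠ 0 := by
  rw [← PowerSeries.coeff_zero_eq_constantCoeff_apply]
  unfold C0s
  rw [PowerSeries.coeff_mk, mul_zero, elc_zero]
  exact one_ne_zero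

theorem coeff_fin (hh : h ≠ 0) {m : ℕ} {w : ℕ → ℝ} (hw0 : w 0 = 2 * h * ((m : ℝ) - 1)) :
    PowerSeries.coeff (h * (m - 1) + 2) (EL (fun j => spr h w j / 2) * ((1 / 2 : ℝ) • (Lr (spr h w)) ^ 2)) =
      (h : ℝ) ^ 2 / 8 * PowerSeries.coeff (m - 1) ((((m : ℝ) - 1) • C0s h w -
        PowerSeries.X * PowerSeries.derivative ℝ (C0s h w)) ^ 2 * (C0s h w)⁻¹) := by
  obtain ⟨D0, hD0⟩ : ∃ D0, D0 = ((m : ℝ) - 1) • C0s h w - PowerSeries.X * PowerSeries.derivative ℝ (C0s h w) := ⟨_, rfl⟩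
  rw [← hD0]
  have h1 := ode_C0 hh w
  have h2 : C0s h w * Ws h w = (2 * (h : ℝ)) • D0 := by
    have e2 : (2 : ℝ) • ((-(1 / 2) : ℝ) • (C0s h w * (Ws h w - PowerSeries.C (w 0)))) =
        -(C0s h w * Ws h w) + (w 0) • C0s h w := by
      rw [smul_smul, show (2 : ℝ) * (-(1 / 2)) = -1 by norm_num, PowerSeries.smul_eq_C_mul (C0s h w)]
      rw [neg_one_smul]
      ring
    rw [← h1, smul_smul, hw0] at e2
    rw [hD0, smul_sub, smul_smul, eq_sub_iff_add_eq, e2]
    ring
  have h3 : C0s h w * (C0s h w)⁻¹ = 1 := PowerSeries.mul_inv_cancel _ (C0_ne w)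
  have h4 : C0s h w * (Ws h w) ^ 2 = (4 * (h : ℝ) ^ 2) • (D0 ^ 2 * (C0s h w)⁻¹) := by
    have e1 : C0s h w * (Ws h w) ^ 2 = (C0s h w * Ws h w) ^ 2 * (C0s h w)⁻¹ := by
      linear_combination (-(C0s h w * (Ws h w) ^ 2)) * h3
    rw [e1, h2, smul_pow, smul_mul_assoc]
    congr 1
    ring
  have h5 : EL (fun j => spr h w j / 2) * ((1 / 2 : ℝ) • (Lr (spr h w)) ^ 2) =
      PowerSeries.X ^ 2 * ((1 / 32 : ℝ) • PowerSeries.expand h hh (C0s h w * (Ws h w) ^ 2)) := by
    rw [EL_spr hh, Lr_spr hh, map_mul, map_pow, mul_pow, smul_pow, mul_smul_comm, mul_smul_comm, mul_smul_comm, mul_smul_comm,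
      smul_smul, show (1 / 2 : ℝ) * (-(1 / 4)) ^ 2 = 1 / 32 by norm_num]
    congr 1
    ring
  rw [h5, PowerSeries.coeff_X_pow_mul, map_smul, PowerSeries.coeff_expand_mul, h4, map_smul, smul_eq_mul, smul_eq_mul]
  ring

end series

/-! ### the truncated ring -/

/-- the ring `R[x] / x^3` -/
abbrev R3 := Polynomial ℝ ⧸ Ideal.span {(Polynomial.X : Polynomial ℝ) ^ 3}

/-- the element `x` -/
def x3 : R3 := Ideal.Quotient.mk _ Polynomial.X

theorem x3_cube : x3 ^ 3 = 0 := by
  unfold x3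
  rw [← map_pow]
  exact Ideal.Quotient.eq_zero_iff_mem.2 (Ideal.mem_span_singleton_self _)

theorem x3_ind {α β γ : ℝ} (h : α • (1 : R3) + β • x3 + γ • x3 ^ 2 = 0) : γ = 0 := by
  have h1 : Ideal.Quotient.mk (Ideal.span {(Polynomial.X : Polynomial ℝ) ^ 3})
      (α • (1 : Polynomial ℝ) + β • Polynomial.X + γ • Polynomial.X ^ 2) = 0 := h
  rw [Ideal.Quotient.eq_zero_iff_mem, Ideal.mem_span_singleton, Polynomial.X_pow_dvd_iff] at h1
  have h2 := h1 2 (by norm_num)
  simp only [Polynomial.coeff_add, Polynomial.coeff_smul, Polynomial.coeff_X_pow, Polynomial.coeff_X, Polynomial.coeff_one,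
    smul_eq_mul] at h2
  norm_num at h2
  exact h2

theorem map_EL (p : ℕ → ℝ) : PowerSeries.map (algebraMap ℝ A) (EL p) = EL fun n => p n • (1 : A) := by
  ext n
  rw [PowerSeries.coeff_map]
  unfold EL
  rw [PowerSeries.coeff_mk, PowerSeries.coeff_mk]
  have h1 := map_elc (Algebra.ofId ℝ A) p n
  have h2 : (fun k => Algebra.ofId ℝ A (p k)) = fun n => p n • (1 : A) := by
    funext k
    rw [Algebra.smul_def, mul_one]
    rfl
  rw [h2] at h1
  exact h1

/-- the coefficient of `x^2` -/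
theorem elc_x3 {x : A} (hx : x ^ 3 = 0) (b : ℕ → ℝ) (N : ℕ) : ∃ α β : ℝ,
    elc (GP (fun j => b j • (1 : A)) (fun _ => 0) x) N = α • (1 : A) + β • x +
      (PowerSeries.coeff N (EL (fun j => b j / 2) * ((1 / 2 : ℝ) • (Lr b) ^ 2))) • x ^ 2 := by
  refine ⟨PowerSeries.coeff N (EL fun j => b j / 2), PowerSeries.coeff N (EL (fun j => b j / 2) * Lr b), ?_⟩
  have h1 : GP (fun j => b j • (1 : A)) (fun _ => 0) x = fun n => (b n / 2) • (1 : A) + (-((n : ℝ) / 4) * b (n - 1)) • x :=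
    funext fun n => trunc_GP hx b n
  have h2 : elc (GP (fun j => b j • (1 : A)) (fun _ => 0) x) N =
      PowerSeries.coeff N (EL (GP (fun j => b j • (1 : A)) (fun _ => 0) x)) := by
    unfold EL
    rw [PowerSeries.coeff_mk]
  have h3 := EL_x hx b
  obtain ⟨S, hS⟩ : ∃ S, S = (1 / 2 : ℝ) • (Lr b) ^ 2 := ⟨_, rfl⟩
  rw [← hS] at h3 ⊢
  rw [h2, h1, EL_add, ← map_EL, h3, mul_add, mul_add, mul_one, mul_left_comm, mul_left_comm _ (PowerSeries.C (x ^ 2)),
    ← map_mul, ← map_mul, map_add, map_add, PowerSeries.coeff_C_mul, PowerSeries.coeff_C_mul, PowerSeries.coeff_map,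
    PowerSeries.coeff_map, PowerSeries.coeff_map, Algebra.smul_def, Algebra.smul_def, Algebra.smul_def, mul_one, mul_comm x,
    mul_comm (x ^ 2)]

/-- **the homogeneous part**: coordinates and the coefficient of `l^2 u^(m-1)` -/
theorem hom_part {m h : ℕ} (hm1 : 1 ≤ m) (hh3 : 3 ≤ h) {w : ℕ → ℝ} (hw0 : w 0 = 2 * h * ((m : ℝ) - 1)) (l u : A) :
    ∃ f : ℕ → ℝ, elc (GP (fun j => spr h w j • u ^ (j / h)) (fun _ => 0) l) (h * (m - 1) + 2) =
      ∑ i ∈ range m, f i • (l ^ (2 + i * h) * u ^ (m - 1 - i)) ∧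
      f 0 = (h : ℝ) ^ 2 / 8 * PowerSeries.coeff (m - 1) ((((m : ℝ) - 1) • C0s h w -
        PowerSeries.X * PowerSeries.derivative ℝ (C0s h w)) ^ 2 * (C0s h w)⁻¹) := by
  have hh0 : h ≠ 0 := by omega
  obtain ⟨N, hN⟩ : ∃ N, N = h * (m - 1) + 2 := ⟨_, rfl⟩
  have hNd : N / h + 1 = m := by
    have h1 : N / h = m - 1 := by
      refine Nat.div_eq_of_lt_le ?_ ?_
      · rw [hN, mul_comm]
        omega
      · rw [hN, add_mul, one_mul, mul_comm]
        omega
    rw [h1]
    omega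
  obtain ⟨lt, hlt⟩ : ∃ lt : A × R3, lt = (l, x3) := ⟨_, rfl⟩
  obtain ⟨ut, hut⟩ : ∃ ut : A × R3, ut = (u, 1) := ⟨_, rfl⟩
  obtain ⟨g, hg⟩ := Hsp_coord (Nat.pos_of_ne_zero hh0) (Hsp_elc (fun n => Hsp_GP (h := h) (l := lt) (u := ut) w n) N)
  rw [hNd] at hg
  have e1 := congrArg (AlgHom.fst ℝ A R3) hg
  have e2 := congrArg (AlgHom.snd ℝ A R3) hg
  have hl1 : AlgHom.fst ℝ A R3 lt = l := by rw [hlt]; rfl
  have hl2 : AlgHom.snd ℝ A R3 lt = x3 := by rw [hlt]; rfl
  have hu1 : AlgHom.fst ℝ A R3 ut = u := by rw [hut]; rfl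
  have hu2 : AlgHom.snd ℝ A R3 ut = 1 := by rw [hut]; rfl
  rw [map_elc, map_sum] at e1 e2
  have f1 : (fun k => AlgHom.fst ℝ A R3 (GP (fun j => spr h w j • ut ^ (j / h)) (fun _ => 0) lt k)) =
      GP (fun j => spr h w j • u ^ (j / h)) (fun _ => 0) l := by
    funext k
    rw [map_GP, hl1]
    simp only [map_smul, map_pow, hu1, map_zero]
  have f2 : (fun k => AlgHom.snd ℝ A R3 (GP (fun j => spr h w j • ut ^ (j / h)) (fun _ => 0) lt k)) =
      GP (fun j => spr h w j • (1 : R3)) (fun _ => 0) x3 := by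
    funext k
    rw [map_GP, hl2]
    simp only [map_smul, map_pow, hu2, map_zero, one_pow]
  rw [f1] at e1
  rw [f2] at e2
  simp only [map_smul, map_mul, map_pow, hl1, hu1] at e1
  simp only [map_smul, map_mul, map_pow, hl2, hu2, one_pow, mul_one] at e2
  refine ⟨fun i => g (m - 1 - i), ?_, ?_⟩
  · rw [← hN, e1, ← Finset.sum_range_reflect]
    refine Finset.sum_congr rfl fun i hi => ?_
    have hi' := Finset.mem_range.1 hi
    have h1 : N - h * (m - 1 - i) = 2 + i * h := by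
      have h2 : h * (m - 1) = h * (m - 1 - i) + i * h := by
        rw [mul_comm i h, ← mul_add]
        congr 1
        omega
      omega
    rw [h1]
  · show g (m - 1 - 0) = _
    have h1 : ∑ j ∈ range m, g j • x3 ^ (N - h * j) = g (m - 1) • x3 ^ 2 := by
      rw [Finset.sum_eq_single_of_mem (m - 1) (Finset.mem_range.2 (by omega))]
      · have h2 : N - h * (m - 1) = 2 := by omega
        rw [h2]
      · intro j hj hjm
        have hj' := Finset.mem_range.1 hj
        obtain ⟨d, hd⟩ : ∃ d, N - h * j = d + 3 := by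
          have h3 : h * (m - 1) = h * j + h * (m - 1 - j) := by
            rw [← mul_add]
            congr 1
            omega
          have h4 : h ≤ h * (m - 1 - j) := Nat.le_mul_of_pos_right h (by omega)
          exact ⟨N - h * j - 3, by omega⟩
        rw [hd, pow_add, x3_cube, mul_zero, smul_zero]
    obtain ⟨α, β, hαβ⟩ := elc_x3 x3_cube (spr h w) N
    rw [h1, hαβ] at e2
    have h3 := x3_ind (α := α) (β := β)
      (γ := (PowerSeries.coeff N (EL (fun j => spr h w j / 2) * ((1 / 2 : ℝ) • (Lr (spr h w)) ^ 2))) - g (m - 1)) (by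
        rw [sub_smul, ← e2]
        abel)
    rw [Nat.sub_zero, ← coeff_fin hh0 hw0, ← hN]
    linarith

/-- **(IIIg)** -/
theorem IIIg {l e u1 u2 : A} {m h : ℕ} {s t ρ : ℝ} (hm1 : 1 ≤ m) (hh3 : 3 ≤ h) (hh : 5 ≤ h ∨ ρ = 0) (hs : s ≠ 0) (ht : t ≠ 0)
    (h0 : hm m u1 u2 = 0) (p1 : u1 ^ (m + 1) = 0) (R1 : l * e = s • (u1 - u2))
    (R2 : e ^ 2 = t • l ^ (2 * h - 2) + ρ • ((u1 + u2) * l ^ (h - 2)))
    (X2 : e ^ 2 * (u1 ^ m * u2 ^ (m - 1)) ≠ 0) {w : ℕ → ℝ} {B D : ℕ → A} (hw0 : w 0 = 2 * h * ((m : ℝ) - 1))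
    (hB : ∀ j, j ≤ h * m → ∃ R, B j = spr h w j • u1 ^ (j / h) + (u1 - u2) * R)
    (hD : ∀ j, j ≤ h * m → ∃ R, D j = e * R) (hF : l * elc (GP B D l) (h * (m - 1) + 2) = 0) :
    PowerSeries.coeff (m - 1) ((((m : ℝ) - 1) • C0s h w - PowerSeries.X * PowerSeries.derivative ℝ (C0s h w)) ^ 2 *
      (C0s h w)⁻¹) = 0 := by
  have hq : (2 * h - 2) / 2 - 1 = h - 2 := by omega
  obtain ⟨I, hI, i1, i2, i3, i4, i5⟩ := red (q := 2 * h - 2) hm1 hs h0 p1 R1 (by rw [hq]; exact R2) X2
  obtain ⟨π', hπ'⟩ : ∃ π' : A →ₐ[ℝ] A ⧸ I, π' = Ideal.Quotient.mkₐ ℝ I := ⟨_, rfl⟩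
  have hπ0' : ∀ x, π' x = 0 ↔ x ∈ I := fun x => by
    rw [hπ']
    exact Ideal.Quotient.eq_zero_iff_mem
  have k1 : π' u2 = π' u1 := by
    have h1 := (hπ0' (u1 - u2)).2 i1
    rw [map_sub, sub_eq_zero] at h1
    exact h1.symm
  have k2 : π' l * π' e = 0 := by rw [← map_mul]; exact (hπ0' _).2 i2
  have k3 : π' e ^ 2 = t • π' l ^ (2 * h - 2) + (2 * ρ) • (π' u1 * π' l ^ ((2 * h - 2) / 2 - 1)) := by
    have h1 := (hπ0' _).2 i3
    rw [map_sub, sub_eq_zero, map_add, map_smul, map_smul, map_mul, map_pow, map_pow, map_pow] at h1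
    exact h1
  have k4 : π' u1 ^ m = 0 := by rw [← map_pow]; exact (hπ0' _).2 i4
  have k5 : π' l ^ (2 * h - 2) * π' u1 ^ (m - 1) ≠ 0 := by
    rw [← map_pow, ← map_pow, ← map_mul]
    exact fun h1 => i5 ((hπ0' _).1 h1)
  obtain ⟨N, hN⟩ : ∃ N, N = h * (m - 1) + 2 := ⟨_, rfl⟩
  have hNm : N + 1 ≤ h * m := by
    have h1 : h * m = h * (m - 1) + h := by
      rw [← Nat.mul_succ]
      congr 1
      omega
    omega
  have hex : ∀ j, ∃ R, j ≤ h * m → π' (D j) = π' e * R := fun j => by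
    by_cases hj : j ≤ h * m
    · obtain ⟨R, hR⟩ := hD j hj
      exact ⟨π' R, fun _ => by rw [hR, map_mul]⟩
    · exact ⟨0, fun h1 => absurd h1 hj⟩
  choose R hR using hex
  have k6 : elc (fun n => GP (fun j => spr h w j • π' u1 ^ (j / h)) (fun _ => 0) (π' l) n +
      π' e * GP (fun _ => 0) R (π' l) n) N = 0 := by
    have h1 := (hπ0' _).2 (hI _ hF)
    rw [map_elc, ← hN] at h1
    refine Eq.trans (elc_congr_le fun k hk => ?_) h1
    rw [map_GP, ← GP_split]
    refine (GP_congr N (fun j hj => ?_) (fun j hj => hR j (by omega)) (k + 1) hk).symm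
    obtain ⟨R', hR'⟩ := hB j (by omega)
    rw [hR', map_add, map_smul, map_pow, map_mul, map_sub, k1, sub_self, zero_mul, add_zero]
  obtain ⟨G, hG⟩ := elc_e (GP (fun j => spr h w j • π' u1 ^ (j / h)) (fun _ => 0) (π' l)) (GP (fun _ => 0) R (π' l)) (π' e) N
  rw [hG, hN] at k6
  obtain ⟨f, hf, hf0⟩ := hom_part hm1 hh3 hw0 (π' l) (π' u1)
  rw [hf] at k6
  have k7 : f 0 = 0 := by
    rcases hh with h5 | h5
    · refine ext_l (q := 2 * h - 2) (a := 2) k2 k3 hm1 k4 ht (by omega) ⟨h - 1, by omega⟩ k5 (by omega) f (G := G) ?_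
      have h6 : (2 * h - 2) / 2 + 1 = h := by omega
      rw [h6]
      exact k6
    · rw [h5, mul_zero, zero_smul, add_zero] at k3
      exact ext_l0 (a := 2) (b := h) k2 k3 hm1 ht k5 (by omega) (by omega) f k6
  rw [hf0] at k7
  have hhr : (h : ℝ) ≠ 0 := Nat.cast_ne_zero.2 (by omega)
  exact (mul_eq_zero.1 k7).resolve_left (div_ne_zero (pow_ne_zero 2 hhr) (by norm_num))

end Pool.Agent.Lib.MP_ccbbf6_gt.L5.FR6
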