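import Pool.Agent.Lib.MP_ccbbf6_gt.L6.X3c

/-!
# Level 6, X3d: the statements (B1), (B2), (B3), (B4) (helper38)

`C0 ^ 2 (1 + 2 b X) ^ 2 = (1 + b X + X^2) ^ (m + 1)`, `D = (m - 1) C0 - X C0'`.
* `IIIg_pos_odd`, `IIIg_pos_even`, `IIIg_neg_odd`, `IIg_even`.
-/

set_option autoImplicit false

namespace Pool.Agent.Lib.MP_ccbbf6_gt.L6

open PowerSeries L5

theorem D2_eq {c : PowerSeries ℝ} (h0 : constantCoeff c = 1) (n : ℕ) :
    coeff n ((C (n : ℝ) * c - X * derivative ℝ c) ^ 2 * c⁻¹) = -coeff n (c * tl c) := by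
  have hci : c * c⁻¹ = 1 := PowerSeries.mul_inv_cancel _ (by rw [h0]; exact one_ne_zero)
  have hth : ∀ f : PowerSeries ℝ, coeff n (X * derivative ℝ f) = (n : ℝ) * coeff n f := by
    intro f
    rcases n with _ | n
    · rw [coeff_zero_X_mul]
      simp
    · rw [coeff_succ_X_mul, coeff_derivative]
      push_cast
      ring
  have dci : derivative ℝ c⁻¹ = -(derivative ℝ c) * (c⁻¹) ^ 2 := by
    have h := congrArg (derivative ℝ) hci
    rw [der_mul, ← map_one C, derivative_C] at h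
    linear_combination c⁻¹ * h - derivative ℝ c⁻¹ * hci
  have e : (C (n : ℝ) * c - X * derivative ℝ c) ^ 2 * c⁻¹ + c * tl c =
      C ((n : ℝ) ^ 2) * c - C (2 * (n : ℝ)) * (X * derivative ℝ c) + X * derivative ℝ (X * derivative ℝ c) := by
    rw [tl, der_mul, der_mul, der_mul, derivative_X, dci, map_pow, map_mul, map_ofNat]
    linear_combination (C (n : ℝ) ^ 2 * c - 2 * C (n : ℝ) * X * derivative ℝ c + X * derivative ℝ c +
      X ^ 2 * derivative ℝ (derivative ℝ c) - X ^ 2 * derivative ℝ c ^ 2 * c⁻¹) * hci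
  have h := congrArg (coeff n) e
  rw [map_add, map_add, map_sub, coeff_C_mul, coeff_C_mul, hth, hth, hth] at h
  linarith

theorem smul_C (a : ℝ) (f : PowerSeries ℝ) : a • f = C a * f := smul_eq_C_mul f a

/-- (B1) -/
theorem IIIg_pos_odd {m : ℕ} (hm : Odd m) (hm3 : 3 ≤ m) (b : ℝ) {C0 : PowerSeries ℝ} (h1 : constantCoeff C0 = 1)
    (h : C0 ^ 2 * (1 + C (2 * b) * X) ^ 2 = (1 + C b * X + X ^ 2) ^ (m + 1)) :
    coeff (m - 1) ((((m : ℝ) - 1) • C0 - X * derivative ℝ C0) ^ 2 * C0⁻¹) ≠ 0 := by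
  obtain ⟨n, rfl⟩ : ∃ n, m = n + 1 := ⟨m - 1, by omega⟩
  have hn : ((n + 1 : ℕ) : ℝ) - 1 = n := by push_cast; ring
  rw [hn, Nat.add_sub_cancel, smul_C, D2_eq h1]
  refine neg_ne_zero.2 (ne_of_gt (tl_even (by omega) ?_ h h1))
  obtain ⟨k, hk⟩ := hm
  exact ⟨k, by omega⟩

/-- (B2) -/
theorem IIIg_pos_even {m : ℕ} (hm : Even m) (hm2 : 2 ≤ m) (b : ℝ) {C0 : PowerSeries ℝ} (h1 : constantCoeff C0 = 1)
    (h : C0 ^ 2 * (1 + C (2 * b) * X) ^ 2 = (1 + C b * X + X ^ 2) ^ (m + 1))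
    (h0 : coeff (m - 1) ((((m : ℝ) - 1) • C0 - X * derivative ℝ C0) ^ 2 * C0⁻¹) = 0) : b = 0 := by
  obtain ⟨n, rfl⟩ : ∃ n, m = n + 1 := ⟨m - 1, by omega⟩
  have hn : ((n + 1 : ℕ) : ℝ) - 1 = n := by push_cast; ring
  rw [hn, Nat.add_sub_cancel, smul_C, D2_eq h1] at h0
  by_contra hb
  refine tl_odd ?_ hb h h1 (neg_eq_zero.1 h0)
  obtain ⟨k, hk⟩ := hm
  exact ⟨k - 1, by omega⟩

/-! ### the case `b = 0` -/

theorem Z_ode (a : ℝ) : (1 + X) * derivative ℝ (Z a) = C a * Z a := by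
  obtain ⟨a, rfl⟩ : ∃ a', a = a' + 1 := ⟨a - 1, by ring⟩
  rw [Z_der, Z_succ]
  ring

theorem Z_sq (a : ℝ) (M : ℕ) (h : 2 * a = M) : Z a ^ 2 = (1 + X) ^ M := by
  have hS : (1 + X) * (1 + X)⁻¹ = (1 : PowerSeries ℝ) := PowerSeries.mul_inv_cancel _ (by simp)
  obtain ⟨S, hS'⟩ : ∃ S : PowerSeries ℝ, S = 1 + X := ⟨_, rfl⟩
  have h0 := Z_ode a
  have h1 : derivative ℝ S = 1 := by
    rw [hS', map_add, derivative_X, ← map_one C, derivative_C, map_one, zero_add]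
  rw [← hS'] at hS h0 ⊢
  have hM : (C (2 * a) : PowerSeries ℝ) = (M : PowerSeries ℝ) := by rw [h, map_natCast]
  have e1 : derivative ℝ (Z a) = Z a * (C a * S⁻¹) := by
    linear_combination S⁻¹ * h0 - derivative ℝ (Z a) * hS
  have e2 : derivative ℝ S = S * S⁻¹ := by
    rw [h1, hS]
  refine sol_unique (der_pow e1 2) ?_ ?_
  · rw [der_pow e2 M, ← hM, map_mul, map_ofNat]
    push_cast
    ring
  · rw [map_pow, map_pow, Z_zero, hS']
    simp

theorem expand_C' (a : ℝ) : expand 2 two_ne_zero (C a) = C a := expand_C _ _ _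

/-- `(1 + s X^2)^((m + 1) / 2)` -/
theorem C0_eq {m : ℕ} {s : ℝ} {C0 : PowerSeries ℝ} (h1 : constantCoeff C0 = 1)
    (h : C0 ^ 2 = (1 + C s * X ^ 2) ^ (m + 1)) :
    C0 = expand 2 two_ne_zero (rescale s (Z (((m : ℝ) + 1) / 2))) := by
  refine sq_cancel ?_ h1 ?_
  · rw [h, ← map_pow, ← map_pow, Z_sq (M := m + 1) (h := by push_cast; ring), map_pow, map_pow, map_add, map_add,
      map_one, map_one, rescale_X, map_mul, expand_C', expand_X]
  · rw [constantCoeff_expand, ← coeff_zero_eq_constantCoeff_apply, coeff_rescale, coeff_Z, ch_zero]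
    norm_num

/-- (B3) -/
theorem IIIg_neg_odd {m : ℕ} (hm : Odd m) (hm3 : 3 ≤ m) {C0 : PowerSeries ℝ} (h1 : constantCoeff C0 = 1)
    (h : C0 ^ 2 = (1 - X ^ 2) ^ (m + 1)) :
    coeff (m - 1) ((((m : ℝ) - 1) • C0 - X * derivative ℝ C0) ^ 2 * C0⁻¹) ≠ 0 := by
  obtain ⟨k, hk⟩ := hm
  obtain ⟨k, rfl⟩ : ∃ j, k = j + 1 := ⟨k - 1, by omega⟩
  subst hk
  have hn : ((2 * (k + 1) + 1 : ℕ) : ℝ) - 1 = (2 * (k + 1) : ℕ) := by push_cast; ring
  rw [hn, Nat.add_sub_cancel, smul_C, D2_eq h1]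
  refine neg_ne_zero.2 ?_
  obtain ⟨T, hT⟩ : ∃ T : PowerSeries ℝ, T = 1 - X ^ 2 := ⟨_, rfl⟩
  have hT1 : T * T⁻¹ = 1 := PowerSeries.mul_inv_cancel _ (by rw [hT]; simp)
  have hc : C0 = T ^ (k + 2) := by
    refine sq_cancel ?_ h1 ?_
    · rw [h, ← hT, ← pow_mul]
      congr 1
      ring
    · rw [map_pow, hT]
      simp
  have hci : T ^ (k + 2) * (T ^ (k + 2))⁻¹ = 1 := PowerSeries.mul_inv_cancel _ (by rw [map_pow, hT]; simp)
  have dT : derivative ℝ T = -(2 * X) := by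
    rw [hT, map_sub, derivative_pow, derivative_X, ← map_one C, derivative_C, map_one]
    simp
  have dTi : derivative ℝ T⁻¹ = 2 * X * T⁻¹ ^ 2 := by
    have h2 := congrArg (derivative ℝ) hT1
    rw [der_mul, dT, ← map_one C, derivative_C] at h2
    linear_combination T⁻¹ * h2 - derivative ℝ T⁻¹ * hT1
  obtain ⟨κ, hκ⟩ : ∃ κ : PowerSeries ℝ, κ = C ((k : ℝ) + 2) := ⟨_, rfl⟩
  have dκ : derivative ℝ κ = 0 := by rw [hκ, derivative_C]
  have hκ' : ((k + 2 : ℕ) : PowerSeries ℝ) = κ := by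
    rw [hκ, ← map_natCast C]
    congr 1
    push_cast
    ring
  have hM : derivative ℝ C0 * C0⁻¹ = κ * (-(2 * X) * T⁻¹) := by
    rw [hc, derivative_pow, dT, hκ', show k + 2 - 1 = k + 1 by omega]
    have e : T ^ (k + 2) = T ^ (k + 1) * T := by rw [pow_succ]
    linear_combination (κ * (-(2 * X)) * T⁻¹) * hci - (κ * (-(2 * X)) * (T ^ (k + 2))⁻¹ * T ^ (k + 1)) * hT1 -
      (κ * (-(2 * X)) * (T ^ (k + 2))⁻¹ * T⁻¹) * e
  have e1 : C0 * tl C0 = C (-(4 * ((k : ℝ) + 2))) * (X ^ 2 * T ^ k) := by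
    have hCn : (C (-(4 * ((k : ℝ) + 2))) : PowerSeries ℝ) = -(4 * κ) := by
      rw [map_neg, map_mul, map_ofNat, hκ]
    rw [tl, hM, hc, hCn, der_mul, der_mul, der_mul, dTi, map_neg, der_mul, dκ, derivative_X, ← map_ofNat C 2,
      derivative_C, map_ofNat]
    have e : T ^ (k + 2) = T ^ k * T ^ 2 := by rw [pow_add]
    have hT2 : X ^ 2 = 1 - T := by rw [hT]; ring
    rw [e]
    linear_combination (-4 * κ * X ^ 2 * T ^ k * (X ^ 2 * (T * T⁻¹ + 1) + T)) * hT1 + (-4 * κ * X ^ 2 * T ^ k) * hT2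
  rw [e1, coeff_C_mul, show 2 * (k + 1) = 2 * k + 2 by ring, coeff_X_pow_mul]
  have e2 : coeff (2 * k) (T ^ k) = (-1) ^ k := by
    have e3 : T ^ k = expand 2 two_ne_zero (rescale (-1) ((1 + X) ^ k)) := by
      rw [map_pow, map_pow, map_add, map_add, map_one, map_one, rescale_X, map_mul, expand_C', expand_X, hT, map_neg,
        map_one]
      ring
    rw [e3, coeff_expand_mul, coeff_rescale]
    have e4 : coeff k ((1 + X : PowerSeries ℝ) ^ k) = 1 := by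
      have e5 : (1 + X : PowerSeries ℝ) ^ k = (((1 + Polynomial.X) ^ k : Polynomial ℝ) : PowerSeries ℝ) := by
        simp
      rw [e5, Polynomial.coeff_coe, Polynomial.coeff_one_add_X_pow, Nat.choose_self, Nat.cast_one]
    rw [e4, mul_one]
  rw [e2]
  refine mul_ne_zero ?_ (pow_ne_zero _ (by norm_num))
  have : (0 : ℝ) ≤ k := Nat.cast_nonneg k
  linarith

/-! ### alternating sums of binomial coefficients -/

/-- `l! k^l / ∏_(i ≤ l) (k (j + i) - 1)` -/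
noncomputable def GG (k : ℝ) : ℕ → ℕ → ℝ
  | 0, j => 1 / (k * j - 1)
  | l + 1, j => GG k l j - GG k l (j + 1)

theorem GG_eq {k : ℝ} (hk : 2 ≤ k) (l j : ℕ) (hj : 1 ≤ j) :
    0 < GG k l j ∧ GG k (l + 1) j * (k * (j + l + 1) - 1) = k * (l + 1) * GG k l j := by
  have hpos : ∀ i : ℕ, 1 ≤ i → 0 < k * i - 1 := fun i hi => by
    have : (1 : ℝ) ≤ i := by exact_mod_cast hi
    nlinarith
  induction l generalizing j with
  | zero =>
    have h1 := hpos j hj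
    have h2 := hpos (j + 1) (by omega)
    refine ⟨?_, ?_⟩
    · rw [GG]
      positivity
    · have a1 : GG k (0 + 1) j = 1 / (k * j - 1) - 1 / (k * (j + 1 : ℕ) - 1) := rfl
      have a2 : GG k 0 j = 1 / (k * j - 1) := rfl
      rw [a1, a2]
      push_cast at h2 ⊢
      have h3 : k * (j : ℝ) - 1 ≠ 0 := h1.ne'
      have h4 : k * ((j : ℝ) + 1) - 1 ≠ 0 := h2.ne'
      field_simp
      ring
  | succ l ih =>
    obtain ⟨p1, e1⟩ := ih j hj
    obtain ⟨p2, e2⟩ := ih (j + 1) (by omega)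
    have h1 := hpos (j + l + 1) (by omega)
    have h2 := hpos (j + 1 + l + 1) (by omega)
    push_cast at h1 h2 e2 ⊢
    have p3 : 0 < GG k (l + 1) j := by
      have h3 : 0 < k * ((l : ℝ) + 1) * GG k l j := by positivity
      rw [← e1] at h3
      exact (mul_pos_iff_of_pos_right h1).1 h3
    refine ⟨p3, ?_⟩
    -- the recursion
    have a1 : GG k (l + 1) j = GG k l j - GG k l (j + 1) := rfl
    have a2 : GG k (l + 1 + 1) j = GG k (l + 1) j - GG k (l + 1) (j + 1) := rfl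
    have e3 : GG k l (j + 1) = GG k l j - GG k (l + 1) j := by rw [a1]; ring
    rw [e3] at e2
    rw [a2]
    linear_combination e1 - e2

/-- the alternating sum -/
noncomputable def TT (a : ℝ) (g : ℕ → ℝ) (μ : ℕ) : ℝ :=
  ∑ j ∈ Finset.range μ, (-1) ^ (j + 1) * (ch a (μ - 1 - j) * g (j + 1))

theorem TT_succ (a : ℝ) (g : ℕ → ℝ) (μ : ℕ) :
    TT (a + 1) g (μ + 1) = -(ch a μ * g 1) + TT a (fun j => g j - g (j + 1)) μ := by
  have h1 : TT (a + 1) g (μ + 1) = (∑ j ∈ Finset.range (μ + 1), (-1) ^ (j + 1) * (ch a (μ - j) * g (j + 1))) +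
      ∑ j ∈ Finset.range μ, (-1) ^ (j + 1) * (ch a (μ - 1 - j) * g (j + 1)) := by
    rw [TT, Finset.sum_range_succ, Finset.sum_range_succ _ μ, add_right_comm, ← Finset.sum_add_distrib]
    congr 1
    · refine Finset.sum_congr rfl fun j hj => ?_
      have hj' := Finset.mem_range.1 hj
      obtain ⟨p, hp⟩ : ∃ p, μ - j = p + 1 := ⟨μ - j - 1, by omega⟩
      have h2 : μ + 1 - 1 - j = p + 1 := by omega
      have h3 : μ - 1 - j = p := by omega
      rw [h2, h3, hp, ch_pascal]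
      ring
    · rw [Nat.add_sub_cancel, Nat.sub_self, ch_zero, ch_zero]
  rw [h1, Finset.sum_range_succ', TT, add_right_comm, ← Finset.sum_add_distrib, add_comm]
  congr 1
  · rw [Nat.sub_zero]
    ring
  · refine Finset.sum_congr rfl fun j hj => ?_
    have hj' := Finset.mem_range.1 hj
    have h2 : μ - (j + 1) = μ - 1 - j := by omega
    rw [h2]
    ring

theorem TT_neg {k : ℝ} (hk : 2 ≤ k) (μ : ℕ) : ∀ l, TT (μ + 1 / 2) (GG k l) μ ≤ 0 ∧
    (1 ≤ μ → TT (μ + 1 / 2) (GG k l) μ < 0) := by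
  induction μ with
  | zero =>
    intro l
    rw [TT, Finset.sum_range_zero]
    exact ⟨le_rfl, fun h => absurd h (by omega)⟩
  | succ μ ih =>
    intro l
    have h1 : ((μ + 1 : ℕ) : ℝ) + 1 / 2 = (μ + 1 / 2) + 1 := by
      push_cast
      ring
    have h2 := TT_succ (μ + 1 / 2) (GG k l) μ
    have h3 : (fun j => GG k l j - GG k l (j + 1)) = GG k (l + 1) := rfl
    rw [h3] at h2
    have h4 : 0 < ch ((μ : ℝ) + 1 / 2) μ := ch_pos (by linarith)
    have h5 := (GG_eq hk l 1 le_rfl).1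
    have h6 := (ih (l + 1)).1
    have h7 : TT (((μ + 1 : ℕ) : ℝ) + 1 / 2) (GG k l) (μ + 1) < 0 := by
      rw [h1, h2]
      have := mul_pos h4 h5
      linarith
    exact ⟨h7.le, fun _ => h7⟩

/-! ### (B4) -/

/-- `X (log (1 + s X^2)^(m + 1))'` -/
noncomputable def Lc (m : ℕ) (s : ℝ) (i : ℕ) : ℝ :=
  if i = 0 then 0 else if Even i then 2 * ((m : ℝ) + 1) * (-1) ^ (i / 2 - 1) * s ^ (i / 2) else 0

theorem Lc_even (m : ℕ) (s : ℝ) (j : ℕ) : Lc m s (2 * j + 2) = 2 * ((m : ℝ) + 1) * (-1) ^ j * s ^ (j + 1) := by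
  have h1 : (2 * j + 2) / 2 - 1 = j := by omega
  have h2 : (2 * j + 2) / 2 = j + 1 := by omega
  rw [Lc, if_neg (by omega), if_pos ⟨j + 1, by ring⟩, h1, h2]

theorem Lc_odd (m : ℕ) (s : ℝ) (j : ℕ) : Lc m s (2 * j + 1) = 0 := by
  rw [Lc, if_neg (by omega), if_neg (by rw [Nat.not_even_iff_odd]; exact ⟨j, rfl⟩)]

theorem Lc_zero (m : ℕ) (s : ℝ) : Lc m s 0 = 0 := by
  rw [Lc, if_pos rfl]

theorem Lc_spec (m : ℕ) (s : ℝ) : PowerSeries.mk (Lc m s) * (1 + C s * X ^ 2) =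
    C (2 * ((m : ℝ) + 1) * s) * X ^ 2 := by
  have key : ∀ i, coeff (i + 2) (PowerSeries.mk (Lc m s) * (1 + C s * X ^ 2)) = Lc m s (i + 2) + s * Lc m s i := by
    intro i
    rw [mul_add, mul_one, map_add, coeff_mk, mul_left_comm, coeff_C_mul, coeff_mul_X_pow, coeff_mk]
  ext i
  rcases i with _ | _ | i
  · simp [Lc]
  · rw [mul_add, mul_one, map_add, coeff_mk, mul_left_comm, coeff_C_mul, coeff_mul_X_pow', if_neg (by omega),
      coeff_C_mul, coeff_X_pow, if_neg (by omega), Lc, if_neg (by omega), if_neg (by decide)]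
    ring
  · refine (key i).trans ?_
    rw [coeff_C_mul, coeff_X_pow]
    rcases Nat.even_or_odd' i with ⟨j, rfl | rfl⟩
    · rcases j with _ | j
      · rw [if_pos (by omega), Lc_even, Lc_zero]
        norm_num
      · rw [if_neg (by omega), Lc_even, show 2 * (j + 1) = 2 * j + 2 by ring, Lc_even, pow_succ, pow_succ]
        ring
    · rw [if_neg (by omega), Lc_odd, show 2 * j + 1 + 2 = 2 * (j + 1) + 1 by ring, Lc_odd]
      ring

/-- the series `C1` -/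
noncomputable def C1 (k m : ℕ) (s : ℝ) : PowerSeries ℝ :=
  PowerSeries.mk fun j => -(1 / 2) * Lc m s (j + 1) / ((k : ℝ) * (j + 1) / 2 - 1)

theorem C1_eq {k m : ℕ} (hk : 4 ≤ k) (s : ℝ) : C1 k m s = C (-((m : ℝ) + 1) * s) * (X * expand 2 two_ne_zero
    (PowerSeries.mk fun j => (-1) ^ j * s ^ j * GG k 0 (j + 1))) := by
  ext i
  rw [C1, coeff_mk, coeff_C_mul]
  rcases i with _ | i
  · rw [coeff_zero_X_mul, Lc, if_neg (by omega), if_neg (by decide)]
    ring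
  · rw [coeff_succ_X_mul, Lc, if_neg (by omega)]
    rcases Nat.even_or_odd' i with ⟨j, rfl | rfl⟩
    · rw [coeff_expand_mul, coeff_mk, if_pos ⟨j + 1, by ring⟩]
      have h1 : (2 * j + 1 + 1) / 2 = j + 1 := by omega
      have h3 : (4 : ℝ) ≤ k := by exact_mod_cast hk
      have hj : (0 : ℝ) ≤ j := Nat.cast_nonneg j
      have h4 : (k : ℝ) * (j + 1) - 1 ≠ 0 := by nlinarith
      have h5 : (k : ℝ) * (((2 * j + 1 : ℕ) : ℝ) + 1) / 2 - 1 = k * (j + 1) - 1 := by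
        push_cast
        ring
      have h6 : GG k 0 (j + 1) = 1 / ((k : ℝ) * (j + 1) - 1) := by
        have : GG k 0 (j + 1) = 1 / ((k : ℝ) * (j + 1 : ℕ) - 1) := rfl
        rw [this]
        push_cast
        rfl
      rw [h1, Nat.add_sub_cancel, h5, h6]
      field_simp
      ring
    · rw [coeff_expand_of_not_dvd _ _ _ (by omega), if_neg (by rw [Nat.not_even_iff_odd]; exact ⟨j + 1, by ring⟩)]
      ring

/-- (B4) -/
theorem IIg_even {k m : ℕ} {s : ℝ} (hm : Even m) (hm2 : 2 ≤ m) (hk : 4 ≤ k) (hs : s = 1 ∨ s = -1)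
    {C0 : PowerSeries ℝ} (h1 : constantCoeff C0 = 1) (h : C0 ^ 2 = (1 + C s * X ^ 2) ^ (m + 1)) :
    coeff (m - 1) (C0 * C1 k m s) ≠ 0 := by
  obtain ⟨μ, hμ⟩ := hm
  obtain ⟨μ, rfl⟩ : ∃ j, μ = j + 1 := ⟨μ - 1, by omega⟩
  have hs2 : s ≠ 0 := by rcases hs with h | h <;> rw [h] <;> norm_num
  have e1 : C0 * C1 k m s = C (-((m : ℝ) + 1) * s) * (X * expand 2 two_ne_zero
      (rescale s (Z (((m : ℝ) + 1) / 2)) * PowerSeries.mk fun j => (-1) ^ j * s ^ j * GG k 0 (j + 1))) := by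
    have e0 : expand 2 two_ne_zero (rescale s (Z (((m : ℝ) + 1) / 2)) *
        PowerSeries.mk fun j => (-1) ^ j * s ^ j * GG k 0 (j + 1)) =
        expand 2 two_ne_zero (rescale s (Z (((m : ℝ) + 1) / 2))) *
        expand 2 two_ne_zero (PowerSeries.mk fun j => (-1) ^ j * s ^ j * GG k 0 (j + 1)) := map_mul _ _ _
    rw [e0, C1_eq hk, ← C0_eq h1 h]
    ring
  have e2 : m - 1 = 2 * μ + 1 := by omega
  have e3 : coeff μ (rescale s (Z (((m : ℝ) + 1) / 2)) * PowerSeries.mk fun j => (-1) ^ j * s ^ j * GG k 0 (j + 1)) =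
      -s ^ μ * TT ((μ + 1 : ℕ) + 1 / 2) (GG k 0) (μ + 1) := by
    rw [mul_comm, coeff_mul_range, TT, Finset.mul_sum]
    refine Finset.sum_congr rfl fun j hj => ?_
    have hj' := Finset.mem_range.1 hj
    have hm' : ((m : ℝ) + 1) / 2 = ((μ + 1 : ℕ) : ℝ) + 1 / 2 := by
      rw [hμ]
      push_cast
      ring
    rw [coeff_mk, coeff_rescale, coeff_Z, hm', show μ + 1 - 1 - j = μ - j by omega]
    have e4 : s ^ μ = s ^ j * s ^ (μ - j) := by
      rw [← pow_add]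
      congr 1
      omega
    rw [e4]
    ring
  have hk' : (2 : ℝ) ≤ k := by
    have : (4 : ℝ) ≤ k := by exact_mod_cast hk
    linarith
  have e5 := (TT_neg hk' (μ + 1) 0).2 (by omega)
  rw [e1, e2, coeff_C_mul, coeff_succ_X_mul, coeff_expand_mul, e3]
  refine mul_ne_zero (mul_ne_zero ?_ hs2) (mul_ne_zero (neg_ne_zero.2 (pow_ne_zero _ hs2)) e5.ne)
  have : (0 : ℝ) ≤ m := Nat.cast_nonneg m
  linarith

end Pool.Agent.Lib.MP_ccbbf6_gt.L6
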