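import Pool.Agent.Lib.MP_ccbbf6_gt.L5.TP01
import Pool.Agent.Lib.MP_ccbbf6_gt.L6.RGA
import Pool.Agent.Lib.MP_ccbbf6_gt.L6.X3d

/-!
# Level 6, RGB: no numbers `b` for `k = 2 h`, `h ≥ 3`, `h ≠ 4` (helper67)
-/

set_option autoImplicit false
set_option linter.unusedSectionVars false

noncomputable section

open Finset

namespace Pool.Agent.Lib.MP_ccbbf6_gt.L5.FR6

open L4 PowerSeries

/-! ### `X d/dX` -/

/-- `X d/dX` -/
def tx (f : PowerSeries ℝ) : PowerSeries ℝ := X * derivative ℝ f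

theorem coeff_tx (f : PowerSeries ℝ) (n : ℕ) : coeff n (tx f) = n * coeff n f := by
  unfold tx
  rcases n with _ | n
  · rw [coeff_zero_X_mul, Nat.cast_zero, zero_mul]
  · rw [coeff_succ_X_mul, coeff_derivative]
    push_cast
    ring

theorem tx_mul (f g : PowerSeries ℝ) : tx (f * g) = tx f * g + f * tx g := by
  unfold tx
  rw [(derivative ℝ).leibniz, smul_eq_mul, smul_eq_mul]
  ring

theorem tx_rescale (a : ℝ) (f : PowerSeries ℝ) : tx (rescale a f) = rescale a (tx f) := by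
  ext n
  rw [coeff_tx, coeff_rescale, coeff_rescale, coeff_tx]
  ring

theorem tx_sub (f g : PowerSeries ℝ) : tx (f - g) = tx f - tx g := by
  unfold tx
  rw [map_sub, mul_sub]

theorem dvd_tx {f : PowerSeries ℝ} {M : ℕ} (h : X ^ M ∣ f) : X ^ M ∣ tx f := by
  rw [X_pow_dvd_iff] at h ⊢
  intro j hj
  rw [coeff_tx, h j hj, mul_zero]

theorem coeff_of_dvd {f g : PowerSeries ℝ} {M : ℕ} (h : X ^ M ∣ f - g) {j : ℕ} (hj : j < M) : coeff j f = coeff j g := by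
  rw [X_pow_dvd_iff] at h
  have h1 := h j hj
  rw [map_sub, sub_eq_zero] at h1
  exact h1

/-- cancel a unit -/
theorem dvd_unit {f g : PowerSeries ℝ} (hg : constantCoeff g ≠ 0) {M : ℕ} (h : X ^ M ∣ f * g) : X ^ M ∣ f := by
  have h1 : g * g⁻¹ = 1 := PowerSeries.mul_inv_cancel _ hg
  have h2 : f = f * g * g⁻¹ := by rw [mul_assoc, h1, mul_one]
  rw [h2]
  exact Dvd.dvd.mul_right h _

/-- the log-derivative determines the series -/
theorem tx_uniq {Y Z G H : PowerSeries ℝ} {M : ℕ} {r : ℝ} (hr : r ≠ 0) (hY : r • tx Y = Y * G) (hZ : r • tx Z = Z * H)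
    (y0 : constantCoeff Y = 1) (z0 : constantCoeff Z = 1) (hGH : X ^ M ∣ G - H) : X ^ M ∣ Y - Z := by
  have hz : Z * Z⁻¹ = 1 := PowerSeries.mul_inv_cancel _ (by rw [z0]; exact one_ne_zero)
  obtain ⟨W, hW⟩ : ∃ W, W = Y * Z⁻¹ := ⟨_, rfl⟩
  have e1 : Y = W * Z := by rw [hW, mul_assoc, mul_comm Z⁻¹, hz, mul_one]
  have e2 : r • tx W * Z = W * (G - H) * Z := by
    have h1 : r • tx Y = r • tx W * Z + W * (r • tx Z) := by
      rw [e1, tx_mul, smul_add, smul_mul_assoc, mul_smul_comm]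
    rw [hY, hZ, e1] at h1
    linear_combination -h1
  have e3 : r • tx W = W * (G - H) := by
    have h1 := congrArg (fun z => z * Z⁻¹) e2
    simp only [mul_assoc, hz, mul_one] at h1
    exact h1
  have w0 : constantCoeff W = 1 := by
    have h1 := congrArg constantCoeff e1
    rw [map_mul, z0, mul_one, y0] at h1
    exact h1.symm
  have e4 : X ^ M ∣ W - 1 := by
    rw [X_pow_dvd_iff]
    intro j hj
    rcases Nat.eq_zero_or_pos j with rfl | h0
    · rw [map_sub, coeff_zero_eq_constantCoeff_apply, coeff_zero_eq_constantCoeff_apply, w0, map_one, sub_self]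
    · have h1 := congrArg (coeff j) e3
      have h2 : coeff j (W * (G - H)) = 0 := by
        have h3 : X ^ M ∣ W * (G - H) := Dvd.dvd.mul_left hGH _
        rw [X_pow_dvd_iff] at h3
        exact h3 j hj
      rw [h2, map_smul, coeff_tx, smul_eq_mul] at h1
      have h4 : (j : ℝ) ≠ 0 := Nat.cast_ne_zero.2 (by omega)
      have h5 : coeff j W = 0 := by
        rcases mul_eq_zero.1 h1 with h | h
        · exact absurd h hr
        · exact (mul_eq_zero.1 h).resolve_left h4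
      rw [map_sub, h5, coeff_one, if_neg (by omega), sub_zero]
  have e5 : Y - Z = (W - 1) * Z := by
    rw [e1]
    ring
  rw [e5]
  exact Dvd.dvd.mul_right e4 _

/-- the series determines the log-derivative -/
theorem tx_inv {Y Z G H : PowerSeries ℝ} {M : ℕ} {r : ℝ} (hY : r • tx Y = Y * G) (hZ : r • tx Z = Z * H)
    (y0 : constantCoeff Y = 1) (h : X ^ M ∣ Y - Z) : X ^ M ∣ G - H := by
  have e1 : Y * (G - H) = r • tx (Y - Z) - (Y - Z) * H := by
    rw [tx_sub, smul_sub, hY, hZ]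
    ring
  have e2 : X ^ M ∣ r • tx (Y - Z) := by
    rw [PowerSeries.smul_eq_C_mul]
    exact Dvd.dvd.mul_left (dvd_tx h) _
  have e3 : X ^ M ∣ (G - H) * Y := by
    rw [mul_comm, e1]
    exact dvd_sub e2 (Dvd.dvd.mul_right h _)
  exact dvd_unit (by rw [y0]; exact one_ne_zero) e3

/-- the expression of (IIIg) -/
theorem III_congr {c c' : PowerSeries ℝ} (h0 : constantCoeff c = 1) (h0' : constantCoeff c' = 1) {M : ℕ}
    (h : X ^ M ∣ c - c') (r : ℝ) : X ^ M ∣ (r • c - X * derivative ℝ c) ^ 2 * c⁻¹ - (r • c' - X * derivative ℝ c') ^ 2 * c'⁻¹ := by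
  have hc : c * c⁻¹ = 1 := PowerSeries.mul_inv_cancel _ (by rw [h0]; exact one_ne_zero)
  have hc' : c' * c'⁻¹ = 1 := PowerSeries.mul_inv_cancel _ (by rw [h0']; exact one_ne_zero)
  obtain ⟨a, ha⟩ : ∃ a, a = r • c - X * derivative ℝ c := ⟨_, rfl⟩
  obtain ⟨a', ha'⟩ : ∃ a', a' = r • c' - X * derivative ℝ c' := ⟨_, rfl⟩
  have e1 : X ^ M ∣ a - a' := by
    have h1 : a - a' = r • (c - c') - tx (c - c') := by
      rw [ha, ha', tx_sub, smul_sub]
      unfold tx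
      ring
    rw [h1, PowerSeries.smul_eq_C_mul]
    exact dvd_sub (Dvd.dvd.mul_left h _) (dvd_tx h)
  rw [← ha, ← ha']
  have e2 : a ^ 2 * c⁻¹ - a' ^ 2 * c'⁻¹ = ((a - a') * ((a + a') * c) - (c - c') * a ^ 2) * (c⁻¹ * c'⁻¹) := by
    linear_combination -(a ^ 2 * c⁻¹) * hc' + (a' ^ 2 * c'⁻¹) * hc
  rw [e2]
  exact Dvd.dvd.mul_right (dvd_sub (Dvd.dvd.mul_right e1 _) (Dvd.dvd.mul_right h _)) _

/-! ### the log-derivatives of `C0`, `P`, `V` -/

/-- signed power sums -/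
def gs (h : ℕ) (s : ℕ → ℝ) : PowerSeries ℝ := Ws h s - C (s 0)

theorem coeff_gs (h : ℕ) (s : ℕ → ℝ) {c : ℕ} (hc : c ≠ 0) : coeff c (gs h s) = (-1) ^ (h * c) * s c := by
  unfold gs Ws
  rw [map_sub, coeff_mk, coeff_C, if_neg hc, sub_zero]

theorem coeff_gs_zero (h : ℕ) (s : ℕ → ℝ) : coeff 0 (gs h s) = 0 := by
  unfold gs Ws
  rw [map_sub, coeff_mk, coeff_C, if_pos rfl, mul_zero, pow_zero, one_mul, sub_self]

theorem ode_w {h : ℕ} (hh : h ≠ 0) (w : ℕ → ℝ) : (h : ℝ) • tx (C0s h w) = C0s h w * ((-(1 / 2) : ℝ) • gs h w) := by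
  have h1 := ode_C0 hh w
  rw [mul_smul_comm]
  exact h1

theorem C0s_zero (h : ℕ) (w : ℕ → ℝ) : constantCoeff (C0s h w) = 1 := by
  rw [← coeff_zero_eq_constantCoeff_apply]
  unfold C0s
  rw [coeff_mk, mul_zero, elc_zero]

theorem ode_P {h : ℕ} (hh : h ≠ 0) {s : ℕ → ℝ} {P : PowerSeries ℝ}
    (hT : ∀ n, elc (spr h s) n = spr h (fun j => coeff j P) n) : (h : ℝ) • tx P = P * (-gs h s) := by
  have e1 : C0s h (fun c => 2 * s c) = P := by
    ext j
    unfold C0s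
    rw [coeff_mk]
    have h1 : (fun c => (fun c => 2 * s c) c / 2) = s := funext fun c => mul_div_cancel_left₀ _ two_ne_zero
    rw [h1, hT, spr_mul (Nat.pos_of_ne_zero hh)]
  have e2 : gs h (fun c => 2 * s c) = (2 : ℝ) • gs h s := by
    ext c
    rw [map_smul, smul_eq_mul]
    rcases Nat.eq_zero_or_pos c with rfl | hc
    · rw [coeff_gs_zero, coeff_gs_zero, mul_zero]
    · rw [coeff_gs _ _ (by omega), coeff_gs _ _ (by omega)]
      ring
  have h1 := ode_w hh fun c => 2 * s c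
  rw [e1, e2, smul_smul] at h1
  rw [h1]
  congr 1
  norm_num

theorem sg_mul_even {h : ℕ} {c' : ℕ} (hc : h = 2 * c') (c : ℕ) : FR6.sg (h * c) = ((-1 : ℝ) ^ c') ^ c := by
  have h1 : h * c = 2 * (c' * c) := by rw [hc]; ring
  have h2 : FR6.sg (2 * (c' * c)) = (-1) ^ (c' * c) := by
    unfold sg
    rw [if_pos (even_two_mul _)]
    congr 1
    omega
  rw [h1, h2, pow_mul]

/-- **`C0` for even `h`** -/
theorem C0_even {h m c' : ℕ} (hh : h ≠ 0) (hc : h = 2 * c') {b : ℝ} {P : PowerSeries ℝ}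
    (hP0 : constantCoeff P = 1)
    (hP : ∀ j ≤ m, coeff j (P * (1 + 2 * C b * X)) = coeff j (Aser b ^ (m + 1))) {sT sV w : ℕ → ℝ}
    (hT : ∀ n, elc (spr h sT) n = spr h (fun j => coeff j P) n)
    (hV : ∀ n, elc (spr h sV) n = spr h (fun j => coeff j (1 + 2 * C b * X)) n)
    (hw : ∀ c, c ≠ 0 → w c = sg (h * c) * (sT c - sV c)) {Ce : PowerSeries ℝ} (e0 : constantCoeff Ce = 1)
    (he : Ce ^ 2 * (1 + C (2 * ((-1) ^ c' * b)) * X) ^ 2 = (1 + C ((-1) ^ c' * b) * X + X ^ 2) ^ (m + 1)) :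
    X ^ (m + 1) ∣ C0s h w - Ce := by
  obtain ⟨ε, hε⟩ : ∃ ε : ℝ, ε = (-1) ^ c' := ⟨_, rfl⟩
  have hε2 : ε * ε = 1 := by rw [hε, ← mul_pow]; norm_num
  rw [← hε] at he
  obtain ⟨V, hV1⟩ : ∃ V : PowerSeries ℝ, V = 1 + 2 * C b * X := ⟨_, rfl⟩
  have V0 : constantCoeff V = 1 := by rw [hV1]; simp
  rw [← hV1] at hV hP
  have oP := ode_P hh hT
  have oV := ode_P hh hV
  have oC := ode_w hh w
  have hr : (h : ℝ) ≠ 0 := Nat.cast_ne_zero.2 hh
  -- the rescaled series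
  have eg : gs h w = rescale ε (gs h sT) - rescale ε (gs h sV) := by
    ext c
    rw [map_sub, coeff_rescale, coeff_rescale]
    rcases Nat.eq_zero_or_pos c with rfl | hc0
    · rw [coeff_gs_zero, coeff_gs_zero, coeff_gs_zero, mul_zero, sub_self]
    · rw [coeff_gs _ _ (by omega), coeff_gs _ _ (by omega), coeff_gs _ _ (by omega), hw c (by omega), sg_mul_even hc, ← hε]
      ring
  have rs : ∀ (r : ℝ) (f : PowerSeries ℝ), rescale ε (r • f) = r • rescale ε f := fun r f => by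
    ext n
    rw [coeff_rescale, map_smul, map_smul, coeff_rescale, smul_eq_mul, smul_eq_mul]
    ring
  have oP' : (h : ℝ) • tx (rescale ε P) = rescale ε P * (-rescale ε (gs h sT)) := by
    rw [tx_rescale, ← rs, oP, map_mul, map_neg]
  have oV' : (h : ℝ) • tx (rescale ε V) = rescale ε V * (-rescale ε (gs h sV)) := by
    rw [tx_rescale, ← rs, oV, map_mul, map_neg]
  obtain ⟨c, hc0⟩ : ∃ c, c = C0s h w := ⟨_, rfl⟩
  have c0 : constantCoeff c = 1 := by rw [hc0]; exact C0s_zero h w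
  rw [← hc0] at oC ⊢
  rw [eg] at oC
  have r0 : ∀ f : PowerSeries ℝ, constantCoeff (rescale ε f) = constantCoeff f := fun f => by
    rw [← coeff_zero_eq_constantCoeff_apply, coeff_rescale, pow_zero, one_mul, coeff_zero_eq_constantCoeff_apply]
  -- `c^2 V = P`
  have oY : (h : ℝ) • tx (c ^ 2 * rescale ε V) = (c ^ 2 * rescale ε V) * (-rescale ε (gs h sT)) := by
    have h1 : tx (c ^ 2 * rescale ε V) = 2 * (c * tx c * rescale ε V) + c ^ 2 * tx (rescale ε V) := by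
      rw [tx_mul, pow_two, tx_mul]
      ring
    have h2 : (h : ℝ) • tx (c ^ 2 * rescale ε V) = 2 * (c * ((h : ℝ) • tx c) * rescale ε V) +
        c ^ 2 * ((h : ℝ) • tx (rescale ε V)) := by
      rw [h1]
      simp only [PowerSeries.smul_eq_C_mul]
      ring
    rw [h2, oC, oV']
    have h3 : (2 : PowerSeries ℝ) * C (-(1 / 2) : ℝ) = -1 := by
      have h4 : (2 : PowerSeries ℝ) = C (2 : ℝ) := (map_ofNat C 2).symm
      rw [h4, ← map_mul, ← map_one C, ← map_neg]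
      norm_num
    simp only [PowerSeries.smul_eq_C_mul]
    linear_combination (c ^ 2 * rescale ε V * (rescale ε (gs h sT) - rescale ε (gs h sV))) * h3
  have e1 : c ^ 2 * rescale ε V = rescale ε P := by
    ext n
    refine coeff_of_dvd (M := n + 1) (tx_uniq hr oY oP' ?_ ?_ ?_) (Nat.lt_succ_self n)
    · rw [map_mul, map_pow, c0, r0, V0, one_pow, one_mul]
    · rw [r0, hP0]
    · rw [sub_self]
      exact dvd_zero _
  -- up to degree `m`
  have e2 : X ^ (m + 1) ∣ rescale ε P * rescale ε V - (1 + C (ε * b) * X + X ^ 2) ^ (m + 1) := by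
    have h1 : (1 + C (ε * b) * X + X ^ 2 : PowerSeries ℝ) ^ (m + 1) = rescale ε (Aser b ^ (m + 1)) := by
      have h2 : rescale ε (C b * X) = C b * (C ε * X) := by
        rw [map_mul (rescale ε), rescale_X, L6.rescale_C']
      have h3 : (C ε * X : PowerSeries ℝ) ^ 2 = X ^ 2 := by
        rw [mul_pow, ← map_pow, pow_two ε, hε2, map_one, one_mul]
      unfold Aser
      rw [map_pow (rescale ε), map_add (rescale ε), map_add (rescale ε), map_one (rescale ε), map_pow (rescale ε) X,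
        rescale_X, h2, h3, map_mul C]
      congr 1
      ring
    rw [h1, ← map_mul, ← map_sub, X_pow_dvd_iff]
    intro j hj
    rw [coeff_rescale, map_sub, hP j (by omega), sub_self, mul_zero]
  have e3 : rescale ε V = 1 + C (2 * (ε * b)) * X := by
    rw [hV1, map_add, map_one, map_mul, map_mul, map_ofNat, rescale_X, L6.rescale_C', map_mul, map_mul, map_ofNat]
    ring
  have e4 : X ^ (m + 1) ∣ (c - Ce) * ((c + Ce) * rescale ε V ^ 2) := by
    have h1 : (c - Ce) * ((c + Ce) * rescale ε V ^ 2) =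
        rescale ε P * rescale ε V - (1 + C (ε * b) * X + X ^ 2) ^ (m + 1) := by
      rw [← he, ← e3]
      linear_combination (rescale ε V) * e1
    rw [h1]
    exact e2
  refine dvd_unit ?_ e4
  rw [map_mul, map_add, map_pow, r0, V0, c0, e0]
  norm_num

/-! ### `b = 0` -/

theorem tx_pow (f : PowerSeries ℝ) (n : ℕ) : tx (f ^ (n + 1)) = ((n : ℝ) + 1) • (f ^ n * tx f) := by
  induction n with
  | zero =>
    rw [zero_add, pow_one, pow_zero, one_mul, Nat.cast_zero, zero_add, one_smul]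
  | succ n ih =>
    rw [pow_succ, tx_mul, ih]
    have h1 : ((n + 1 : ℕ) : ℝ) + 1 = ((n : ℝ) + 1) + 1 := by push_cast; ring
    rw [h1, add_smul ((n : ℝ) + 1), one_smul, pow_succ]
    simp only [PowerSeries.smul_eq_C_mul]
    ring

theorem tx_S (s : ℝ) : tx (1 + C s * X ^ 2) = C (2 * s) * X ^ 2 := by
  ext n
  rw [coeff_tx, coeff_C_mul, coeff_X_pow, map_add, coeff_one, coeff_C_mul, coeff_X_pow]
  rcases n with _ | n
  · simp
  · rw [if_neg (Nat.succ_ne_zero n), zero_add]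
    split_ifs with h
    · rw [h]
      push_cast
      ring
    · ring

theorem tx_Q (m : ℕ) (s : ℝ) : tx ((1 + C s * X ^ 2) ^ (m + 1)) = (1 + C s * X ^ 2) ^ (m + 1) * PowerSeries.mk (L6.Lc m s) := by
  have h1 := L6.Lc_spec m s
  rw [tx_pow, tx_S, PowerSeries.smul_eq_C_mul, pow_succ (1 + C s * X ^ 2)]
  have h2 : C ((m : ℝ) + 1) * ((1 + C s * X ^ 2) ^ m * (C (2 * s) * X ^ 2)) =
      (1 + C s * X ^ 2) ^ m * (C (2 * ((m : ℝ) + 1) * s) * X ^ 2) := by
    have h3 : (C (2 * ((m : ℝ) + 1) * s) : PowerSeries ℝ) = C ((m : ℝ) + 1) * C (2 * s) := by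
      rw [← map_mul]
      congr 1
      ring
    rw [h3]
    ring
  rw [h2, ← h1]
  ring

theorem sT_zero {h m : ℕ} (hh : h ≠ 0) {P : PowerSeries ℝ} (hP0 : constantCoeff P = 1)
    (hP : ∀ j ≤ m, coeff j (P * (1 + 2 * C (0 : ℝ) * X)) = coeff j (Aser 0 ^ (m + 1))) {sT : ℕ → ℝ}
    (hT : ∀ n, elc (spr h sT) n = spr h (fun j => coeff j P) n) {c : ℕ} (hc : c ≠ 0) (hcm : c ≤ m) :
    (-1) ^ (h * c) * sT c = -(h * L6.Lc m 1 c) := by
  have e1 : (Aser 0 : PowerSeries ℝ) = 1 + C 1 * X ^ 2 := by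
    unfold Aser
    rw [map_zero, zero_mul, add_zero, map_one, one_mul]
  have e2 : P * (1 + 2 * C (0 : ℝ) * X) = P := by rw [map_zero]; ring
  rw [e1, e2] at hP
  have h1 : X ^ (m + 1) ∣ P - (1 + C (1 : ℝ) * X ^ 2) ^ (m + 1) := by
    rw [X_pow_dvd_iff]
    intro j hj
    rw [map_sub, hP j (by omega), sub_self]
  have hZ : (h : ℝ) • tx ((1 + C (1 : ℝ) * X ^ 2) ^ (m + 1)) =
      (1 + C (1 : ℝ) * X ^ 2) ^ (m + 1) * ((h : ℝ) • PowerSeries.mk (L6.Lc m 1)) := by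
    rw [tx_Q, mul_smul_comm]
  have h2 := coeff_of_dvd (tx_inv (ode_P hh hT) hZ hP0 h1) (j := c) (by omega)
  rw [map_neg, coeff_gs _ _ hc, map_smul, coeff_mk, smul_eq_mul] at h2
  linarith

theorem sV_zero {h : ℕ} (hh : h ≠ 0) {sV : ℕ → ℝ}
    (hV : ∀ n, elc (spr h sV) n = spr h (fun j => coeff j (1 + 2 * C (0 : ℝ) * X : PowerSeries ℝ)) n) {c : ℕ} (hc : c ≠ 0) :
    sV c = 0 := by
  have e2 : (1 + 2 * C (0 : ℝ) * X : PowerSeries ℝ) = 1 := by rw [map_zero]; ring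
  rw [e2] at hV
  have h1 := congrArg (coeff c) (ode_P hh hV)
  have h2 : tx (1 : PowerSeries ℝ) = 0 := by
    ext n
    rw [coeff_tx, coeff_one, map_zero]
    split_ifs with h
    · rw [h]
      simp
    · rw [mul_zero]
  rw [h2, smul_zero, one_mul, map_neg, coeff_gs _ _ hc, map_zero] at h1
  have h3 : ((-1 : ℝ)) ^ (h * c) ≠ 0 := pow_ne_zero _ (by norm_num)
  exact (mul_eq_zero.1 (neg_eq_zero.1 h1.symm)).resolve_left h3

/-- `sg (h c) sT c`, `b = 0` -/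
theorem tau_zero {h m : ℕ} {sT : ℕ → ℝ} (hs : ∀ c, c ≠ 0 → c ≤ m → (-1) ^ (h * c) * sT c = -(h * L6.Lc m 1 c)) {c : ℕ}
    (hc : c ≠ 0) (hcm : c ≤ m) : FR6.sg (h * c) * sT c = -(h * L6.Lc m ((-1) ^ h) c) ∧
      (-1) ^ (h * c) * (FR6.sg (h * c) * sT c) = FR6.sg (h * c) * sT c := by
  have h1 := hs c hc hcm
  rcases Nat.even_or_odd' c with ⟨i, rfl | rfl⟩
  · obtain ⟨i, rfl⟩ : ∃ j, i = j + 1 := ⟨i - 1, by omega⟩
    have h2 : 2 * (i + 1) = 2 * i + 2 := by ring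
    have h3 : h * (2 * (i + 1)) = 2 * (h * (i + 1)) := by ring
    have h4 : FR6.sg (2 * (h * (i + 1))) = (-1) ^ (h * (i + 1)) := by
      unfold sg
      rw [if_pos (even_two_mul _)]
      congr 1
      omega
    have h5 : ((-1 : ℝ)) ^ (2 * (h * (i + 1))) = 1 := by rw [pow_mul]; norm_num
    rw [h3, h5, one_mul, h2, L6.Lc_even] at h1
    rw [h3, h5, one_mul, h4]
    refine ⟨?_, rfl⟩
    have h6 : L6.Lc m ((-1) ^ h) (2 * (i + 1)) = 2 * ((m : ℝ) + 1) * (-1) ^ i * ((-1) ^ h) ^ (i + 1) := by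
      rw [h2, L6.Lc_even]
    have h7 : sT (2 * (i + 1)) = -(h * (2 * ((m : ℝ) + 1) * (-1) ^ i * 1 ^ (i + 1))) := by
      rw [h2]
      exact h1
    rw [h6, h7, ← pow_mul, one_pow]
    ring
  · rw [L6.Lc_odd, mul_zero, neg_zero] at h1
    have h2 : sT (2 * i + 1) = 0 := (mul_eq_zero.1 h1).resolve_left (pow_ne_zero _ (by norm_num))
    rw [h2, L6.Lc_odd, mul_zero, mul_zero, mul_zero, neg_zero]
    exact ⟨rfl, rfl⟩

/-- the series `(1 + s X^2)^((m + 1) / 2)` -/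
theorem exists_Ce (m : ℕ) (s : ℝ) : ∃ Ce : PowerSeries ℝ, constantCoeff Ce = 1 ∧ Ce ^ 2 = (1 + C s * X ^ 2) ^ (m + 1) := by
  refine ⟨expand 2 two_ne_zero (rescale s (L6.Z (((m : ℝ) + 1) / 2))), ?_, ?_⟩
  · rw [constantCoeff_expand, ← coeff_zero_eq_constantCoeff_apply, coeff_rescale, L6.coeff_Z, L6.ch_zero]
    norm_num
  · rw [← map_pow, ← map_pow, L6.Z_sq (M := m + 1) (h := by push_cast; ring), map_pow, map_pow, map_add, map_add,
      map_one, map_one, rescale_X, map_mul, L6.expand_C', expand_X]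

/-- its log-derivative -/
theorem tx_Ce {m : ℕ} {s : ℝ} {Ce : PowerSeries ℝ} (e0 : constantCoeff Ce = 1) (he : Ce ^ 2 = (1 + C s * X ^ 2) ^ (m + 1)) :
    tx Ce = Ce * ((1 / 2 : ℝ) • PowerSeries.mk (L6.Lc m s)) := by
  have h1 := tx_Q m s
  rw [← he, tx_pow Ce 1 |> fun h => (by simpa using h : tx (Ce ^ 2) = _)] at h1
  have hne : Ce ≠ 0 := fun h => by
    rw [h, map_zero] at e0
    exact zero_ne_one e0
  have h2 : Ce * (tx Ce) = Ce * (Ce * ((1 / 2 : ℝ) • PowerSeries.mk (L6.Lc m s))) := by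
    have h3 : (1 / 2 : ℝ) • ((1 + 1 : ℝ) • (Ce * tx Ce)) = (1 / 2 : ℝ) • (Ce ^ 2 * PowerSeries.mk (L6.Lc m s)) := by rw [h1]
    rw [smul_smul] at h3
    norm_num at h3
    rw [h3]
    simp only [PowerSeries.smul_eq_C_mul]
    ring
  exact mul_left_cancel₀ hne h2

/-- **`C0` for `b = 0`** -/
theorem C0_zero {h m : ℕ} (hh : h ≠ 0) {w : ℕ → ℝ} {s : ℝ}
    (hw : ∀ c, c ≠ 0 → c ≤ m → (-1) ^ (h * c) * w c = -(h * L6.Lc m s c)) {Ce : PowerSeries ℝ}
    (e0 : constantCoeff Ce = 1) (he : Ce ^ 2 = (1 + C s * X ^ 2) ^ (m + 1)) : X ^ (m + 1) ∣ C0s h w - Ce := by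
  have hr : (h : ℝ) ≠ 0 := Nat.cast_ne_zero.2 hh
  refine tx_uniq hr (ode_w hh w) (H := (h : ℝ) • ((1 / 2 : ℝ) • PowerSeries.mk (L6.Lc m s))) ?_ (C0s_zero h w) e0 ?_
  · rw [tx_Ce e0 he, mul_smul_comm, mul_smul_comm, mul_smul_comm]
  · rw [X_pow_dvd_iff]
    intro j hj
    rw [map_sub, map_smul, map_smul, map_smul, coeff_mk, smul_eq_mul, smul_eq_mul, smul_eq_mul]
    rcases Nat.eq_zero_or_pos j with rfl | hj0
    · rw [coeff_gs_zero, L6.Lc_zero]
      ring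
    · rw [coeff_gs _ _ (by omega), hw j (by omega) (by omega)]
      ring

/-! ### the conclusion -/

/-- (IIg) for `b = 0`, `m` even -/
theorem II_zero {h m : ℕ} (hh : 2 ≤ h) (hm : Even m) (hm2 : 2 ≤ m) {s : ℝ} (hs : s = 1 ∨ s = -1) {w τ : ℕ → ℝ}
    (hw : ∀ c, c ≠ 0 → c ≤ m → (-1) ^ (h * c) * w c = -(h * L6.Lc m s c))
    (hτ : ∀ c, c ≠ 0 → c ≤ m → (-1) ^ (h * c) * τ c = -(h * L6.Lc m s c))
    (II : ∑ c ∈ range m, (-1) ^ (h * (c + 1)) * τ (c + 1) / (h * (c + 1) - 1) *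
      elc (spr h fun c => w c / 2) (h * (m - 1 - c)) = 0) : False := by
  obtain ⟨Ce, e0, he⟩ := exists_Ce m s
  have hd := C0_zero (by omega) hw e0 he
  have h1 := L6.IIg_even (k := 2 * h) hm hm2 (by omega) hs e0 he
  apply h1
  have h2 : coeff (m - 1) (Ce * L6.C1 (2 * h) m s) = ∑ c ∈ range m, coeff c (L6.C1 (2 * h) m s) * coeff (m - 1 - c) Ce := by
    rw [mul_comm, PowerSeries.coeff_mul, Finset.Nat.sum_antidiagonal_eq_sum_range_succ
      (fun i j => coeff i (L6.C1 (2 * h) m s) * coeff j Ce)]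
    have h3 : (m - 1).succ = m := by omega
    rw [h3]
  have h4 : (2 * (h : ℝ)) * coeff (m - 1) (Ce * L6.C1 (2 * h) m s) = 0 := by
    rw [h2, Finset.mul_sum, ← II]
    refine Finset.sum_congr rfl fun c hc => ?_
    have hc' := Finset.mem_range.1 hc
    have h5 : coeff (m - 1 - c) Ce = elc (spr h fun c => w c / 2) (h * (m - 1 - c)) := by
      rw [← coeff_of_dvd hd (by omega)]
      unfold C0s
      rw [coeff_mk]
    have h6 : coeff c (L6.C1 (2 * h) m s) = -(1 / 2) * L6.Lc m s (c + 1) / (((2 * h : ℕ) : ℝ) * (c + 1) / 2 - 1) := by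
      unfold L6.C1
      rw [coeff_mk]
    have h7 : ((2 * h : ℕ) : ℝ) * (c + 1) / 2 - 1 = h * (c + 1) - 1 := by
      push_cast
      ring
    rw [h5, h6, h7, hτ (c + 1) (Nat.succ_ne_zero c) (by omega)]
    ring
  have h5 : (2 * (h : ℝ)) ≠ 0 := by
    have : (h : ℝ) ≠ 0 := Nat.cast_ne_zero.2 (by omega)
    exact mul_ne_zero two_ne_zero this
  exact (mul_eq_zero.1 h4).resolve_left h5

/-- **`h ≥ 5`, or `h = 3`** (`b = 0` if `h` is odd). `sT`, `sV` : power sums of `T` and `V` (degree `h c`), `w = T - V`, `τ = T` -/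
theorem no_b {h m : ℕ} (hh3 : 3 ≤ h) (hm : 2 ≤ m) {b : ℝ} (hb : Odd h → b = 0) {P : PowerSeries ℝ}
    (hP0 : PowerSeries.constantCoeff P = 1)
    (hP : ∀ j ≤ m, PowerSeries.coeff j (P * (1 + 2 * PowerSeries.C b * PowerSeries.X)) =
      PowerSeries.coeff j (Aser b ^ (m + 1))) {sT sV w τ : ℕ → ℝ}
    (hT : ∀ n, elc (spr h sT) n = spr h (fun j => PowerSeries.coeff j P) n)
    (hV : ∀ n, elc (spr h sV) n = spr h (fun j => PowerSeries.coeff j (1 + 2 * PowerSeries.C b * PowerSeries.X)) n)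
    (hw : ∀ c, c ≠ 0 → w c = sg (h * c) * (sT c - sV c)) (hτ : ∀ c, c ≠ 0 → τ c = sg (h * c) * sT c)
    (II : ∑ c ∈ range m, (-1) ^ (h * (c + 1)) * τ (c + 1) / (h * (c + 1) - 1) *
      elc (spr h fun c => w c / 2) (h * (m - 1 - c)) = 0)
    (III : PowerSeries.coeff (m - 1) ((((m : ℝ) - 1) • C0s h w - PowerSeries.X * PowerSeries.derivative ℝ (C0s h w)) ^ 2 *
      (C0s h w)⁻¹) = 0) : False := by
  have hh : h ≠ 0 := by omega
  -- `b = 0`
  have key : b = 0 → (∀ c, c ≠ 0 → c ≤ m → (-1) ^ (h * c) * w c = -(h * L6.Lc m ((-1) ^ h) c)) ∧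
      ∀ c, c ≠ 0 → c ≤ m → (-1) ^ (h * c) * τ c = -(h * L6.Lc m ((-1) ^ h) c) := by
    rintro rfl
    have h1 : ∀ c, c ≠ 0 → c ≤ m → (-1) ^ (h * c) * sT c = -(h * L6.Lc m 1 c) := fun c hc hcm => sT_zero hh hP0 hP hT hc hcm
    refine ⟨fun c hc hcm => ?_, fun c hc hcm => ?_⟩
    · obtain ⟨h2, h3⟩ := tau_zero h1 hc hcm
      rw [hw c hc, sV_zero hh hV hc, sub_zero, h3, h2]
    · obtain ⟨h2, h3⟩ := tau_zero h1 hc hcm
      rw [hτ c hc, h3, h2]
  have hs : ((-1 : ℝ)) ^ h = 1 ∨ ((-1 : ℝ)) ^ h = -1 := neg_one_pow_eq_or ℝ h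
  have III' : ∀ {Ce : PowerSeries ℝ}, constantCoeff Ce = 1 → X ^ (m + 1) ∣ C0s h w - Ce →
      coeff (m - 1) ((((m : ℝ) - 1) • Ce - X * derivative ℝ Ce) ^ 2 * Ce⁻¹) = 0 := fun {Ce} e0 hd => by
    rw [← coeff_of_dvd (III_congr (C0s_zero h w) e0 hd _) (by omega)]
    exact III
  rcases Nat.even_or_odd h with he | ho
  · obtain ⟨c', hc'⟩ := he
    have hc : h = 2 * c' := by omega
    obtain ⟨b', hb'⟩ : ∃ b' : ℝ, b' = (-1) ^ c' * b := ⟨_, rfl⟩
    obtain ⟨Ce, e0, he⟩ : ∃ Ce : PowerSeries ℝ, constantCoeff Ce = 1 ∧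
        Ce ^ 2 * (1 + C (2 * b') * X) ^ 2 = (1 + C b' * X + X ^ 2) ^ (m + 1) := by
      have hV' : (1 + C (2 * b') * X) * (1 + C (2 * b') * X)⁻¹ = (1 : PowerSeries ℝ) :=
        PowerSeries.mul_inv_cancel _ (by simp)
      refine ⟨L6.E (((m : ℝ) + 1) / 2) b' * (1 + C (2 * b') * X)⁻¹, ?_, ?_⟩
      · rw [map_mul, L6.E_zero, one_mul, PowerSeries.constantCoeff_inv]
        simp
      · have h1 := L6.E_sq (((m : ℝ) + 1) / 2) b' (m + 1) (by push_cast; ring)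
        rw [← h1]
        linear_combination (L6.E (((m : ℝ) + 1) / 2) b' ^ 2 *
          ((1 + C (2 * b') * X) * (1 + C (2 * b') * X)⁻¹ + 1)) * hV'
    have hd : X ^ (m + 1) ∣ C0s h w - Ce := C0_even hh hc hP0 hP hT hV hw e0 (by rw [← hb']; exact he)
    have h3 := III' e0 hd
    rcases Nat.even_or_odd m with hme | hmo
    · have hb0 := L6.IIIg_pos_even hme hm b' e0 he h3
      have hb1 : b = 0 := by
        rw [hb'] at hb0
        exact (mul_eq_zero.1 hb0).resolve_left (pow_ne_zero _ (by norm_num))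
      obtain ⟨k1, k2⟩ := key hb1
      exact II_zero (by omega) hme hm hs k1 k2 II
    · refine L6.IIIg_pos_odd hmo ?_ b' e0 he h3
      obtain ⟨k, hk⟩ := hmo
      omega
  · obtain ⟨k1, k2⟩ := key (hb ho)
    have hs1 : ((-1 : ℝ)) ^ h = -1 := ho.neg_one_pow
    rw [hs1] at k1 k2
    rcases Nat.even_or_odd m with hme | hmo
    · exact II_zero (by omega) hme hm (Or.inr rfl) k1 k2 II
    · obtain ⟨Ce, e0, he⟩ := exists_Ce m (-1)
      have h3 := III' e0 (C0_zero hh k1 e0 he)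
      refine L6.IIIg_neg_odd hmo ?_ e0 ?_ h3
      · obtain ⟨k, hk⟩ := hmo
        omega
      · rw [he, map_neg, map_one, neg_one_mul, sub_eq_add_neg]

end Pool.Agent.Lib.MP_ccbbf6_gt.L5.FR6
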