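import Pool.Agent.Lib.MP_ccbbf6_gt.L5.RG10
import Pool.Agent.Lib.MP_ccbbf6_gt.L6.RGB

/-!
# Level 6, RG11: no Blaschke manifold with `κ = 2 n + 1`, `n ≥ 2`, `n ≠ 3`, `m ≥ 2` (helper67)
-/

set_option autoImplicit false
set_option maxSynthPendingDepth 3
set_option maxHeartbeats 400000
set_option linter.unusedSectionVars false

open Set Filter Topology Matrix
open scoped ContDiff

noncomputable section

namespace Pool.Agent.Lib.MP_ccbbf6_gt.L5.RG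

open Geo L4 L4.FR L4.ORI WK FR6

/-- the numbers `w` -/
def wseq (h m : ℕ) (sT sV : ℕ → ℝ) (c : ℕ) : ℝ :=
  if c = 0 then 2 * h * ((m : ℝ) - 1) else FR6.sg (h * c) * (sT c - sV c)

theorem wseq_ne {h m : ℕ} {sT sV : ℕ → ℝ} {c : ℕ} (hc : c ≠ 0) : wseq h m sT sV c = FR6.sg (h * c) * (sT c - sV c) :=
  if_neg hc

theorem spr_wseq {h m : ℕ} (hh : 0 < h) {sT sV : ℕ → ℝ} {j : ℕ} (hj : j ≠ 0) :
    spr h (wseq h m sT sV) j = spr h (fun c => FR6.sg (h * c) * (sT c - sV c)) j := by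
  unfold spr
  split_ifs with hd
  · refine wseq_ne ?_
    obtain ⟨c, rfl⟩ := hd
    rw [Nat.mul_div_cancel_left c hh]
    rintro rfl
    exact hj (mul_zero _)
  · rfl

theorem elc_wseq {h m : ℕ} (hh : 0 < h) (sT sV : ℕ → ℝ) (i : ℕ) :
    elc (spr h fun c => wseq h m sT sV c / 2) i = elc (spr h fun c => FR6.sg (h * c) * (sT c - sV c) / 2) i := by
  refine elc_congr (fun k => ?_) i
  unfold spr
  split_ifs with hd
  · show wseq h m sT sV ((k + 1) / h) / 2 = _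
    rw [wseq_ne]
    obtain ⟨c, hc⟩ := hd
    rw [hc, Nat.mul_div_cancel_left c hh]
    rintro rfl
    rw [mul_zero] at hc
    exact absurd hc (Nat.succ_ne_zero k)
  · rfl

theorem al_B0 {A : Type*} [CommRing A] [Algebra ℝ A] {X u d : A} {r r' : ℝ} {k : ℕ} (h : X = algebraMap ℝ A r')
    (hr : r = r') : X = r • u ^ (0 / k) + d * 0 := by
  rw [h, Nat.zero_div, pow_zero, mul_zero, add_zero, Algebra.smul_def, mul_one, hr]

variable {N n m : ℕ} {M : Type} [MetricSpace M] [CompactSpace M] {𝒜 : SDist (N + 1) M} {hB : Bl M}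
  (D : GeoD 𝒜 hB (2 * n + 1) m) (t : TEmb 𝒜) [MeasurableSpace M] [BorelSpace M]

include t in
/-- **(IIIg)** for a Blaschke manifold -/
theorem geo_III (hn : 2 ≤ n) (hm : 1 ≤ m) {p : M} {ψ : Om (spR (N + 1))} {Bf : Fm (N + 1)}
    (hcc : ConcD 𝒜 hB (2 * n + 1) m p ψ Bf D.u) {b : ℝ} (hn' : 4 ≤ n ∨ Even n ∨ b = 0) {P : PowerSeries ℝ}
    (c2 : PTd (n + 1) (TE.PM_idem t (Nat.succ_pos N)) = evS D.coh.ku P)
    (c3 : PTd (n + 1) (TE.PV_idem t hB D.hk D.hL) = Asr b D.coh.k1 D.coh.k2)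
    {sT sV : ℕ → ℝ} (hT : ∀ i, elc (spr (n + 1) sT) i = spr (n + 1) (fun j => PowerSeries.coeff j P) i)
    (hV : ∀ i, elc (spr (n + 1) sV) i =
      spr (n + 1) (fun j => PowerSeries.coeff j (1 + 2 * PowerSeries.C b * PowerSeries.X)) i) :
    PowerSeries.coeff (m - 1) ((((m : ℝ) - 1) • C0s (n + 1) (wseq (n + 1) m sT sV) -
      PowerSeries.X * PowerSeries.derivative ℝ (C0s (n + 1) (wseq (n + 1) m sT sV))) ^ 2 *
        (C0s (n + 1) (wseq (n + 1) m sT sV))⁻¹) = 0 := by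
  obtain ⟨e, ρ, hρ, hρ', R1, R2, X2⟩ := exists_rel D t (by omega) hcc c3 (perV D t)
  obtain ⟨K, hK⟩ : ∃ K : KG (wd t hB D.hk) (n + 1) m b P (q1 D) (q2 D), K = KGi D t c2 c3 (perV D t) := ⟨_, rfl⟩
  have hs : ((-1 : ℝ) ^ (n + 1)) ≠ 0 := pow_ne_zero _ (by norm_num)
  refine IIIg (l := (rotF t hB).ec) (e := e) (u1 := q1 D) (u2 := q2 D) (s := (-1) ^ (n + 1)) (t := (-1) ^ n) (ρ := ρ)
    (B := K.Bs) (D := Dsq (n + 1) sT ((-1) ^ (n + 1)) e (q1 D) (q2 D)) hm (by omega) ?_ hs (pow_ne_zero _ (by norm_num))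
    (rel_hm D t (by omega)) (rel_pow D t (by omega)) R1 R2 X2 (if_pos rfl) (fun j hj => ?_)
    (fun j _ => Dsq_e _ _ _ _ _ _ j) (K.hF (rotF t hB) (Nat.succ_pos n) hT hs R1 (by omega) ?_)
  · rcases hn' with h | h | h
    · exact Or.inl (by omega)
    · exact Or.inr (hρ h)
    · right
      rcases Nat.even_or_odd n with h1 | ⟨k, h1⟩
      · exact hρ h1
      · rw [hρ' k h1, h, mul_zero]
  · rcases Nat.eq_zero_or_pos j with rfl | hj0
    · refine ⟨0, al_B0 K.Bs_zero ?_⟩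
      unfold spr
      rw [if_pos (dvd_zero _), Nat.zero_div]
      exact if_pos rfl
    · rw [spr_wseq (Nat.succ_pos n) (by omega)]
      exact K.hB (Nat.succ_pos n) hT hV hj0 hj
  · obtain ⟨m', rfl⟩ : ∃ m', m = m' + 1 := ⟨m - 1, by omega⟩
    rw [Nat.add_sub_cancel, mul_add, mul_one]
    omega

include t in
/-- the impossible cases -/
theorem no_geo' {K : ℕ} (D : GeoD 𝒜 hB (2 * n + 1) (K + 2)) (hn : 2 ≤ n) {p : M}
    {ψ : Om (spR (N + 1))} {Bf : Fm (N + 1)} (hcc : ConcD 𝒜 hB (2 * n + 1) (K + 2) p ψ Bf D.u) {b : ℝ}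
    (hn' : 4 ≤ n ∨ Even n ∨ b = 0) {P : PowerSeries ℝ} (c1 : PowerSeries.constantCoeff P = 1)
    (c2 : PTd (n + 1) (TE.PM_idem t (Nat.succ_pos N)) = evS D.coh.ku P)
    (c3 : PTd (n + 1) (TE.PV_idem t hB D.hk D.hL) = Asr b D.coh.k1 D.coh.k2) (hodd : Odd (n + 1) → b = 0)
    (c5 : ∀ j ≤ K + 2, PowerSeries.coeff j (P * (1 + 2 * PowerSeries.C b * PowerSeries.X)) =
      PowerSeries.coeff j (Aser b ^ (K + 2 + 1))) : False := by
  obtain ⟨sT, hT⟩ := exists_sg c1 (n + 1)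
  obtain ⟨sV, hV⟩ := exists_sg (P := 1 + 2 * PowerSeries.C b * PowerSeries.X) (by simp) (n + 1)
  have h2 := geo_II D t hn (by omega) hcc c2 c3 hT hV
  refine no_b (h := n + 1) (m := K + 2) (by omega) (by omega) hodd c1 c5 hT hV
    (w := wseq (n + 1) (K + 2) sT sV) (τ := fun c => FR6.sg ((n + 1) * c) * sT c) (fun c hc => wseq_ne hc) (fun c _ => rfl)
    ?_ (geo_III D t hn (by omega) hcc hn' c2 c3 hT hV)
  rw [← h2]
  refine Finset.sum_congr rfl fun c _ => ?_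
  rw [elc_wseq (Nat.succ_pos n)]

/-- **no Blaschke manifold with `κ = 2 n + 1 ≥ 5`, `κ ≠ 7`, `m ≥ 2`** -/
theorem no_geo {K : ℕ} (D : GeoD 𝒜 hB (2 * n + 1) (K + 2)) (hn : 2 ≤ n) (hn3 : n ≠ 3) {p : M}
    {ψ : Om (spR (N + 1))} {Bf : Fm (N + 1)} (hcc : ConcD 𝒜 hB (2 * n + 1) (K + 2) p ψ Bf D.u) : False := by
  have : Nonempty M := ⟨p⟩
  obtain ⟨t⟩ := exists_TEmb 𝒜
  obtain ⟨b, P, c1, c2, c3, -, hodd, c5⟩ := D.three_point_all t
  refine no_geo' t D hn hcc ?_ c1 c2 c3 hodd c5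
  rcases Nat.even_or_odd n with h | h
  · exact Or.inr (Or.inl h)
  · left
    obtain ⟨k, hk⟩ := h
    omega

end Pool.Agent.Lib.MP_ccbbf6_gt.L5.RG
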