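import Pool.Agent.Lib.MP_ccbbf6_gt.L5.GED
import Pool.Agent.Lib.MP_ccbbf6_gt.L5.UOR15
import Pool.Agent.Lib.MP_ccbbf6_gt.L6.RG11

/-!
# Level 6, RG12: `κ` odd, `5 ≤ κ < n - 1` implies `κ = 7` (helper67)
-/

set_option autoImplicit false
set_option maxSynthPendingDepth 3
set_option maxHeartbeats 400000
set_option linter.unusedSectionVars false

open Set Filter Topology Matrix
open scoped ContDiff

noncomputable section

namespace Pool.Agent.Lib.MP_ccbbf6_gt.L6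

open Geo L4 L4.FR L4.ORI L5 L5.RG

variable {M : Type} [MetricSpace M] [CompactSpace M]

/-- the data with concentration -/
theorem exists_GeoC {N l : ℕ} {𝒜 : SDist (N + 1) M} (hB : Bl M) (hl : 1 ≤ l) (hk : 𝒜.HK (2 * l + 1))
    (hlt : 2 * l + 2 < N + 1) (p : M) : ∃ m, 2 ≤ m ∧ N + 1 = (2 * l + 1 + 1) * m ∧
      ∃ (D : GeoD 𝒜 hB (2 * l + 1) m) (ψ : Om (spR (N + 1))) (Bf : Fm (N + 1)),
        ConcD 𝒜 hB (2 * l + 1) m p ψ Bf D.u ∧ (∃ g, UD 𝒜 hB (2 * l + 1) D.u g) ∧ ∃ k : ℤ, |(k : ℝ) * D.coh.eps| = 1 := by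
  obtain ⟨o, ho, g, hh, hU⟩ := exists_UDG (𝒜 := 𝒜) (l := l) (by omega) hB hk p
  obtain ⟨m, hm, hdim, hD⟩ := exists_GeoD (𝒜 := 𝒜) (hB := hB) (κ := 2 * l + 1) hk ⟨l, rfl⟩ (by omega) hU p
  have h2 : 2 ≤ m := by
    by_contra h
    obtain rfl : m = 1 := by omega
    omega
  obtain ⟨D, hu, k, hk1⟩ := hD h2
  refine ⟨m, h2, hdim, D, psPG hB hk ho, BBp (psPG hB hk ho), ?_, ⟨g, ?_⟩, k, hk1⟩
  · rw [hu]
    exact concD_uM hB hdim hm ⟨l, rfl⟩ (angDG hB hk ho) hh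
  · rw [hu]
    exact hU

/-- **`κ` odd, `5 ≤ κ < n - 1` implies `κ = 7`** -/
theorem odd_seven [MeasurableSpace M] [BorelSpace M] {n l : ℕ} {𝒜 : SDist n M} (hB : Bl M) (hl : 2 ≤ l)
    (hk : 𝒜.HK (2 * l + 1)) (hlt : 2 * l + 2 < n) (p : M) : l = 3 := by
  obtain ⟨N, rfl⟩ : ∃ N, n = N + 1 := ⟨n - 1, by omega⟩
  by_contra h3
  obtain ⟨m, h2, -, D, ψ, Bf, hc, -, -⟩ := exists_GeoC hB (by omega) hk hlt p
  obtain ⟨K, rfl⟩ : ∃ K, m = K + 2 := ⟨m - 2, by omega⟩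
  exact no_geo D hl h3 hc

end Pool.Agent.Lib.MP_ccbbf6_gt.L6
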