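import Pool.Agent.Lib.MP_ccbbf6_gt.L6.X62

/-!
# Level 6, X62c: the convolution of the majorants (helper18)
-/

set_option autoImplicit false
set_option linter.unusedSectionVars false

noncomputable section

open Finset

namespace Pool.Agent.Lib.MP_ccbbf6_gt.L5.FR6

private theorem X62c_fac (i : ℕ) : ∀ b : ℕ, i + 2 ≤ b →
    (25 / 24 : ℝ) ^ i * (((2 * i + 3).factorial : ℝ) * ((2 * b - 1).factorial : ℝ)) ≤ 6 * ((2 * i + 2 * b - 1).factorial : ℝ) := by
  induction i with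
  | zero =>
    intro b _
    have h1 : 2 * 0 + 2 * b - 1 = 2 * b - 1 := by omega
    rw [h1]
    norm_num [Nat.factorial]
  | succ i ih =>
    intro b hb
    obtain ⟨c, rfl⟩ : ∃ c, b = c + 1 := ⟨b - 1, by omega⟩
    have h1 := ih (c + 1) (by omega)
    have e1 : 2 * (i + 1) + 3 = 2 * i + 3 + 1 + 1 := by ring
    have e2 : 2 * i + 2 * (c + 1) - 1 = 2 * i + 2 * c + 1 := by omega
    have e3 : 2 * (i + 1) + 2 * (c + 1) - 1 = 2 * i + 2 * c + 1 + 1 + 1 := by omega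
    rw [e2] at h1
    rw [e1, e3, Nat.factorial_succ, Nat.factorial_succ, Nat.factorial_succ (2 * i + 2 * c + 1 + 1),
      Nat.factorial_succ (2 * i + 2 * c + 1)]
    have h0 : (0 : ℝ) ≤ ((2 * i + 2 * c + 1).factorial : ℝ) := Nat.cast_nonneg _
    have hc : (i : ℝ) + 2 ≤ (c : ℝ) := by exact_mod_cast (by omega : i + 2 ≤ c)
    have hi : (0 : ℝ) ≤ (i : ℝ) := Nat.cast_nonneg _
    have h2 : (25 / 24 : ℝ) * ((2 * (i : ℝ) + 3 + 1 + 1) * (2 * (i : ℝ) + 3 + 1)) ≤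
        (2 * (i : ℝ) + 2 * (c : ℝ) + 1 + 1 + 1) * (2 * (i : ℝ) + 2 * (c : ℝ) + 1 + 1) := by
      have h3 : (4 * (i : ℝ) + 7) * (4 * (i : ℝ) + 6) ≤
          (2 * (i : ℝ) + 2 * (c : ℝ) + 1 + 1 + 1) * (2 * (i : ℝ) + 2 * (c : ℝ) + 1 + 1) :=
        mul_le_mul (by linarith) (by linarith) (by linarith) (by linarith)
      have h4 : (25 / 24 : ℝ) * ((2 * (i : ℝ) + 3 + 1 + 1) * (2 * (i : ℝ) + 3 + 1)) ≤ (4 * (i : ℝ) + 7) * (4 * (i : ℝ) + 6) := by
        nlinarith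
      exact h4.trans h3
    push_cast
    obtain ⟨A, hA⟩ : ∃ A : ℝ, A = (25 / 24 : ℝ) ^ i * (((2 * i + 3).factorial : ℝ) * ((2 * (c + 1) - 1).factorial : ℝ)) := ⟨_, rfl⟩
    rw [← hA] at h1
    have h5 : (25 / 24 : ℝ) * ((2 * (i : ℝ) + 3 + 1 + 1) * (2 * (i : ℝ) + 3 + 1)) * A ≤
        (2 * (i : ℝ) + 2 * (c : ℝ) + 1 + 1 + 1) * (2 * (i : ℝ) + 2 * (c : ℝ) + 1 + 1) * (6 * ((2 * i + 2 * c + 1).factorial : ℝ)) :=
      mul_le_mul h2 h1 (by rw [hA]; positivity) (by positivity)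
    calc _ = (25 / 24 : ℝ) * ((2 * (i : ℝ) + 3 + 1 + 1) * (2 * (i : ℝ) + 3 + 1)) * A := by
          rw [hA, pow_succ]
          ring
      _ ≤ _ := h5
      _ = _ := by ring

private theorem X62c_up {s : ℕ → ℝ} (hs : IsSec s) (i : ℕ) : s (i + 1) ≤ 1 / 2 * (5 / 12) ^ i := by
  induction i with
  | zero =>
    have r0 := hs.2 0
    simp only [Finset.sum_range_succ, Finset.sum_range_zero] at r0
    norm_num [Nat.factorial] at r0
    rw [hs.1] at r0
    rw [pow_zero, zero_add]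
    linarith
  | succ i ih =>
    have h1 := hs.up (j := i + 1) (by omega)
    rw [pow_succ]
    linarith

private theorem X62c_lo {s : ℕ → ℝ} (hs : IsSec s) (b d : ℕ) : s b ≤ (5 / 2) ^ d * s (b + d) := by
  induction d with
  | zero => simp
  | succ d ih =>
    have h1 := hs.lo (b + d)
    have h2 : (0 : ℝ) < (5 / 2) ^ d := by positivity
    have h3 := mul_le_mul_of_nonneg_left h1 h2.le
    have h4 : b + (d + 1) = b + d + 1 := rfl
    rw [pow_succ, h4]
    linarith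

private theorem X62c_term {s : ℕ → ℝ} (hs : IsSec s) {i b : ℕ} (hb : i + 2 ≤ b) :
    Yj s (i + 2) * Yj s b ≤ 25 / 8 * ((2 * i + 2 * b - 1).factorial : ℝ) * s (b + (i + 1)) / 4 ^ (i + 2 + b) := by
  have h1 := X62c_up hs (i + 1)
  have h2 := X62c_lo hs b (i + 1)
  have h3 := X62c_fac i b hb
  have p1 := hs.pos (i + 1 + 1)
  have p2 := hs.pos b
  have p3 := hs.pos (b + (i + 1))
  have h4 : s (i + 1 + 1) * s b ≤ (1 / 2 * (5 / 12) ^ (i + 1)) * ((5 / 2) ^ (i + 1) * s (b + (i + 1))) :=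
    mul_le_mul h1 h2 p2.le (by positivity)
  have h5 : (1 / 2 * (5 / 12) ^ (i + 1)) * ((5 / 2) ^ (i + 1) * s (b + (i + 1))) =
      25 / 48 * s (b + (i + 1)) * (25 / 24 : ℝ) ^ i := by
    have e1 : (25 / 24 : ℝ) ^ i = (5 / 12) ^ i * (5 / 2) ^ i := by rw [← mul_pow]; norm_num
    rw [e1, pow_succ, pow_succ]
    ring
  rw [h5] at h4
  have h6 : (0 : ℝ) ≤ ((2 * i + 3).factorial : ℝ) * ((2 * b - 1).factorial : ℝ) := by positivity
  have h7 := mul_le_mul_of_nonneg_left h4 h6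
  have h0' : (0 : ℝ) ≤ 25 / 48 * s (b + (i + 1)) := by positivity
  have h8 := mul_le_mul_of_nonneg_left h3 h0'
  unfold Yj
  have e2 : 2 * (i + 2) - 1 = 2 * i + 3 := by omega
  have e3 : i + 2 = i + 1 + 1 := rfl
  rw [e2, pow_add (4 : ℝ) (i + 2) b, div_mul_div_comm]
  have h9 : (0 : ℝ) ≤ 4 ^ (i + 2) * 4 ^ b := by positivity
  refine div_le_div_of_nonneg_right ?_ h9
  have e4 : ((2 * i + 3).factorial : ℝ) * s (i + 2) * (((2 * b - 1).factorial : ℝ) * s b) =
      ((2 * i + 3).factorial : ℝ) * ((2 * b - 1).factorial : ℝ) * (s (i + 1 + 1) * s b) := by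
    rw [e3]
    ring
  rw [e4]
  refine h7.trans (le_trans (le_of_eq ?_) (h8.trans (le_of_eq ?_)))
  · ring
  · ring

theorem IsSec.conv {s : ℕ → ℝ} (hs : IsSec s) {p : ℕ} (hp : 2 ≤ p) :
    ∑ a ∈ range (p - 1), Yj s (a + 1) * Yj s (p - 1 - a) ≤ 37 / 128 * Yj s (p - 1) := by
  have hY : ∀ j, 0 ≤ Yj s j := fun j => by
    have := hs.pos j
    unfold Yj
    positivity
  have hY1 : Yj s 1 = 1 / 8 := by
    have r0 := hs.2 0
    simp only [Finset.sum_range_succ, Finset.sum_range_zero] at r0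
    norm_num [Nat.factorial] at r0
    rw [hs.1] at r0
    have e1 : s 1 = 1 / 2 := by linarith
    unfold Yj
    rw [e1]
    norm_num [Nat.factorial]
  obtain ⟨q, rfl⟩ : ∃ q, p = q + 2 := ⟨p - 2, by omega⟩
  have e0 : q + 2 - 1 = q + 1 := rfl
  rw [e0]
  rcases q with _ | k
  · rw [Finset.sum_range_one, zero_add, Nat.sub_zero, hY1]
    norm_num
  · rw [Finset.sum_range_succ', Finset.sum_range_succ]
    have e1 : k + 1 + 1 - (k + 1) = 1 := by omega
    have e2 : k + 1 + 1 - 0 = k + 1 + 1 := rfl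
    rw [e1, e2, zero_add, hY1]
    have hin : ∀ a ∈ range k, Yj s (a + 1 + 1) * Yj s (k + 1 + 1 - (a + 1)) ≤
        25 / 8 * ((2 * k + 1).factorial : ℝ) * s (k + 2) / 4 ^ (k + 3) := by
      intro a ha
      have ha' := Finset.mem_range.1 ha
      obtain ⟨b, hb⟩ : ∃ b, k + 1 + 1 - (a + 1) = b ∧ a + b = k + 1 := ⟨k + 1 + 1 - (a + 1), rfl, by omega⟩
      rw [hb.1]
      rcases le_total (a + 2) b with h | h
      · have h1 := X62c_term hs h
        have f1 : 2 * a + 2 * b - 1 = 2 * k + 1 := by omega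
        have f2 : b + (a + 1) = k + 2 := by omega
        have f3 : a + 2 + b = k + 3 := by omega
        rw [f1, f2, f3] at h1
        exact h1
      · obtain ⟨c, rfl⟩ : ∃ c, b = c + 2 := ⟨b - 2, by omega⟩
        have h1 := X62c_term hs (i := c) (b := a + 2) h
        have f1 : 2 * c + 2 * (a + 2) - 1 = 2 * k + 1 := by omega
        have f2 : a + 2 + (c + 1) = k + 2 := by omega
        have f3 : c + 2 + (a + 2) = k + 3 := by omega
        rw [f1, f2, f3, mul_comm] at h1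
        exact h1
    have hsum := Finset.sum_le_sum hin
    rw [Finset.sum_const, Finset.card_range, nsmul_eq_mul] at hsum
    have hYk : Yj s (k + 1 + 1) = ((2 * k + 3 : ℝ) * (2 * k + 2)) * (((2 * k + 1).factorial : ℝ) * s (k + 2) / 4 ^ (k + 2)) := by
      unfold Yj
      have f1 : 2 * (k + 1 + 1) - 1 = 2 * k + 1 + 1 + 1 := by omega
      rw [f1, Nat.factorial_succ, Nat.factorial_succ]
      push_cast
      ring
    obtain ⟨Z, hZ⟩ : ∃ Z : ℝ, Z = ((2 * k + 1).factorial : ℝ) * s (k + 2) / 4 ^ (k + 2) := ⟨_, rfl⟩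
    have hZ0 : 0 ≤ Z := by
      have := hs.pos (k + 2)
      rw [hZ]
      positivity
    have hR : 25 / 8 * ((2 * k + 1).factorial : ℝ) * s (k + 2) / 4 ^ (k + 3) = 25 / 32 * Z := by
      rw [hZ, pow_succ (4 : ℝ) (k + 2)]
      ring
    rw [hR] at hsum
    rw [← hZ] at hYk
    have hk : (k : ℝ) * (25 / 32 * Z) ≤ 5 / 128 * Yj s (k + 1 + 1) := by
      rw [hYk]
      have h1 : (k : ℝ) * (25 / 32) ≤ 5 / 128 * ((2 * k + 3 : ℝ) * (2 * k + 2)) := by
        have h2 : (0 : ℝ) ≤ ((k : ℝ) - 1) * (4 * (k : ℝ) - 6) := by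
          rcases k with _ | _ | k
          · norm_num
          · norm_num
          · push_cast
            have : (0 : ℝ) ≤ k := Nat.cast_nonneg k
            nlinarith
        nlinarith
      nlinarith
    linarith

end Pool.Agent.Lib.MP_ccbbf6_gt.L5.FR6
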