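import Pool.Agent.Lib.MP_ccbbf6_gt.L5.RG0
import Pool.Agent.Lib.MP_ccbbf6_gt.L5.TP01

/-!
# Level 6, X63: the numbers `w` for `k = 8` (helper80)
-/

set_option autoImplicit false
set_option linter.unusedSectionVars false
set_option linter.unusedVariables false

noncomputable section

open Finset

namespace Pool.Agent.Lib.MP_ccbbf6_gt.L5.RG

open FR6 L4

/-- Newton: a power series from its power sums, in steps of `4` -/
private theorem X63_newton {s : ℕ → ℝ} {P W : PowerSeries ℝ}
    (hP : ∀ i, elc (spr 4 s) i = spr 4 (fun j => PowerSeries.coeff j P) i) (h0 : PowerSeries.coeff 0 W = 0)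
    (hW : ∀ i, PowerSeries.coeff (i + 1) W = s (i + 1)) :
    4 * (PowerSeries.X * PowerSeries.derivative ℝ P) = -(P * W) := by
  have hE : ∀ n, elc (spr 4 s) (4 * n) = PowerSeries.coeff n P := fun n => by rw [hP, spr_mul (by norm_num)]
  ext n
  have h4 : (4 : PowerSeries ℝ) = PowerSeries.C 4 := by rw [map_ofNat]
  rcases n with _ | n
  · rw [h4, PowerSeries.coeff_C_mul, PowerSeries.coeff_zero_X_mul, mul_zero, map_neg, PowerSeries.coeff_mul,
      Finset.Nat.antidiagonal_zero, Finset.sum_singleton, h0, mul_zero, neg_zero]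
  · rw [h4, PowerSeries.coeff_C_mul, PowerSeries.coeff_succ_X_mul, PowerSeries.coeff_derivative, map_neg, PowerSeries.coeff_mul,
      Finset.Nat.sum_antidiagonal_eq_sum_range_succ (fun a b => PowerSeries.coeff a P * PowerSeries.coeff b W) (n + 1),
      Finset.sum_range_succ, Nat.sub_self, h0, mul_zero, add_zero]
    have h1 : elc (spr 4 s) (4 * (n + 1)) = ((4 * n + 3 : ℕ) + 1 : ℝ)⁻¹ •
        ∑ k ∈ range (4 * n + 3 + 1), (-1) ^ k * (elc (spr 4 s) (4 * n + 3 - k) * spr 4 s (k + 1)) := by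
      have e1 : 4 * (n + 1) = 4 * n + 3 + 1 := by ring
      rw [e1, elc_succ]
    have h2 : ∑ k ∈ range (4 * n + 3 + 1), (-1) ^ k * (elc (spr 4 s) (4 * n + 3 - k) * spr 4 s (k + 1)) =
        -∑ a ∈ range (n + 1), PowerSeries.coeff (n - a) P * s (a + 1) := by
      rw [← Finset.sum_neg_distrib]
      symm
      refine Finset.sum_of_injOn (fun a => 4 * a + 3) ?_ ?_ ?_ ?_
      · intro a _ b _ h
        have h : 4 * a + 3 = 4 * b + 3 := h
        omega
      · intro a ha
        have ha' := Finset.mem_range.1 (Finset.mem_coe.1 ha)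
        simp only [Finset.coe_range, Set.mem_Iio]
        omega
      · intro k hk hk'
        have hk0 := Finset.mem_range.1 hk
        have h3 : ¬ 4 ∣ k + 1 := by
          rintro ⟨c, hc⟩
          refine hk' ⟨c - 1, ?_, ?_⟩
          · simp only [Finset.coe_range, Set.mem_Iio]
            omega
          · show 4 * (c - 1) + 3 = k
            omega
        rw [spr_not _ h3, mul_zero, mul_zero]
      · intro a ha
        have ha' := Finset.mem_range.1 ha
        have e2 : 4 * a + 3 + 1 = 4 * (a + 1) := by ring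
        have e3 : 4 * n + 3 - (4 * a + 3) = 4 * (n - a) := by omega
        have e4 : (-1 : ℝ) ^ (4 * a + 3) = -1 := by
          rw [pow_add, pow_mul]
          norm_num
        rw [e2, e3, e4, hE, spr_mul (by norm_num)]
        ring
    rw [hE, h2] at h1
    have h3 : ∑ a ∈ range (n + 1), PowerSeries.coeff (n - a) P * s (a + 1) =
        ∑ a ∈ range (n + 1), PowerSeries.coeff a P * PowerSeries.coeff (n + 1 - a) W := by
      rw [← Finset.sum_range_reflect]
      refine Finset.sum_congr rfl fun a ha => ?_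
      have ha' := Finset.mem_range.1 ha
      have e5 : n - (n + 1 - 1 - a) = a := by omega
      have e6 : n + 1 - 1 - a + 1 = n - a + 1 := by omega
      have e7 : n + 1 - a = n - a + 1 := by omega
      rw [e5, e6, e7, hW]
    rw [h3] at h1
    rw [h1, smul_eq_mul]
    have h5 : ((n : ℝ) + 1) ≠ 0 := by positivity
    push_cast
    have h6 : (4 * (n : ℝ) + 3 + 1) = 4 * (n + 1) := by ring
    rw [h6]
    field_simp

/-- the bounds for the recursion -/
private theorem X63_rec {b : ℝ} (hb : 1 ≤ |b|) {t : ℕ → ℝ} (h1 : t 1 = 1 / 2) (h2 : t 2 = 1 / 4 - 1 / (2 * b ^ 2))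
    (h : ∀ i, 1 ≤ i → t (i + 2) = 1 / 2 * t (i + 1) - 1 / (4 * b ^ 2) * t i) : ∀ i, 2 ≤ i → |t i| ≤ 1 / 4 := by
  have hb2 : 1 ≤ b ^ 2 := by rw [← sq_abs]; nlinarith
  obtain ⟨c, hc⟩ : ∃ c, c = 1 / (4 * b ^ 2) := ⟨_, rfl⟩
  have hc0 : 0 ≤ c := by rw [hc]; positivity
  have hc1 : c ≤ 1 / 4 := by
    rw [hc, div_le_div_iff₀ (by positivity) (by norm_num)]
    linarith
  have h2' : t 2 = 1 / 4 - 2 * c := by
    rw [h2, hc]
    have : b ^ 2 ≠ 0 := by positivity
    field_simp
    ring
  have h3 : t 3 = 1 / 2 * t 2 - c * t 1 := by rw [hc]; exact h 1 le_rfl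
  have key : ∀ i, 2 ≤ i → |t i| ≤ 1 / 4 ∧ |t (i + 1)| ≤ 1 / 4 := by
    intro i hi
    induction i, hi using Nat.le_induction with
    | base =>
      rw [show (2 : ℕ) + 1 = 3 from rfl, h3, h2', h1, abs_le, abs_le]
      refine ⟨⟨by linarith, by linarith⟩, ⟨by linarith, by linarith⟩⟩
    | succ i hi ih =>
      refine ⟨ih.2, ?_⟩
      have h4 := h i (by omega)
      rw [← hc] at h4
      rw [show i + 1 + 1 = i + 2 from rfl, h4]
      obtain ⟨a1, a2⟩ := abs_le.1 ih.1
      obtain ⟨b1, b2⟩ := abs_le.1 ih.2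
      have h5 : |c * t i| ≤ 1 / 16 := by
        rw [abs_mul, abs_of_nonneg hc0]
        calc c * |t i| ≤ 1 / 4 * (1 / 4) := mul_le_mul hc1 ih.1 (abs_nonneg _) (by norm_num)
          _ = 1 / 16 := by norm_num
      obtain ⟨c1, c2⟩ := abs_le.1 h5
      rw [abs_le]
      constructor <;> linarith
  exact fun i hi => (key i hi).1

/-- `(sT i - sV i) c₀^i = 4 ((m+1) t_i - 2)`, `c₀ = - 1 / (2 b)` -/
theorem w_bounds {m : ℕ} (hm : 3 ≤ m) {b : ℝ} (hb : 1 ≤ |b|) {P : PowerSeries ℝ}
    (c1 : PowerSeries.constantCoeff P = 1)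
    (c5 : ∀ j ≤ m, PowerSeries.coeff j (P * (1 + 2 * PowerSeries.C b * PowerSeries.X)) =
      PowerSeries.coeff j (Aser b ^ (m + 1)))
    {sT sV : ℕ → ℝ} (hT : ∀ i, elc (spr 4 sT) i = spr 4 (fun j => PowerSeries.coeff j P) i)
    (hV : ∀ i, elc (spr 4 sV) i =
      spr 4 (fun j => PowerSeries.coeff j (1 + 2 * PowerSeries.C b * PowerSeries.X)) i) :
    (sT 1 - sV 1) * (-(1 / (2 * b))) ^ 1 = 2 * (m : ℝ) - 6 ∧
      ∀ i, 2 ≤ i → i ≤ m → |(sT i - sV i) * (-(1 / (2 * b))) ^ i| ≤ (m : ℝ) + 9 := by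
  have hb0 : b ≠ 0 := by
    rintro rfl
    rw [abs_zero] at hb
    linarith
  -- the power sums
  let WS : (ℕ → ℝ) → PowerSeries ℝ := fun s => PowerSeries.mk fun i => if i = 0 then 0 else s i
  have hW0 : ∀ s, PowerSeries.coeff 0 (WS s) = 0 := fun s => by
    show PowerSeries.coeff 0 (PowerSeries.mk _) = _
    rw [PowerSeries.coeff_mk, if_pos rfl]
  have hWs : ∀ s i, PowerSeries.coeff (i + 1) (WS s) = s (i + 1) := fun s i => by
    show PowerSeries.coeff (i + 1) (PowerSeries.mk _) = _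
    rw [PowerSeries.coeff_mk, if_neg (Nat.succ_ne_zero i)]
  obtain ⟨B, hB⟩ : ∃ B : PowerSeries ℝ, B = 1 + 2 * PowerSeries.C b * PowerSeries.X := ⟨_, rfl⟩
  rw [← hB] at hV c5
  have nT := X63_newton hT (hW0 sT) (hWs sT)
  have nV := X63_newton hV (hW0 sV) (hWs sV)
  have dB : PowerSeries.derivative ℝ B = 2 * PowerSeries.C b := by
    rw [hB, map_add, PowerSeries.derivative_one, zero_add, mul_assoc, Derivation.leibniz, Derivation.leibniz, PowerSeries.derivative_C,
      PowerSeries.derivative_X, ← map_ofNat (PowerSeries.C (R := ℝ)) 2, PowerSeries.derivative_C]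
    simp
  have dA : PowerSeries.derivative ℝ (Aser b) = PowerSeries.C b + 2 * PowerSeries.X := by
    unfold Aser
    rw [map_add, map_add, PowerSeries.derivative_one, zero_add, Derivation.leibniz, PowerSeries.derivative_C,
      PowerSeries.derivative_X, PowerSeries.derivative_pow, PowerSeries.derivative_X]
    simp
  -- the power sums of `A`
  obtain ⟨WA, hWA⟩ : ∃ WA : PowerSeries ℝ, Aser b * WA = -(4 * (PowerSeries.X * PowerSeries.derivative ℝ (Aser b))) :=
    ⟨-(4 * (PowerSeries.X * PowerSeries.derivative ℝ (Aser b))) * Ainv b, by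
      rw [mul_comm, mul_assoc, mul_comm (Ainv b), A_mul_inv, mul_one]⟩
  -- the congruence
  have hcong : ∀ i ≤ m, PowerSeries.coeff i (WS sT) + PowerSeries.coeff i (WS sV) = ((m : ℝ) + 1) * PowerSeries.coeff i WA := by
    obtain ⟨D, hD⟩ : (PowerSeries.X : PowerSeries ℝ) ^ (m + 1) ∣ P * B - Aser b ^ (m + 1) := by
      rw [PowerSeries.X_pow_dvd_iff]
      intro j hj
      rw [map_sub, c5 j (by omega), sub_self]
    have hQ : P * B = Aser b ^ (m + 1) + PowerSeries.X ^ (m + 1) * D := by rw [← hD]; ring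
    have h1 : (PowerSeries.X : PowerSeries ℝ) ^ (m + 1) ∣
        Aser b ^ (m + 1) * (((m : PowerSeries ℝ) + 1) * WA - (WS sT + WS sV)) := by
      have e1 : 4 * (PowerSeries.X * PowerSeries.derivative ℝ (P * B)) = -(P * B * (WS sT + WS sV)) := by
        rw [Derivation.leibniz, smul_eq_mul, smul_eq_mul]
        linear_combination B * nT + P * nV
      have e2 : PowerSeries.derivative ℝ (P * B) = ((m : PowerSeries ℝ) + 1) * Aser b ^ m * PowerSeries.derivative ℝ (Aser b) +
          (((m : PowerSeries ℝ) + 1) * PowerSeries.X ^ m * D + PowerSeries.X ^ (m + 1) * PowerSeries.derivative ℝ D) := by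
        rw [hQ, map_add, Derivation.leibniz, PowerSeries.derivative_pow, PowerSeries.derivative_pow, PowerSeries.derivative_X,
          smul_eq_mul, smul_eq_mul]
        push_cast
        ring
      refine ⟨4 * (((m : PowerSeries ℝ) + 1) * D + PowerSeries.X * PowerSeries.derivative ℝ D) + D * (WS sT + WS sV), ?_⟩
      rw [e2, hQ] at e1
      linear_combination ((m : PowerSeries ℝ) + 1) * Aser b ^ m * hWA - e1
    have h2 : (PowerSeries.X : PowerSeries ℝ) ^ (m + 1) ∣ ((m : PowerSeries ℝ) + 1) * WA - (WS sT + WS sV) := by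
      have h3 := h1.mul_left (Ainv b ^ (m + 1))
      rwa [← mul_assoc, ← mul_pow, mul_comm (Ainv b), A_mul_inv, one_pow, one_mul] at h3
    intro i hi
    have h4 := (PowerSeries.X_pow_dvd_iff.1 h2) i (by omega)
    have e5 : ((m : PowerSeries ℝ) + 1) * WA = PowerSeries.C ((m : ℝ) + 1) * WA := by
      rw [map_add, map_one, map_natCast]
    rw [map_sub, e5, PowerSeries.coeff_C_mul, map_add (PowerSeries.coeff i) (WS sT)] at h4
    linarith
  -- the recursions
  obtain ⟨c, hc⟩ : ∃ c : ℝ, c = -(1 / (2 * b)) := ⟨_, rfl⟩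
  rw [← hc]
  have hbc : b * c = -(1 / 2) := by rw [hc]; field_simp
  have hcc : c ^ 2 = 1 / (4 * b ^ 2) := by rw [hc]; field_simp; norm_num
  have hVr : B * WS sV = -(4 * (PowerSeries.X * (2 * PowerSeries.C b))) := by rw [← dB, nV, neg_neg]
  have eV : WS sV + PowerSeries.C (2 * b) * (PowerSeries.X * WS sV) = -(PowerSeries.C (8 * b) * PowerSeries.X) := by
    have e7 : PowerSeries.C (2 * b) = (2 : PowerSeries ℝ) * PowerSeries.C b := by rw [map_mul, map_ofNat]
    have e8 : PowerSeries.C (8 * b) = (8 : PowerSeries ℝ) * PowerSeries.C b := by rw [map_mul, map_ofNat]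
    rw [e7, e8]
    rw [hB] at hVr
    linear_combination hVr
  have v1 : sV 1 = -(8 * b) := by
    have h1 := congrArg (PowerSeries.coeff 1) eV
    rw [map_add, PowerSeries.coeff_C_mul, PowerSeries.coeff_succ_X_mul 0, hW0, map_neg, PowerSeries.coeff_C_mul,
      PowerSeries.coeff_one_X] at h1
    have h2 := hWs sV 0
    rw [zero_add] at h2
    rw [h2] at h1
    linarith
  have v2 : ∀ n, sV (n + 2) = -(2 * b) * sV (n + 1) := by
    intro n
    have h1 := congrArg (PowerSeries.coeff (n + 1 + 1)) eV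
    rw [map_add, PowerSeries.coeff_C_mul, PowerSeries.coeff_succ_X_mul, map_neg, PowerSeries.coeff_C_mul,
      PowerSeries.coeff_X, if_neg (by omega), hWs, hWs] at h1
    have h2 : sV (n + 2) = sV (n + 1 + 1) := rfl
    rw [h2]
    linarith
  have eA : WA + PowerSeries.C b * (PowerSeries.X * WA) + PowerSeries.X * (PowerSeries.X * WA) =
      -(PowerSeries.C (4 * b) * PowerSeries.X) - PowerSeries.C 8 * (PowerSeries.X * PowerSeries.X) := by
    have e8 : PowerSeries.C (4 * b) = (4 : PowerSeries ℝ) * PowerSeries.C b := by rw [map_mul, map_ofNat]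
    have e9 : PowerSeries.C (8 : ℝ) = (8 : PowerSeries ℝ) := by rw [map_ofNat]
    rw [e8, e9]
    rw [dA] at hWA
    unfold Aser at hWA
    linear_combination hWA
  have a0 : PowerSeries.coeff 0 WA = 0 := by
    have h1 := congrArg (PowerSeries.coeff 0) eA
    rw [map_add, map_add, PowerSeries.coeff_C_mul, PowerSeries.coeff_zero_X_mul, PowerSeries.coeff_zero_X_mul, map_sub, map_neg,
      PowerSeries.coeff_C_mul, PowerSeries.coeff_C_mul, PowerSeries.coeff_zero_X_mul, PowerSeries.coeff_zero_X] at h1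
    linarith
  have a1 : PowerSeries.coeff 1 WA = -(4 * b) := by
    have h1 := congrArg (PowerSeries.coeff 1) eA
    rw [map_add, map_add, PowerSeries.coeff_C_mul, PowerSeries.coeff_succ_X_mul 0, PowerSeries.coeff_succ_X_mul 0,
      PowerSeries.coeff_zero_X_mul, map_sub, map_neg,
      PowerSeries.coeff_C_mul, PowerSeries.coeff_C_mul, PowerSeries.coeff_succ_X_mul 0, PowerSeries.coeff_zero_X,
      PowerSeries.coeff_one_X, a0] at h1
    linarith
  have a2 : PowerSeries.coeff 2 WA = 4 * b ^ 2 - 8 := by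
    have h1 := congrArg (PowerSeries.coeff 2) eA
    rw [map_add, map_add, PowerSeries.coeff_C_mul, PowerSeries.coeff_succ_X_mul 1, PowerSeries.coeff_succ_X_mul 1,
      PowerSeries.coeff_succ_X_mul 0, map_sub, map_neg,
      PowerSeries.coeff_C_mul, PowerSeries.coeff_C_mul, PowerSeries.coeff_succ_X_mul 1, PowerSeries.coeff_X, if_neg (by norm_num),
      PowerSeries.coeff_one_X, a0, a1] at h1
    linarith
  have a3 : ∀ n, PowerSeries.coeff (n + 3) WA = -(b * PowerSeries.coeff (n + 2) WA) - PowerSeries.coeff (n + 1) WA := by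
    intro n
    have h1 := congrArg (PowerSeries.coeff (n + 2 + 1)) eA
    rw [map_add, map_add, PowerSeries.coeff_C_mul, PowerSeries.coeff_succ_X_mul, PowerSeries.coeff_succ_X_mul (n + 2),
      PowerSeries.coeff_succ_X_mul (n + 1), map_sub, map_neg,
      PowerSeries.coeff_C_mul, PowerSeries.coeff_C_mul, PowerSeries.coeff_succ_X_mul, PowerSeries.coeff_X, if_neg (by omega),
      PowerSeries.coeff_X, if_neg (by omega)] at h1
    have h2 : PowerSeries.coeff (n + 3) WA = PowerSeries.coeff (n + 2 + 1) WA := rfl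
    rw [h2]
    linarith
  have hv : ∀ n, sV (n + 1) * c ^ (n + 1) = 4 := by
    intro n
    induction n with
    | zero => rw [zero_add, v1, pow_one]; linear_combination (-8) * hbc
    | succ n ih =>
      rw [v2 n]
      have e6 : -(2 * b) * sV (n + 1) * c ^ (n + 1 + 1) = (-2 * (b * c)) * (sV (n + 1) * c ^ (n + 1)) := by ring
      rw [e6, hbc, ih]
      norm_num
  have hw : ∀ i, 1 ≤ i → i ≤ m → (sT i - sV i) * c ^ i = 4 * (((m : ℝ) + 1) * (PowerSeries.coeff i WA * c ^ i / 4) - 2) := by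
    intro i h1 hi
    obtain ⟨i, rfl⟩ : ∃ j, i = j + 1 := ⟨i - 1, by omega⟩
    have h2 := hcong (i + 1) hi
    rw [hWs, hWs] at h2
    have h3 := hv i
    linear_combination c ^ (i + 1) * h2 - 2 * h3
  have hc0 : b ≠ 0 := hb0
  have ht := X63_rec hb (t := fun i => PowerSeries.coeff i WA * c ^ i / 4)
    (by
      show PowerSeries.coeff 1 WA * c ^ 1 / 4 = 1 / 2
      rw [a1, pow_one]
      linear_combination (-1) * hbc)
    (by
      show PowerSeries.coeff 2 WA * c ^ 2 / 4 = 1 / 4 - 1 / (2 * b ^ 2)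
      rw [a2, hcc]
      field_simp
      ring)
    (fun i hi => by
      obtain ⟨i, rfl⟩ : ∃ j, i = j + 1 := ⟨i - 1, by omega⟩
      show PowerSeries.coeff (i + 3) WA * c ^ (i + 3) / 4 = 1 / 2 * (PowerSeries.coeff (i + 2) WA * c ^ (i + 2) / 4) -
        1 / (4 * b ^ 2) * (PowerSeries.coeff (i + 1) WA * c ^ (i + 1) / 4)
      rw [a3, ← hcc]
      linear_combination (-(PowerSeries.coeff (i + 2) WA * c ^ (i + 2) / 4)) * hbc)
  constructor
  · rw [hw 1 le_rfl (by omega), a1, pow_one]
    linear_combination (-4 * ((m : ℝ) + 1)) * hbc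
  · intro i hi him
    rw [hw i (by omega) him]
    have h1 := abs_le.1 (ht i hi)
    have h2 : (0 : ℝ) ≤ (m : ℝ) := Nat.cast_nonneg m
    obtain ⟨T, hT'⟩ : ∃ T, T = PowerSeries.coeff i WA * c ^ i / 4 := ⟨_, rfl⟩
    have h3 : -(1 / 4) ≤ T ∧ T ≤ 1 / 4 := by rw [hT']; exact h1
    rw [← hT', abs_le]
    constructor <;> nlinarith

end Pool.Agent.Lib.MP_ccbbf6_gt.L5.RG
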