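import Pool.Agent.Lib.MP_ccbbf6_gt.ML

/-!
# Level 6, X64: the last term dominates (helper38)

`e = exp (- ∑ L_j y^j / j)`, `|L_j / j| ≤ U Y_j`; `|coeff n (ℒ^k)| ≤ U^k (37/128)^(k-1) Y_(n-k+1)` by `hc`, so
`|e_N + L_N / N| ≤ ∑_(k=2)^N (1/k!) U^k (37/128)^(k-1) Y_(N-k+1) ≤ 0.6 U Y_N`.
-/

set_option autoImplicit false
set_option linter.unusedSectionVars false

noncomputable section

open Finset

namespace Pool.Agent.Lib.MP_ccbbf6_gt.L5.FR6

/-- the coefficients of a product, with `range` -/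
private theorem X64_mul (f g : PowerSeries ℝ) (k : ℕ) :
    PowerSeries.coeff k (f * g) = ∑ i ∈ range (k + 1), PowerSeries.coeff i f * PowerSeries.coeff (k - i) g := by
  rw [PowerSeries.coeff_mul, Finset.Nat.sum_antidiagonal_eq_sum_range_succ
    (fun i j => PowerSeries.coeff i f * PowerSeries.coeff j g)]

/-- Euler's identity for powers -/
private theorem X64_euler (Y : ℕ → ℝ) (k n : ℕ) :
    ((n : ℝ) + 1) * PowerSeries.coeff (n + 1) ((PowerSeries.X * PowerSeries.mk fun i => Y (i + 1)) ^ (k + 1)) =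
      ((k : ℝ) + 1) * ∑ j ∈ range (n + 1), ((j : ℝ) + 1) * Y (j + 1) *
        PowerSeries.coeff (n - j) ((PowerSeries.X * PowerSeries.mk fun i => Y (i + 1)) ^ k) := by
  obtain ⟨F, hF⟩ : ∃ F, F = PowerSeries.X * PowerSeries.mk fun i => Y (i + 1) := ⟨_, rfl⟩
  have hFc : ∀ j, PowerSeries.coeff (j + 1) F = Y (j + 1) := fun j => by
    rw [hF, PowerSeries.coeff_succ_X_mul, PowerSeries.coeff_mk]
  rw [← hF]
  have h1 : PowerSeries.coeff n (PowerSeries.derivative ℝ (F ^ (k + 1))) =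
      PowerSeries.coeff (n + 1) (F ^ (k + 1)) * ((n : ℝ) + 1) := PowerSeries.coeff_derivative _ _
  have h2 : PowerSeries.derivative ℝ (F ^ (k + 1)) =
      PowerSeries.C ((k : ℝ) + 1) * (PowerSeries.derivative ℝ F * F ^ k) := by
    rw [PowerSeries.derivative_pow, Nat.add_sub_cancel, map_add, map_one, map_natCast]
    push_cast
    ring
  rw [mul_comm, ← h1, h2, PowerSeries.coeff_C_mul, X64_mul]
  congr 1
  refine Finset.sum_congr rfl fun j _ => ?_
  rw [PowerSeries.coeff_derivative, hFc]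
  ring

/-- convolution powers -/
private theorem X64_conv {Y : ℕ → ℝ} (hY : ∀ j, 1 ≤ j → 0 < Y j)
    (hc : ∀ p, 2 ≤ p → ∑ a ∈ range (p - 1), Y (a + 1) * Y (p - 1 - a) ≤ 37 / 128 * Y (p - 1)) (k : ℕ) :
    ∀ m, PowerSeries.coeff m ((PowerSeries.mk fun i => Y (i + 1)) ^ (k + 1)) ≤ (37 / 128) ^ k * Y (m + 1) := by
  induction k with
  | zero =>
    intro m
    rw [zero_add, pow_one, pow_zero, one_mul, PowerSeries.coeff_mk]
  | succ k ih =>
    intro m
    rw [pow_succ', X64_mul]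
    have h1 : ∑ i ∈ range (m + 1), PowerSeries.coeff i (PowerSeries.mk fun i => Y (i + 1)) *
        PowerSeries.coeff (m - i) ((PowerSeries.mk fun i => Y (i + 1)) ^ (k + 1)) ≤
        ∑ i ∈ range (m + 1), (37 / 128) ^ k * (Y (i + 1) * Y (m + 1 - i)) := by
      refine Finset.sum_le_sum fun i hi => ?_
      have hi' := Finset.mem_range.1 hi
      have h2 := ih (m - i)
      have h3 : m - i + 1 = m + 1 - i := by omega
      rw [h3] at h2
      rw [PowerSeries.coeff_mk]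
      have h4 := hY (i + 1) (by omega)
      calc Y (i + 1) * _ ≤ Y (i + 1) * ((37 / 128) ^ k * Y (m + 1 - i)) := mul_le_mul_of_nonneg_left h2 h4.le
        _ = _ := by ring
    have h5 : ∑ a ∈ range (m + 1), Y (a + 1) * Y (m + 1 - a) ≤ 37 / 128 * Y (m + 1) := hc (m + 2) (by omega)
    rw [← Finset.mul_sum] at h1
    refine h1.trans ?_
    have h6 : (0 : ℝ) < (37 / 128) ^ k := by positivity
    calc (37 / 128) ^ k * ∑ a ∈ range (m + 1), Y (a + 1) * Y (m + 1 - a) ≤ (37 / 128) ^ k * (37 / 128 * Y (m + 1)) :=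
          mul_le_mul_of_nonneg_left h5 h6.le
      _ = _ := by rw [pow_succ]; ring

/-- the majorant -/
private def X64_S (N : ℕ) (U : ℝ) (Y : ℕ → ℝ) (n : ℕ) : ℝ :=
  ∑ k ∈ range (N + 1), U ^ k / (k.factorial : ℝ) *
    PowerSeries.coeff n ((PowerSeries.X * PowerSeries.mk fun i => Y (i + 1)) ^ k)

private theorem X64_van {Y : ℕ → ℝ} {k n : ℕ} (h : n < k) :
    PowerSeries.coeff n ((PowerSeries.X * PowerSeries.mk fun i => Y (i + 1)) ^ k) = 0 := by
  rw [mul_pow, PowerSeries.coeff_X_pow_mul', if_neg (by omega)]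

private theorem X64_S_zero (N : ℕ) (U : ℝ) (Y : ℕ → ℝ) : X64_S N U Y 0 = 1 := by
  unfold X64_S
  rw [Finset.sum_range_succ', Finset.sum_eq_zero, zero_add, pow_zero, pow_zero, Nat.factorial_zero]
  · simp
  · intro k _
    rw [X64_van (by omega), mul_zero]

private theorem X64_S_succ {N n : ℕ} (hn : n + 1 ≤ N) (U : ℝ) (Y : ℕ → ℝ) :
    ((n : ℝ) + 1) * X64_S N U Y (n + 1) = ∑ j ∈ range (n + 1), ((j : ℝ) + 1) * (U * Y (j + 1)) * X64_S N U Y (n - j) := by
  have h1 : ((n : ℝ) + 1) * X64_S N U Y (n + 1) = ∑ k ∈ range N, U ^ (k + 1) / (k.factorial : ℝ) *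
      ∑ j ∈ range (n + 1), ((j : ℝ) + 1) * Y (j + 1) *
        PowerSeries.coeff (n - j) ((PowerSeries.X * PowerSeries.mk fun i => Y (i + 1)) ^ k) := by
    unfold X64_S
    rw [Finset.sum_range_succ', pow_zero, pow_zero, PowerSeries.coeff_one, if_neg (Nat.succ_ne_zero n), mul_zero, add_zero,
      Finset.mul_sum]
    refine Finset.sum_congr rfl fun k _ => ?_
    have h2 := X64_euler Y k n
    have h3 : (((k + 1).factorial : ℕ) : ℝ) = ((k : ℝ) + 1) * (k.factorial : ℝ) := by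
      rw [Nat.factorial_succ]
      push_cast
      ring
    have h4 : ((k.factorial : ℕ) : ℝ) ≠ 0 := Nat.cast_ne_zero.2 (Nat.factorial_ne_zero k)
    have h5 : (k : ℝ) + 1 ≠ 0 := by positivity
    calc ((n : ℝ) + 1) * (U ^ (k + 1) / ((k + 1).factorial : ℝ) * PowerSeries.coeff (n + 1)
          ((PowerSeries.X * PowerSeries.mk fun i => Y (i + 1)) ^ (k + 1))) =
          U ^ (k + 1) / ((k + 1).factorial : ℝ) * (((n : ℝ) + 1) * PowerSeries.coeff (n + 1)
          ((PowerSeries.X * PowerSeries.mk fun i => Y (i + 1)) ^ (k + 1))) := by ring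
      _ = _ := by
        rw [h2, h3]
        field_simp
  have h6 : ∀ j ∈ range (n + 1), X64_S N U Y (n - j) = ∑ k ∈ range N, U ^ k / (k.factorial : ℝ) *
      PowerSeries.coeff (n - j) ((PowerSeries.X * PowerSeries.mk fun i => Y (i + 1)) ^ k) := fun j hj => by
    unfold X64_S
    rw [Finset.sum_range_succ, X64_van (by omega), mul_zero, add_zero]
  have h7 : ∑ j ∈ range (n + 1), ((j : ℝ) + 1) * (U * Y (j + 1)) * X64_S N U Y (n - j) =
      ∑ j ∈ range (n + 1), ∑ k ∈ range N, ((j : ℝ) + 1) * (U * Y (j + 1)) * (U ^ k / (k.factorial : ℝ) *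
        PowerSeries.coeff (n - j) ((PowerSeries.X * PowerSeries.mk fun i => Y (i + 1)) ^ k)) :=
    Finset.sum_congr rfl fun j hj => by rw [h6 j hj, Finset.mul_sum]
  rw [h1, h7, Finset.sum_comm]
  refine Finset.sum_congr rfl fun k _ => ?_
  rw [Finset.mul_sum]
  refine Finset.sum_congr rfl fun j _ => ?_
  rw [pow_succ]
  ring

/-- the terms -/
private def X64_t (N : ℕ) (U : ℝ) (Y : ℕ → ℝ) (i : ℕ) : ℝ :=
  U ^ (i + 1) * (37 / 128) ^ i / ((i + 1).factorial : ℝ) * Y (N - i)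

private theorem X64_S_le {N : ℕ} {U : ℝ} (hU0 : 0 < U) {Y : ℕ → ℝ} (hN : 1 ≤ N) (hY : ∀ j, 1 ≤ j → 0 < Y j)
    (hc : ∀ p, 2 ≤ p → ∑ a ∈ range (p - 1), Y (a + 1) * Y (p - 1 - a) ≤ 37 / 128 * Y (p - 1)) :
    X64_S N U Y N ≤ ∑ i ∈ range N, X64_t N U Y i := by
  unfold X64_S
  rw [Finset.sum_range_succ', pow_zero, pow_zero, PowerSeries.coeff_one, if_neg (by omega), mul_zero, add_zero]
  refine Finset.sum_le_sum fun k hk => ?_
  have hk' := Finset.mem_range.1 hk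
  rw [mul_pow, PowerSeries.coeff_X_pow_mul', if_pos (by omega)]
  have h1 := X64_conv hY hc k (N - (k + 1))
  have h2 : N - (k + 1) + 1 = N - k := by omega
  rw [h2] at h1
  have h3 : 0 < U ^ (k + 1) / ((k + 1).factorial : ℝ) := by positivity
  unfold X64_t
  calc U ^ (k + 1) / ((k + 1).factorial : ℝ) * _ ≤ U ^ (k + 1) / ((k + 1).factorial : ℝ) *
        ((37 / 128) ^ k * Y (N - k)) := mul_le_mul_of_nonneg_left h1 h3.le
    _ = _ := by ring

private theorem X64_step {N : ℕ} {U : ℝ} (hU0 : 0 < U) {Y : ℕ → ℝ}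
    (hr : ∀ j : ℕ, 1 ≤ j → (2 * j : ℝ) * (2 * j + 1) * Y j ≤ 10 * Y (j + 1)) {i j : ℕ} (hj : 1 ≤ j) (hij : i + 1 + j = N) :
    X64_t N U Y (i + 1) * (((i : ℝ) + 2) * (2 * j * (2 * j + 1))) ≤ X64_t N U Y i * (185 / 64 * U) := by
  unfold X64_t
  have h1 : N - (i + 1) = j := by omega
  have h2 : N - i = j + 1 := by omega
  have h3 : (((i + 1 + 1).factorial : ℕ) : ℝ) = ((i : ℝ) + 2) * ((i + 1).factorial : ℝ) := by
    rw [Nat.factorial_succ]
    push_cast
    ring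
  have h4 : ((((i + 1).factorial : ℕ) : ℕ) : ℝ) ≠ 0 := Nat.cast_ne_zero.2 (Nat.factorial_ne_zero _)
  have h5 : (i : ℝ) + 2 ≠ 0 := by positivity
  have h6 := hr j hj
  have h7 : 0 < U ^ (i + 1 + 1) * (37 / 128) ^ (i + 1) / ((i + 1).factorial : ℝ) := by positivity
  rw [h1, h2, h3]
  have e1 : U ^ (i + 1 + 1) * (37 / 128) ^ (i + 1) / (((i : ℝ) + 2) * ((i + 1).factorial : ℝ)) * Y j *
      (((i : ℝ) + 2) * (2 * j * (2 * j + 1))) =
      U ^ (i + 1 + 1) * (37 / 128) ^ (i + 1) / ((i + 1).factorial : ℝ) * (2 * j * (2 * j + 1) * Y j) := by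
    field_simp
  have e2 : U ^ (i + 1) * (37 / 128) ^ i / ((i + 1).factorial : ℝ) * Y (j + 1) * (185 / 64 * U) =
      U ^ (i + 1 + 1) * (37 / 128) ^ (i + 1) / ((i + 1).factorial : ℝ) * (10 * Y (j + 1)) := by
    rw [pow_succ U (i + 1), pow_succ (37 / 128 : ℝ) i]
    ring
  rw [e1, e2]
  exact mul_le_mul_of_nonneg_left h6 h7.le

private theorem X64_pos {N : ℕ} {U : ℝ} (hU0 : 0 < U) {Y : ℕ → ℝ} (hY : ∀ j, 1 ≤ j → 0 < Y j) {i : ℕ} (hi : i < N) :
    0 < X64_t N U Y i := by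
  unfold X64_t
  have := hY (N - i) (by omega)
  positivity

private theorem X64_sum {N : ℕ} (hN : 5 ≤ N) {U : ℝ} (hU0 : 0 < U) (hU : 185 / 64 * U ≤ 12 * N - 32) {Y : ℕ → ℝ}
    (hY : ∀ j, 1 ≤ j → 0 < Y j) (hr : ∀ j : ℕ, 1 ≤ j → (2 * j : ℝ) * (2 * j + 1) * Y j ≤ 10 * Y (j + 1)) :
    ∑ i ∈ range N, X64_t N U Y i < X64_t N U Y 0 + 2 / 3 * X64_t N U Y 0 := by
  obtain ⟨t, ht⟩ : ∃ t, t = X64_t N U Y := ⟨_, rfl⟩
  have hpos : ∀ i < N, 0 < t i := fun i hi => by rw [ht]; exact X64_pos hU0 hY hi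
  have hstep : ∀ i j : ℕ, 1 ≤ j → i + 1 + j = N → t (i + 1) * (((i : ℝ) + 2) * (2 * j * (2 * j + 1))) ≤
      t i * (12 * N - 32) := fun i j hj hij => by
    have h1 := X64_step hU0 hr hj hij
    rw [← ht] at h1
    exact h1.trans (mul_le_mul_of_nonneg_left hU (hpos i (by omega)).le)
  rw [← ht]
  have h0 := hpos 0 (by omega)
  have hNr : (5 : ℝ) ≤ N := by exact_mod_cast hN
  -- the first term
  have h1 : t 1 ≤ 1 / 5 * t 0 := by
    have h2 := hstep 0 (N - 1) (by omega) (by omega)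
    rw [Nat.cast_sub (by omega)] at h2
    push_cast at h2
    have h3 : t 1 * (4 * ((N : ℝ) - 1) * (2 * N - 1)) ≤ t 0 * (12 * N - 32) := by
      refine le_trans (le_of_eq ?_) h2
      ring
    have h4 : 5 * ((12 : ℝ) * N - 32) ≤ 4 * ((N : ℝ) - 1) * (2 * N - 1) := by nlinarith
    have h5 : 0 < 4 * ((N : ℝ) - 1) * (2 * N - 1) := by
      have : (0 : ℝ) < N - 1 := by linarith
      have : (0 : ℝ) < 2 * N - 1 := by linarith
      positivity
    have h6 : t 1 * (4 * ((N : ℝ) - 1) * (2 * N - 1)) ≤ (1 / 5 * t 0) * (4 * ((N : ℝ) - 1) * (2 * N - 1)) := by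
      refine h3.trans ?_
      have := mul_le_mul_of_nonneg_left h4 h0.le
      linarith
    exact le_of_mul_le_mul_right h6 h5
  -- the ratio `3 / 5`
  have h2 : ∀ i, 1 ≤ i → i + 3 ≤ N → t (i + 1) ≤ 3 / 5 * t i := by
    intro i hi hi3
    obtain ⟨u, rfl⟩ : ∃ u, i = u + 1 := ⟨i - 1, by omega⟩
    obtain ⟨v, hv⟩ : ∃ v, N = u + v + 4 := ⟨N - u - 4, by omega⟩
    have h3 := hstep (u + 1) (v + 2) (by omega) (by omega)
    have hNv : (N : ℝ) = u + v + 4 := by
      rw [hv]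
      push_cast
      ring
    rw [hNv] at h3
    push_cast at h3
    have hu : (0 : ℝ) ≤ u := Nat.cast_nonneg u
    have hv0 : (0 : ℝ) ≤ v := Nat.cast_nonneg v
    have h4 : 5 * (12 * ((u : ℝ) + v + 4) - 32) ≤ 3 * (((u : ℝ) + 1 + 2) * (2 * (v + 2) * (2 * (v + 2) + 1))) := by
      nlinarith [mul_nonneg hu hv0, mul_nonneg (mul_nonneg hu hv0) hv0, mul_nonneg hv0 hv0]
    have h5 : 0 < ((u : ℝ) + 1 + 2) * (2 * (v + 2) * (2 * (v + 2) + 1)) := by positivity
    have h6 := hpos (u + 1) (by omega)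
    have h7 : t (u + 1 + 1) * (((u : ℝ) + 1 + 2) * (2 * (v + 2) * (2 * (v + 2) + 1))) ≤
        (3 / 5 * t (u + 1)) * (((u : ℝ) + 1 + 2) * (2 * (v + 2) * (2 * (v + 2) + 1))) := by
      refine h3.trans ?_
      have := mul_le_mul_of_nonneg_left h4 h6.le
      linarith
    exact le_of_mul_le_mul_right h7 h5
  -- the sum up to `N - 2`
  have h3 : ∀ K, K + 3 ≤ N → ∑ i ∈ range (K + 1), t (i + 1) + 3 / 2 * t (K + 1) ≤ 5 / 2 * t 1 ∧ t (K + 1) ≤ t 1 := by
    intro K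
    induction K with
    | zero =>
      intro _
      rw [Finset.sum_range_one]
      exact ⟨by rw [zero_add]; linarith, le_rfl⟩
    | succ K ih =>
      intro hK
      obtain ⟨a1, a2⟩ := ih (by omega)
      have a3 := h2 (K + 1) (by omega) (by omega)
      have a4 := hpos (K + 1) (by omega)
      rw [Finset.sum_range_succ]
      exact ⟨by linarith, by linarith⟩
  obtain ⟨M, hM⟩ : ∃ M, N = M + 3 := ⟨N - 3, by omega⟩
  obtain ⟨a1, a2⟩ := h3 M (by omega)
  have h4 := hstep (M + 1) 1 le_rfl (by omega)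
  have hNM : (N : ℝ) = M + 3 := by
    rw [hM]
    push_cast
    ring
  rw [hNM] at h4
  push_cast at h4
  have hM0 : (0 : ℝ) ≤ M := Nat.cast_nonneg M
  have h5 : t (M + 2) ≤ 2 * t (M + 1) := by
    have h6 := hpos (M + 1) (by omega)
    have h7 : t (M + 2) * (((M : ℝ) + 1 + 2) * 6) ≤ (2 * t (M + 1)) * (((M : ℝ) + 1 + 2) * 6) := by
      have h8 : t (M + 2) * (((M : ℝ) + 1 + 2) * 6) ≤ t (M + 1) * (12 * ((M : ℝ) + 3) - 32) := by
        refine le_trans (le_of_eq ?_) h4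
        ring
      refine h8.trans ?_
      nlinarith
    exact le_of_mul_le_mul_right h7 (by positivity)
  have h6 : ∑ i ∈ range N, t i = (∑ i ∈ range (M + 1), t (i + 1)) + t (M + 2) + t 0 := by
    rw [hM, Finset.sum_range_succ', Finset.sum_range_succ]
  rw [h6]
  linarith

theorem domin {N : ℕ} (hN : 5 ≤ N) {U : ℝ} (hU0 : 0 < U) (hU : 185 / 64 * U ≤ 12 * N - 32) {Y L e : ℕ → ℝ}
    (hY : ∀ j, 1 ≤ j → 0 < Y j) (hr : ∀ j : ℕ, 1 ≤ j → (2 * j : ℝ) * (2 * j + 1) * Y j ≤ 10 * Y (j + 1))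
    (hc : ∀ p, 2 ≤ p → ∑ a ∈ range (p - 1), Y (a + 1) * Y (p - 1 - a) ≤ 37 / 128 * Y (p - 1))
    (he0 : e 0 = 1) (he : ∀ n : ℕ, ((n : ℝ) + 1) * e (n + 1) = -∑ j ∈ range (n + 1), L (j + 1) * e (n - j))
    (hL : ∀ j : ℕ, 1 ≤ j → j < N → |L j| ≤ j * (U * Y j)) (hLN : 2 / 3 * (N * (U * Y N)) ≤ |L N|) : e N ≠ 0 := by
  -- the majorant
  have h1 : ∀ n, n < N → |e n| ≤ X64_S N U Y n := by
    intro n
    induction n using Nat.strong_induction_on with
    | _ n ih =>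
      intro hn
      rcases n with _ | n
      · rw [he0, X64_S_zero, abs_one]
      · have h2 : ((n : ℝ) + 1) * |e (n + 1)| ≤ ((n : ℝ) + 1) * X64_S N U Y (n + 1) := by
          have h3 : ((n : ℝ) + 1) * |e (n + 1)| = |((n : ℝ) + 1) * e (n + 1)| := by
            rw [abs_mul, abs_of_pos (by positivity : (0 : ℝ) < (n : ℝ) + 1)]
          rw [h3, he, abs_neg, X64_S_succ (by omega)]
          refine (Finset.abs_sum_le_sum_abs _ _).trans (Finset.sum_le_sum fun j hj => ?_)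
          have hj' := Finset.mem_range.1 hj
          rw [abs_mul]
          have h4 := hL (j + 1) (by omega) (by omega)
          push_cast at h4
          exact mul_le_mul h4 (ih (n - j) (by omega) (by omega)) (abs_nonneg _)
            (le_trans (abs_nonneg _) h4)
        exact le_of_mul_le_mul_left h2 (by positivity)
  obtain ⟨M, rfl⟩ : ∃ M, N = M + 1 := ⟨N - 1, by omega⟩
  have h2 := X64_S_succ (N := M + 1) (n := M) le_rfl U Y
  rw [Finset.sum_range_succ, Nat.sub_self, X64_S_zero, mul_one] at h2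
  have h3 := he M
  rw [Finset.sum_range_succ, Nat.sub_self, he0, mul_one] at h3
  have h4 : |∑ j ∈ range M, L (j + 1) * e (M - j)| ≤ ∑ j ∈ range M, ((j : ℝ) + 1) * (U * Y (j + 1)) *
      X64_S (M + 1) U Y (M - j) := by
    refine (Finset.abs_sum_le_sum_abs _ _).trans (Finset.sum_le_sum fun j hj => ?_)
    have hj' := Finset.mem_range.1 hj
    rw [abs_mul]
    have h4 := hL (j + 1) (by omega) (by omega)
    push_cast at h4
    exact mul_le_mul h4 (h1 (M - j) (by omega)) (abs_nonneg _) (le_trans (abs_nonneg _) h4)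
  have h5 := X64_S_le (N := M + 1) hU0 (by omega) hY hc
  have h6 := X64_sum hN hU0 hU hY hr
  have h7 : X64_t (M + 1) U Y 0 = U * Y (M + 1) := by
    unfold X64_t
    rw [Nat.sub_zero, zero_add, pow_one, pow_zero, mul_one, Nat.factorial_one, Nat.cast_one, div_one]
  rw [h7] at h6
  intro h8
  rw [h8, mul_zero] at h3
  have h9 : |L (M + 1)| = |∑ j ∈ range M, L (j + 1) * e (M - j)| := by
    have : L (M + 1) = -∑ j ∈ range M, L (j + 1) * e (M - j) := by linarith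
    rw [this, abs_neg]
  have h10 : (0 : ℝ) < (M : ℝ) + 1 := by positivity
  push_cast at hLN
  have h11 : X64_S (M + 1) U Y (M + 1) < U * Y (M + 1) + 2 / 3 * (U * Y (M + 1)) := lt_of_le_of_lt h5 h6
  have h12 := mul_lt_mul_of_pos_left h11 h10
  linarith

end Pool.Agent.Lib.MP_ccbbf6_gt.L5.FR6
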