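import Pool.Agent.Lib.MP_ccbbf6_gt.L6.X62

/-!
# Level 6, X65: bounds for the numbers `L_j = (-1)^j p_(2j) / 2` (helper79)
-/

set_option autoImplicit false
set_option linter.unusedSectionVars false

noncomputable section

open Finset

namespace Pool.Agent.Lib.MP_ccbbf6_gt.L5.FR6

/-- `∑_i 16^i S_i y^(4i) / (4i)! / (2 cos y) = ∑ σ_j y^(2j)`, `L_j = (2j)! σ_j / (2 4^j)` -/
def Lj (s S : ℕ → ℝ) (j : ℕ) : ℝ :=
  ((2 * j).factorial : ℝ) / (2 * 4 ^ j) * ∑ i ∈ range (j / 2 + 1), s (j - 2 * i) * 16 ^ i * S i / (2 * ((4 * i).factorial : ℝ))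

namespace X65

/-- `100^i / (2 (4i)!)` -/
def cc (i : ℕ) : ℝ := 100 ^ i / (2 * ((4 * i).factorial : ℝ))

theorem cc_pos (i : ℕ) : 0 < cc i := by
  unfold cc
  positivity

theorem cc_succ {i : ℕ} (hi : 2 ≤ i) : cc (i + 1) ≤ 1 / 100 * cc i := by
  unfold cc
  have e : (4 * (i + 1)).factorial = (4 * i + 4) * ((4 * i + 3) * ((4 * i + 2) * ((4 * i + 1) * (4 * i).factorial))) := by
    rw [show 4 * (i + 1) = 4 * i + 3 + 1 by ring, Nat.factorial_succ, show 4 * i + 3 = 4 * i + 2 + 1 by ring,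
      Nat.factorial_succ, show 4 * i + 2 = 4 * i + 1 + 1 by ring, Nat.factorial_succ, Nat.factorial_succ]
  have hf : (0 : ℝ) < ((4 * i).factorial : ℝ) := by positivity
  obtain ⟨f, hf'⟩ : ∃ f, f = ((4 * i).factorial : ℝ) := ⟨_, rfl⟩
  rw [e]
  push_cast
  rw [← hf'] at hf ⊢
  have hi' : (2 : ℝ) ≤ i := by exact_mod_cast hi
  have hp : (10000 : ℝ) ≤ (4 * i + 4) * ((4 * i + 3) * ((4 * i + 2) * (4 * i + 1))) := by
    have h1 : (12 : ℝ) ≤ 4 * i + 4 := by linarith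
    have h2 : (11 : ℝ) ≤ 4 * i + 3 := by linarith
    have h3 : (10 : ℝ) ≤ 4 * i + 2 := by linarith
    have h4 : (9 : ℝ) ≤ 4 * i + 1 := by linarith
    have h5 : (10 * 9 : ℝ) ≤ (4 * i + 2) * (4 * i + 1) := mul_le_mul h3 h4 (by norm_num) (by linarith)
    have h6 : (11 * (10 * 9) : ℝ) ≤ (4 * i + 3) * ((4 * i + 2) * (4 * i + 1)) := mul_le_mul h2 h5 (by norm_num) (by linarith)
    have h7 : (12 * (11 * (10 * 9)) : ℝ) ≤ (4 * i + 4) * ((4 * i + 3) * ((4 * i + 2) * (4 * i + 1))) :=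
      mul_le_mul h1 h6 (by norm_num) (by linarith)
    linarith
  obtain ⟨q, hq⟩ : ∃ q : ℝ, q = (4 * i + 4) * ((4 * i + 3) * ((4 * i + 2) * (4 * i + 1))) := ⟨_, rfl⟩
  rw [← hq] at hp
  have e2 : (4 * (i : ℝ) + 4) * ((4 * i + 3) * ((4 * i + 2) * ((4 * i + 1) * f))) = q * f := by
    rw [hq]
    ring
  have hq0 : 0 < q := by linarith
  rw [e2, pow_succ]
  have e3 : (100 : ℝ) ^ i * 100 / (2 * (q * f)) = (100 ^ i / (2 * f)) * (100 / q) := by
    field_simp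
  rw [e3, mul_comm]
  refine mul_le_mul_of_nonneg_right ?_ (by positivity)
  rw [div_le_div_iff₀ hq0 (by norm_num)]
  linarith

theorem cc_two : cc 2 ≤ 12527 / 100000 * (99 / 100) := by
  unfold cc
  have e : (4 * 2).factorial = 40320 := rfl
  rw [e]
  norm_num

theorem cc_le (i : ℕ) : cc (i + 2) ≤ 12527 / 100000 * (99 / 100) * (1 / 100) ^ i := by
  induction i with
  | zero =>
    rw [pow_zero, mul_one]
    exact cc_two
  | succ i ih =>
    have h1 := cc_succ (i := i + 2) (by omega)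
    rw [pow_succ]
    have h2 : cc (i + 1 + 2) = cc (i + 2 + 1) := rfl
    rw [h2]
    linarith

theorem cc_sum (K : ℕ) : ∑ i ∈ range K, cc (i + 2) ≤ 12527 / 100000 * (1 - (1 / 100) ^ K) := by
  induction K with
  | zero => simp
  | succ K ih =>
    rw [sum_range_succ, pow_succ]
    have := cc_le K
    linarith

theorem cc_sum' (K : ℕ) : ∑ i ∈ range K, cc (i + 2) ≤ 12527 / 100000 := by
  have h1 := cc_sum K
  have h2 : (0 : ℝ) ≤ (1 / 100) ^ K := by positivity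
  linarith

variable {s : ℕ → ℝ}

theorem s_pow (hs : IsSec s) {j : ℕ} : ∀ a, a ≤ j → s (j - a) ≤ (5 / 2) ^ a * s j := by
  intro a
  induction a with
  | zero =>
    intro _
    rw [pow_zero, one_mul, Nat.sub_zero]
  | succ a ih =>
    intro h
    have h1 := ih (by omega)
    have h2 := hs.lo (j - (a + 1))
    rw [show j - (a + 1) + 1 = j - a by omega] at h2
    rw [pow_succ]
    linarith

/-- one term -/
theorem term_le (hs : IsSec s) {M : ℕ} {S : ℕ → ℝ} {j i : ℕ} (hi : 2 * i ≤ j) (hS : |S i| ≤ (M : ℝ) + 10) :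
    |s (j - 2 * i) * 16 ^ i * S i / (2 * ((4 * i).factorial : ℝ))| ≤ ((M : ℝ) + 10) * s j * cc i := by
  have h1 := s_pow hs (2 * i) hi
  have h2 := hs.pos (j - 2 * i)
  have h3 := hs.pos j
  have hf : (0 : ℝ) < ((4 * i).factorial : ℝ) := by positivity
  rw [abs_div, abs_mul, abs_mul, abs_of_pos h2, abs_of_pos (by positivity : (0 : ℝ) < 16 ^ i),
    abs_of_pos (by positivity : (0 : ℝ) < 2 * ((4 * i).factorial : ℝ))]
  have e : ((M : ℝ) + 10) * s j * cc i = ((5 / 2) ^ (2 * i) * s j) * 16 ^ i * ((M : ℝ) + 10) / (2 * ((4 * i).factorial : ℝ)) := by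
    unfold cc
    have e2 : (100 : ℝ) ^ i = (5 / 2) ^ (2 * i) * 16 ^ i := by
      rw [pow_mul, ← mul_pow]
      norm_num
    rw [e2]
    ring
  rw [e]
  refine div_le_div_of_nonneg_right ?_ (by positivity)
  exact mul_le_mul (mul_le_mul_of_nonneg_right h1 (by positivity)) hS (abs_nonneg _) (by positivity)

/-- the sum -/
def sgx (s S : ℕ → ℝ) (j : ℕ) : ℝ := ∑ i ∈ range (j / 2 + 1), s (j - 2 * i) * 16 ^ i * S i / (2 * ((4 * i).factorial : ℝ))

theorem sgx_eq (hs : IsSec s) {M : ℕ} (hM : 2 ≤ M) {S : ℕ → ℝ} (S0 : S 0 = 8 * M) (S1 : S 1 = 2 * (M : ℝ) - 4)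
    (S2 : ∀ i, 2 ≤ i → i ≤ M → |S i| ≤ (M : ℝ) + 10) {j : ℕ} (hj' : j ≤ 2 * M + 1) (h2 : 2 ≤ j) :
    |sgx s S j - (4 * M * s j + 2 / 3 * ((M : ℝ) - 2) * s (j - 2))| ≤ ((M : ℝ) + 10) * s j * (12527 / 100000) := by
  obtain ⟨K, hK⟩ : ∃ K, j / 2 = K + 1 := ⟨j / 2 - 1, by omega⟩
  have h3 := hs.pos j
  have e0 : sgx s S j = ∑ i ∈ range K, s (j - 2 * (i + 2)) * 16 ^ (i + 2) * S (i + 2) / (2 * ((4 * (i + 2)).factorial : ℝ)) +
      (4 * M * s j + 2 / 3 * ((M : ℝ) - 2) * s (j - 2)) := by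
    unfold sgx
    rw [hK, sum_range_succ', sum_range_succ', add_assoc]
    congr 1
    rw [S0, zero_add, S1]
    have f1 : (4 * 1).factorial = 24 := rfl
    have f2 : 2 * 1 = 2 := rfl
    rw [f1, f2, mul_zero, Nat.factorial_zero, Nat.sub_zero]
    push_cast
    ring
  rw [e0, add_sub_cancel_right]
  refine (abs_sum_le_sum_abs _ _).trans ?_
  have h4 : ∑ i ∈ range K, |s (j - 2 * (i + 2)) * 16 ^ (i + 2) * S (i + 2) / (2 * ((4 * (i + 2)).factorial : ℝ))| ≤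
      ∑ i ∈ range K, ((M : ℝ) + 10) * s j * cc (i + 2) := by
    refine sum_le_sum fun i hi => ?_
    rw [mem_range] at hi
    exact term_le hs (by omega) (S2 _ (by omega) (by omega))
  rw [← mul_sum] at h4
  exact h4.trans (mul_le_mul_of_nonneg_left (cc_sum' K) (by positivity))

end X65

open X65

theorem Lj_up {s : ℕ → ℝ} (hs : IsSec s) {M : ℕ} (hM : 2 ≤ M) {S : ℕ → ℝ} (S0 : S 0 = 8 * M) (S1 : S 1 = 2 * (M : ℝ) - 4)
    (S2 : ∀ i, 2 ≤ i → i ≤ M → |S i| ≤ (M : ℝ) + 10) {j : ℕ} (hj : 1 ≤ j) (hj' : j ≤ 2 * M + 1) :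
    |Lj s S j| ≤ j * ((83 / 10 * M - 7) * Yj s j) := by
  have hM' : (2 : ℝ) ≤ M := by exact_mod_cast hM
  have h3 := hs.pos j
  have hF : (0 : ℝ) < ((2 * j).factorial : ℝ) / (2 * 4 ^ j) := by positivity
  have e1 : Lj s S j = ((2 * j).factorial : ℝ) / (2 * 4 ^ j) * sgx s S j := rfl
  have e2 : (j : ℝ) * ((83 / 10 * M - 7) * Yj s j) = ((2 * j).factorial : ℝ) / (2 * 4 ^ j) * ((83 / 10 * M - 7) * s j) := by
    unfold Yj
    obtain ⟨k, rfl⟩ : ∃ k, j = k + 1 := ⟨j - 1, by omega⟩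
    rw [show 2 * (k + 1) - 1 = 2 * k + 1 by omega, show 2 * (k + 1) = 2 * k + 1 + 1 by ring, Nat.factorial_succ (2 * k + 1)]
    push_cast
    field_simp
    ring
  rw [e1, e2, abs_mul, abs_of_pos hF]
  refine mul_le_mul_of_nonneg_left ?_ hF.le
  rcases Nat.lt_or_ge j 2 with h | h
  · have : j = 1 := by omega
    subst this
    have e3 : sgx s S 1 = 4 * M * s 1 := by
      unfold sgx
      have : (1 : ℕ) / 2 + 1 = 1 := rfl
      rw [this, sum_range_one, S0, mul_zero, Nat.factorial_zero, Nat.sub_zero]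
      push_cast
      ring
    rw [e3, abs_of_pos (by positivity)]
    exact mul_le_mul_of_nonneg_right (by linarith) h3.le
  · have h4 := sgx_eq hs hM S0 S1 S2 hj' h
    have h5 := s_pow hs 2 h
    have h6 := hs.pos (j - 2)
    have h7 := abs_le.1 h4
    have h8 : 2 / 3 * ((M : ℝ) - 2) * s (j - 2) ≤ 2 / 3 * ((M : ℝ) - 2) * ((5 / 2) ^ 2 * s j) :=
      mul_le_mul_of_nonneg_left h5 (by linarith)
    have h9 : 0 ≤ 2 / 3 * ((M : ℝ) - 2) * s (j - 2) := mul_nonneg (by linarith) h6.le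
    have h10 : 0 ≤ (M : ℝ) * s j := by positivity
    have h11 : 2 * s j ≤ M * s j := mul_le_mul_of_nonneg_right hM' h3.le
    rw [abs_le]
    constructor
    · nlinarith
    · nlinarith

theorem Lj_lo {s : ℕ → ℝ} (hs : IsSec s) {M : ℕ} (hM : 2 ≤ M) {S : ℕ → ℝ} (S0 : S 0 = 8 * M) (S1 : S 1 = 2 * (M : ℝ) - 4)
    (S2 : ∀ i, 2 ≤ i → i ≤ M → |S i| ≤ (M : ℝ) + 10) :
    2 / 3 * (((2 * M + 1 : ℕ) : ℝ) * ((83 / 10 * M - 7) * Yj s (2 * M + 1))) ≤ |Lj s S (2 * M + 1)| := by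
  have hM' : (2 : ℝ) ≤ M := by exact_mod_cast hM
  obtain ⟨j, hj⟩ : ∃ j, j = 2 * M + 1 := ⟨_, rfl⟩
  rw [← hj]
  have h3 := hs.pos j
  have hF : (0 : ℝ) < ((2 * j).factorial : ℝ) / (2 * 4 ^ j) := by positivity
  have e1 : Lj s S j = ((2 * j).factorial : ℝ) / (2 * 4 ^ j) * sgx s S j := rfl
  have e2 : (j : ℝ) * ((83 / 10 * M - 7) * Yj s j) = ((2 * j).factorial : ℝ) / (2 * 4 ^ j) * ((83 / 10 * M - 7) * s j) := by
    unfold Yj
    obtain ⟨k, hk⟩ : ∃ k, j = k + 1 := ⟨j - 1, by omega⟩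
    rw [hk, show 2 * (k + 1) - 1 = 2 * k + 1 by omega, show 2 * (k + 1) = 2 * k + 1 + 1 by ring, Nat.factorial_succ (2 * k + 1)]
    push_cast
    field_simp
    ring
  rw [e1, e2, abs_mul, abs_of_pos hF, mul_left_comm]
  refine mul_le_mul_of_nonneg_left ?_ hF.le
  refine le_trans ?_ (le_abs_self _)
  have h4 := sgx_eq hs hM S0 S1 S2 hj.le (by omega)
  have h7 := abs_le.1 h4
  -- `s (j - 2) ≥ 5.76 s j`
  have u1 := hs.up (j := j - 1) (by omega)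
  have u2 := hs.up (j := j - 2) (by omega)
  rw [show j - 1 + 1 = j by omega] at u1
  rw [show j - 2 + 1 = j - 1 by omega] at u2
  have u3 : 144 / 25 * s j ≤ s (j - 2) := by linarith
  have h8 : 2 / 3 * ((M : ℝ) - 2) * (144 / 25 * s j) ≤ 2 / 3 * ((M : ℝ) - 2) * s (j - 2) :=
    mul_le_mul_of_nonneg_left u3 (by linarith)
  have h11 : 2 * s j ≤ M * s j := mul_le_mul_of_nonneg_right hM' h3.le
  nlinarith

end Pool.Agent.Lib.MP_ccbbf6_gt.L5.FR6
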