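import Pool.Agent.Lib.MP_ccbbf6_gt.L5.EGC0
import Pool.Agent.Lib.MP_ccbbf6_gt.L5.RG0
import Pool.Agent.Lib.MP_ccbbf6_gt.L6.X65

/-!
# Level 6, X66: from the relations in degrees `4 m - 3`, `4 m - 2` to `e_(2m-1) = 0` (helper95)
-/

set_option autoImplicit false
set_option linter.unusedSectionVars false

noncomputable section

open Finset

namespace Pool.Agent.Lib.MP_ccbbf6_gt.L5.FR6

/-! ### shifts -/

/-- the power sums of shifted variables -/
def shf (t : ℝ) (p : ℕ → ℝ) (j : ℕ) : ℝ := ∑ i ∈ range (j + 1), (j.choose i : ℝ) * (t ^ (j - i) * p i)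

/-- the functional -/
def Lam (p : ℕ → ℝ) : Polynomial ℝ →ₗ[ℝ] ℝ := (Polynomial.basisMonomials ℝ).constr ℝ p

theorem Lam_X (p : ℕ → ℝ) (i : ℕ) : Lam p (Polynomial.X ^ i) = p i := by
  have h := (Polynomial.basisMonomials ℝ).constr_basis ℝ p i
  rw [Polynomial.coe_basisMonomials] at h
  rw [Polynomial.X_pow_eq_monomial]
  exact h

theorem shf_eq (t : ℝ) (p : ℕ → ℝ) (j : ℕ) : shf t p j = Lam p ((Polynomial.X + Polynomial.C t) ^ j) := by
  rw [add_pow, map_sum]
  refine Finset.sum_congr rfl fun i _ => ?_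
  have e : (Polynomial.X ^ i * Polynomial.C t ^ (j - i) * (j.choose i : Polynomial ℝ)) =
      ((j.choose i : ℝ) * t ^ (j - i)) • (Polynomial.X ^ i : Polynomial ℝ) := by
    rw [Polynomial.smul_eq_C_mul, map_mul, map_pow, map_natCast]
    ring
  rw [e, map_smul, Lam_X, smul_eq_mul, mul_assoc]

theorem shf_shf (t u : ℝ) (p : ℕ → ℝ) (j : ℕ) :
    ∑ a ∈ range (j + 1), (j.choose a : ℝ) * (t ^ a * shf u p (j - a)) = shf (u + t) p j := by
  have e : (Polynomial.X + Polynomial.C (u + t) : Polynomial ℝ) = Polynomial.C t + (Polynomial.X + Polynomial.C u) := by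
    rw [map_add]
    ring
  rw [shf_eq (u + t), e, add_pow, map_sum]
  refine Finset.sum_congr rfl fun a _ => ?_
  have e2 : (Polynomial.C t ^ a * (Polynomial.X + Polynomial.C u) ^ (j - a) * (j.choose a : Polynomial ℝ)) =
      ((j.choose a : ℝ) * t ^ a) • (Polynomial.X + Polynomial.C u) ^ (j - a) := by
    rw [Polynomial.smul_eq_C_mul, map_mul, map_pow, map_natCast]
    ring
  rw [e2, map_smul, shf_eq, smul_eq_mul, mul_assoc]

theorem shf_zero (p : ℕ → ℝ) (j : ℕ) : shf 0 p j = p j := by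
  unfold shf
  rw [Finset.sum_eq_single j]
  · rw [Nat.choose_self, Nat.cast_one, one_mul, Nat.sub_self, pow_zero, one_mul]
  · intro i hi hij
    have := Finset.mem_range.1 hi
    rw [zero_pow (by omega), zero_mul, mul_zero]
  · intro h
    exact absurd (Finset.mem_range.2 (Nat.lt_succ_self j)) h

theorem aeval_elc (p : ℕ → ℝ) (t : ℝ) (n : ℕ) : Polynomial.aeval t (elc (EGC.shp p) n) = elc (shf t p) n := by
  have h1 := map_elc ((Polynomial.aeval t : Polynomial ℝ →ₐ[ℝ] ℝ)) (EGC.shp p) n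
  rw [h1]
  congr 1
  funext k
  unfold EGC.shp shf
  rw [map_sum]
  refine Finset.sum_congr rfl fun j _ => ?_
  rw [map_mul, map_natCast, map_mul, map_pow, Polynomial.aeval_X, Polynomial.aeval_C]
  rfl

/-- **the two relations are invariant under shifts** -/
theorem elc_shf {p : ℕ → ℝ} {q : ℕ} (h0 : p 0 = q) {t : ℝ} (h1 : elc (shf t p) (q + 1) = 0)
    (h2 : elc (shf t p) (q + 2) = 0) : elc p (q + 2) = 0 := by
  have h0' : EGC.shp p 0 = (q : Polynomial ℝ) := by rw [EGC.shp_zero, h0, map_natCast]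
  have d1 := EGC.der_elc h0' (EGC.der_shp p) q
  rw [sub_self, zero_mul] at d1
  have c1 := Polynomial.eq_C_of_derivative_eq_zero d1
  have z1 : elc (EGC.shp p) (q + 1) = 0 := by
    have h3 := aeval_elc p t (q + 1)
    rw [c1, Polynomial.aeval_C, h1] at h3
    have h4 : (elc (EGC.shp p) (q + 1)).coeff 0 = 0 := h3
    rw [c1, h4, map_zero]
  have d2 := EGC.der_elc h0' (EGC.der_shp p) (q + 1)
  rw [z1, mul_zero] at d2
  have c2 := Polynomial.eq_C_of_derivative_eq_zero d2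
  have h3 := aeval_elc p t (q + 2)
  rw [c2, Polynomial.aeval_C, h2] at h3
  have h5 := aeval_elc p 0 (q + 2)
  rw [c2, Polynomial.aeval_C] at h5
  have h6 : shf 0 p = p := funext (shf_zero p)
  rw [← h6, ← h5]
  exact h3

/-! ### the even sequence -/

/-- the sequence with `2 cosh (x / 2) P(x) = B(x)` -/
def pt (s S : ℕ → ℝ) (n : ℕ) : ℝ := if Even n then 2 * (-1) ^ (n / 2) * Lj s S (n / 2) else 0

theorem pt_even (s S : ℕ → ℝ) (n : ℕ) : pt s S (2 * n) = 2 * (-1) ^ n * Lj s S n := by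
  unfold pt
  rw [if_pos (even_two_mul n), Nat.mul_div_cancel_left n two_pos]

theorem pt_odd (s S : ℕ → ℝ) (n : ℕ) : pt s S (2 * n + 1) = 0 := by
  unfold pt
  rw [if_neg (by
    rw [Nat.not_even_iff_odd]
    exact odd_two_mul_add_one n)]

/-- the coefficients of the right side -/
def Bz (S : ℕ → ℝ) (n : ℕ) : ℝ := if Even n then 16 ^ (n / 2) * S (n / 2) / (2 * ((2 * n).factorial : ℝ)) else 0

theorem sig_eq (s S : ℕ → ℝ) (j : ℕ) :
    ∑ i ∈ range (j / 2 + 1), s (j - 2 * i) * 16 ^ i * S i / (2 * ((4 * i).factorial : ℝ)) =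
      PowerSeries.coeff j (PowerSeries.mk s * PowerSeries.mk (Bz S)) := by
  rw [mul_comm, PowerSeries.coeff_mul, Finset.Nat.sum_antidiagonal_eq_sum_range_succ
    (fun a b => PowerSeries.coeff a (PowerSeries.mk (Bz S)) * PowerSeries.coeff b (PowerSeries.mk s)) j]
  refine Finset.sum_of_injOn (fun i => 2 * i) ?_ ?_ ?_ ?_
  · intro a _ b _ hab
    have : 2 * a = 2 * b := hab
    omega
  · intro a ha
    have ha' := Finset.mem_range.1 ha
    refine Finset.mem_coe.2 (Finset.mem_range.2 ?_)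
    show 2 * a < j + 1
    omega
  · intro k hk hk2
    have hk' := Finset.mem_range.1 hk
    rw [PowerSeries.coeff_mk, Bz, if_neg, zero_mul]
    rintro ⟨c, hc⟩
    exact hk2 ⟨c, Finset.mem_coe.2 (Finset.mem_range.2 (by omega)), by show 2 * c = k; omega⟩
  · intro i _
    show _ = PowerSeries.coeff (2 * i) (PowerSeries.mk (Bz S)) * PowerSeries.coeff (j - 2 * i) (PowerSeries.mk s)
    rw [PowerSeries.coeff_mk, PowerSeries.coeff_mk, Bz, if_pos (even_two_mul i), Nat.mul_div_cancel_left i two_pos]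
    have h : 2 * (2 * i) = 4 * i := by ring
    rw [h]
    ring

/-- the cosine -/
def Cz : PowerSeries ℝ := PowerSeries.mk fun i => (-1) ^ i / ((2 * i).factorial : ℝ)

theorem sec_cos {s : ℕ → ℝ} (hs : IsSec s) : PowerSeries.mk s * Cz = 1 := by
  ext j
  rw [mul_comm, PowerSeries.coeff_mul, Finset.Nat.sum_antidiagonal_eq_sum_range_succ
    (fun a b => PowerSeries.coeff a Cz * PowerSeries.coeff b (PowerSeries.mk s)) j]
  rcases j with _ | j
  · rw [Finset.sum_range_one, Cz, PowerSeries.coeff_mk, PowerSeries.coeff_mk, PowerSeries.coeff_one, if_pos rfl, hs.1]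
    simp
  · rw [PowerSeries.coeff_one, if_neg (Nat.succ_ne_zero j), ← hs.2 j]
    refine Finset.sum_congr rfl fun i _ => ?_
    rw [Cz, PowerSeries.coeff_mk, PowerSeries.coeff_mk]
    ring

/-- the convolution with the cosine -/
theorem sig_cos {s : ℕ → ℝ} (hs : IsSec s) (S : ℕ → ℝ) (n : ℕ) :
    ∑ a ∈ range (n + 1), PowerSeries.coeff a (PowerSeries.mk s * PowerSeries.mk (Bz S)) *
      ((-1) ^ (n - a) / ((2 * (n - a)).factorial : ℝ)) = Bz S n := by
  have h : PowerSeries.mk s * PowerSeries.mk (Bz S) * Cz = PowerSeries.mk (Bz S) := by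
    rw [mul_right_comm, sec_cos hs, one_mul]
  have h2 := congrArg (PowerSeries.coeff n) h
  rw [PowerSeries.coeff_mul, Finset.Nat.sum_antidiagonal_eq_sum_range_succ
    (fun a b => PowerSeries.coeff a (PowerSeries.mk s * PowerSeries.mk (Bz S)) * PowerSeries.coeff b Cz) n,
    PowerSeries.coeff_mk] at h2
  rw [← h2]
  refine Finset.sum_congr rfl fun a _ => ?_
  rw [Cz, PowerSeries.coeff_mk]

theorem sum_evens {f : ℕ → ℝ} (hf : ∀ a, f (2 * a + 1) = 0) (n : ℕ) :
    ∑ i ∈ range (2 * n + 1), f i = ∑ a ∈ range (n + 1), f (2 * a) := by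
  induction n with
  | zero => rfl
  | succ n ih =>
    have h : 2 * (n + 1) + 1 = 2 * n + 1 + 1 + 1 := by ring
    rw [h, Finset.sum_range_succ, Finset.sum_range_succ, ih, hf, add_zero, Finset.sum_range_succ _ (n + 1)]
    congr 1

theorem Lj_eq (s S : ℕ → ℝ) (a : ℕ) :
    Lj s S a = ((2 * a).factorial : ℝ) / (2 * 4 ^ a) * PowerSeries.coeff a (PowerSeries.mk s * PowerSeries.mk (Bz S)) := by
  rw [← sig_eq]
  rfl

theorem pt_zero {s : ℕ → ℝ} (hs : IsSec s) (S : ℕ → ℝ) : pt s S 0 = S 0 / 2 := by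
  have h := pt_even s S 0
  rw [mul_zero] at h
  rw [h, Lj]
  simp [hs.1]

theorem shf_sum {s : ℕ → ℝ} (hs : IsSec s) (S : ℕ → ℝ) (j : ℕ) :
    shf (-(1 / 2)) (pt s S) j + shf (1 / 2) (pt s S) j = spr 4 S j := by
  unfold shf
  rw [← Finset.sum_add_distrib]
  rcases Nat.even_or_odd' j with ⟨n, rfl | rfl⟩
  · rw [sum_evens (fun a => by rw [pt_odd]; ring)]
    have e1 : ∀ a ∈ range (n + 1), (((2 * n).choose (2 * a) : ℝ) * ((-(1 / 2)) ^ (2 * n - 2 * a) * pt s S (2 * a)) +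
        ((2 * n).choose (2 * a) : ℝ) * ((1 / 2) ^ (2 * n - 2 * a) * pt s S (2 * a))) =
        (2 * ((2 * n).factorial : ℝ) * (-1) ^ n / 4 ^ n) *
          (PowerSeries.coeff a (PowerSeries.mk s * PowerSeries.mk (Bz S)) *
            ((-1) ^ (n - a) / ((2 * (n - a)).factorial : ℝ))) := by
      intro a ha
      have ha' : a ≤ n := Nat.lt_succ_iff.1 (Finset.mem_range.1 ha)
      obtain ⟨d, rfl⟩ : ∃ d, n = a + d := ⟨n - a, by omega⟩
      have h1 : 2 * (a + d) - 2 * a = 2 * d := by omega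
      have h2 : a + d - a = d := by omega
      rw [pt_even, Lj_eq, h1, h2]
      have h3 : ((2 * (a + d)).choose (2 * a) : ℝ) * ((2 * a).factorial : ℝ) * ((2 * d).factorial : ℝ) =
          ((2 * (a + d)).factorial : ℝ) := by
        have h4 := Nat.choose_mul_factorial_mul_factorial (n := 2 * (a + d)) (k := 2 * a) (by omega)
        rw [h1] at h4
        exact_mod_cast h4
      have h5 : (-(1 / 2 : ℝ)) ^ (2 * d) = 1 / 4 ^ d := by
        rw [pow_mul, show (-(1 / 2 : ℝ)) ^ 2 = 1 / 4 from by norm_num, one_div_pow]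
      have h6 : ((1 / 2 : ℝ)) ^ (2 * d) = 1 / 4 ^ d := by
        rw [pow_mul, show ((1 / 2 : ℝ)) ^ 2 = 1 / 4 from by norm_num, one_div_pow]
      have h7 : (-1 : ℝ) ^ (a + d) * (-1) ^ d = (-1) ^ a := by
        rw [pow_add, mul_assoc, ← pow_add, ← two_mul, pow_mul]
        norm_num
      have h8 : ((2 * d).factorial : ℝ) ≠ 0 := Nat.cast_ne_zero.2 (Nat.factorial_ne_zero _)
      rw [h5, h6, ← h3, ← h7, pow_add (4 : ℝ)]
      field_simp
      ring
    rw [Finset.sum_congr rfl e1, ← Finset.mul_sum, sig_cos hs]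
    rcases Nat.even_or_odd' n with ⟨c, rfl | rfl⟩
    · have h1 : 2 * (2 * c) = 4 * c := by ring
      rw [Bz, if_pos (even_two_mul c), Nat.mul_div_cancel_left c two_pos, h1, spr_mul (by norm_num), pow_mul, pow_mul]
      have h8 : ((4 * c).factorial : ℝ) ≠ 0 := Nat.cast_ne_zero.2 (Nat.factorial_ne_zero _)
      norm_num
      field_simp
    · rw [Bz, if_neg (by rw [Nat.not_even_iff_odd]; exact odd_two_mul_add_one c), mul_zero, spr_not]
      omega
  · rw [spr_not _ (by omega)]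
    refine Finset.sum_eq_zero fun i hi => ?_
    rcases Nat.even_or_odd' i with ⟨c, rfl | rfl⟩
    · have hi' := Finset.mem_range.1 hi
      have h1 : Odd (2 * n + 1 - 2 * c) := ⟨n - c, by omega⟩
      rw [h1.neg_pow]
      ring
    · rw [pt_odd]
      ring

theorem GP_shf {s : ℕ → ℝ} (hs : IsSec s) (S : ℕ → ℝ) (n : ℕ) :
    GP (spr 4 S) (fun _ => 0) 1 n = shf (-(1 / 2)) (pt s S) n := by
  have h := GP_spec (l := (1 : ℝ)) (B := spr 4 S) (D := fun _ => 0) (K := shf (-(1 / 2)) (pt s S))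
    (K' := shf (1 / 2) (pt s S)) (N := n + 1) (fun j _ => shf_sum hs S j) (fun j _ _ => by
      have h1 := shf_shf 1 (-(1 / 2)) (pt s S) j
      have h2 := shf_shf (-1) (1 / 2) (pt s S) j
      have e1 : (-(1 / 2) + 1 : ℝ) = 1 / 2 := by norm_num
      have e2 : (1 / 2 + -1 : ℝ) = -(1 / 2) := by norm_num
      rw [e1] at h1
      rw [e2] at h2
      simp only [smul_eq_mul]
      rw [h1, h2, mul_zero, add_zero, ← shf_sum hs S j]
      ring) n le_rfl
  rw [one_mul, one_mul] at h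
  exact h.symm

theorem GP_even {s : ℕ → ℝ} (hs : IsSec s) {M : ℕ} {S : ℕ → ℝ} (S0 : S 0 = 8 * M)
    (h1 : elc (GP (spr 4 S) (fun _ => 0) 1) (4 * M + 1) = 0) (h2 : elc (GP (spr 4 S) (fun _ => 0) 1) (4 * M + 2) = 0) :
    ∃ e : ℕ → ℝ, e 0 = 1 ∧ (∀ n : ℕ, ((n : ℝ) + 1) * e (n + 1) = -∑ j ∈ range (n + 1), Lj s S (j + 1) * e (n - j)) ∧
      e (2 * M + 1) = 0 := by
  have e0 : GP (spr 4 S) (fun _ => 0) (1 : ℝ) = shf (-(1 / 2)) (pt s S) := funext (GP_shf hs S)
  rw [e0] at h1 h2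
  have h3 := elc_shf (p := pt s S) (q := 4 * M) (by
    rw [pt_zero hs, S0]
    push_cast
    ring) h1 h2
  refine ⟨fun n => (-1) ^ n * elc (pt s S) (2 * n), ?_, fun n => ?_, ?_⟩
  · show (-1) ^ 0 * elc (pt s S) 0 = 1
    rw [elc_zero, pow_zero, mul_one]
  · have h4 := EGC.newton (pt s S) (2 * n + 1)
    have h5 : ∑ k ∈ range (2 * n + 1 + 1), (-1 : ℝ) ^ k * (elc (pt s S) (2 * n + 1 - k) * pt s S (k + 1)) =
        -∑ j ∈ range (n + 1), elc (pt s S) (2 * (n - j)) * pt s S (2 * (j + 1)) := by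
      rw [Finset.sum_range_succ']
      have h6 : (-1 : ℝ) ^ 0 * (elc (pt s S) (2 * n + 1 - 0) * pt s S (0 + 1)) = 0 := by
        rw [show (0 + 1 : ℕ) = 2 * 0 + 1 from rfl, pt_odd]
        ring
      rw [h6, add_zero, sum_evens (fun a => by
        rw [show 2 * a + 1 + 1 + 1 = 2 * (a + 1) + 1 from by ring, pt_odd]
        ring), ← Finset.sum_neg_distrib]
      refine Finset.sum_congr rfl fun a ha => ?_
      have ha' := Finset.mem_range.1 ha
      have h7 : 2 * n + 1 - (2 * a + 1) = 2 * (n - a) := by omega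
      have h8 : (-1 : ℝ) ^ (2 * a + 1) = -1 := (odd_two_mul_add_one a).neg_one_pow
      rw [h7, h8, show 2 * a + 1 + 1 = 2 * (a + 1) from by ring]
      ring
    rw [h5] at h4
    have h6 : ∑ j ∈ range (n + 1), elc (pt s S) (2 * (n - j)) * pt s S (2 * (j + 1)) =
        2 * (-1) ^ (n + 1) * ∑ j ∈ range (n + 1), Lj s S (j + 1) * ((-1) ^ (n - j) * elc (pt s S) (2 * (n - j))) := by
      rw [Finset.mul_sum]
      refine Finset.sum_congr rfl fun j hj => ?_
      have hj' : j ≤ n := Nat.lt_succ_iff.1 (Finset.mem_range.1 hj)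
      obtain ⟨d, rfl⟩ : ∃ d, n = j + d := ⟨n - j, by omega⟩
      rw [pt_even, Nat.add_sub_cancel_left]
      have h7 : (-1 : ℝ) ^ (j + d + 1) * (-1) ^ d = (-1) ^ (j + 1) := by
        rw [← pow_add, show j + d + 1 + d = (j + 1) + 2 * d from by ring, pow_add, pow_mul]
        norm_num
      rw [← h7]
      ring
    rw [h6] at h4
    have h7 : (-1 : ℝ) ^ (n + 1) * (-1) ^ (n + 1) = 1 := by
      rw [← mul_pow]
      norm_num
    show ((n : ℝ) + 1) * ((-1) ^ (n + 1) * elc (pt s S) (2 * (n + 1))) = _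
    rw [show 2 * (n + 1) = 2 * n + 1 + 1 from by ring]
    push_cast at h4
    have h8 : (-1 : ℝ) ^ (n + 1) * ((2 * (n : ℝ) + 1 + 1) * elc (pt s S) (2 * n + 1 + 1)) / 2 = (-1) ^ (n + 1) *
        -(2 * (-1) ^ (n + 1) * ∑ j ∈ range (n + 1), Lj s S (j + 1) * ((-1) ^ (n - j) * elc (pt s S) (2 * (n - j)))) / 2 := by
      rw [h4]
    linear_combination h8 + (-(∑ j ∈ range (n + 1), Lj s S (j + 1) * ((-1) ^ (n - j) * elc (pt s S) (2 * (n - j))))) * h7
  · show (-1) ^ (2 * M + 1) * elc (pt s S) (2 * (2 * M + 1)) = 0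
    rw [show 2 * (2 * M + 1) = 4 * M + 2 from by ring, h3, mul_zero]

end Pool.Agent.Lib.MP_ccbbf6_gt.L5.FR6
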