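import Pool.Agent.Lib.MP_ccbbf6_gt.L6.X61
import Pool.Agent.Lib.MP_ccbbf6_gt.L6.X62c
import Pool.Agent.Lib.MP_ccbbf6_gt.L6.X63
import Pool.Agent.Lib.MP_ccbbf6_gt.L6.X64
import Pool.Agent.Lib.MP_ccbbf6_gt.L6.X66

/-!
# Level 6, X67: `k = 8`, `m ≥ 3`, `|b| ≥ 1` is impossible (helper95)
-/

set_option autoImplicit false
set_option linter.unusedSectionVars false

noncomputable section

open Finset

namespace Pool.Agent.Lib.MP_ccbbf6_gt.L5.RG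

open FR6 L4

theorem Yj_pos {s : ℕ → ℝ} (hs : IsSec s) (j : ℕ) : 0 < Yj s j := by
  have h1 : (0 : ℝ) < ((2 * j - 1).factorial : ℝ) := Nat.cast_pos.2 (Nat.factorial_pos _)
  exact div_pos (mul_pos h1 (hs.pos j)) (by positivity)

theorem Yj_step {s : ℕ → ℝ} (hs : IsSec s) {j : ℕ} (hj : 1 ≤ j) :
    (2 * j : ℝ) * (2 * j + 1) * Yj s j ≤ 10 * Yj s (j + 1) := by
  obtain ⟨i, rfl⟩ : ∃ i, j = i + 1 := ⟨j - 1, by omega⟩
  unfold Yj
  have e1 : 2 * (i + 1) - 1 = 2 * i + 1 := by omega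
  have e2 : 2 * (i + 1 + 1) - 1 = 2 * i + 1 + 1 + 1 := by omega
  rw [e1, e2, Nat.factorial_succ (2 * i + 1 + 1), Nat.factorial_succ (2 * i + 1), pow_succ (4 : ℝ) (i + 1)]
  have h1 := hs.lo (i + 1)
  have h2 : (0 : ℝ) < ((2 * i + 1).factorial : ℝ) := Nat.cast_pos.2 (Nat.factorial_pos _)
  have h3 : (0 : ℝ) < 4 ^ (i + 1) := by positivity
  obtain ⟨F, hF⟩ : ∃ F : ℝ, F = ((2 * i + 1).factorial : ℝ) := ⟨_, rfl⟩
  obtain ⟨Q, hQ⟩ : ∃ Q : ℝ, Q = (4 : ℝ) ^ (i + 1) := ⟨_, rfl⟩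
  push_cast
  rw [← hF, ← hQ]
  rw [← hF] at h2
  rw [← hQ] at h3
  have e3 : (2 * ((i : ℝ) + 1)) * (2 * ((i : ℝ) + 1) + 1) * (F * s (i + 1) / Q) =
      ((2 * (i : ℝ) + 2) * (2 * i + 3) * F / Q) * s (i + 1) := by ring
  have e4 : 10 * ((2 * (i : ℝ) + 1 + 1 + 1) * ((2 * i + 1 + 1) * F) * s (i + 1 + 1) / (Q * 4)) =
      ((2 * (i : ℝ) + 2) * (2 * i + 3) * F / Q) * (5 / 2 * s (i + 1 + 1)) := by
    field_simp
    ring
  rw [e3, e4]
  refine mul_le_mul_of_nonneg_left (by linarith) (by positivity)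

variable {A : Type*} [CommRing A] [Algebra ℝ A]

theorem no_big {l e u1 u2 : A} {m : ℕ} {s b : ℝ} (hm3 : 3 ≤ m) (hs : s ≠ 0) (h0 : hm m u1 u2 = 0)
    (p1 : u1 ^ (m + 1) = 0) (R1 : l * e = s • (u1 - u2))
    (R2 : e ^ 2 = (-1 : ℝ) • l ^ (2 * 4 - 2) + (-b) • ((u1 + u2) * l ^ (4 - 2)))
    (X2 : e ^ 2 * (u1 ^ m * u2 ^ (m - 1)) ≠ 0) {P : PowerSeries ℝ} (c1 : PowerSeries.constantCoeff P = 1)
    (c5 : ∀ j ≤ m, PowerSeries.coeff j (P * (1 + 2 * PowerSeries.C b * PowerSeries.X)) =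
      PowerSeries.coeff j (Aser b ^ (m + 1)))
    {sT sV : ℕ → ℝ} (hT : ∀ i, elc (spr 4 sT) i = spr 4 (fun j => PowerSeries.coeff j P) i)
    (hV : ∀ i, elc (spr 4 sV) i =
      spr 4 (fun j => PowerSeries.coeff j (1 + 2 * PowerSeries.C b * PowerSeries.X)) i)
    {B D : ℕ → A} (B0 : B 0 = algebraMap ℝ A (8 * ((m : ℝ) - 1)))
    (hB : ∀ j, 1 ≤ j → j ≤ 4 * m → ∃ R, B j = spr 4 (fun c => sT c - sV c) j • u1 ^ (j / 4) + (u1 - u2) * R)
    (hD : ∀ j, ∃ R, D j = e * R) (h1 : l * elc (GP B D l) (4 * m - 3) = 0) (h2 : l * elc (GP B D l) (4 * m - 2) = 0) :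
    |b| < 1 := by
  by_contra hb
  rw [not_lt] at hb
  have hb0 : b ≠ 0 := by
    rintro rfl
    rw [abs_zero] at hb
    linarith
  obtain ⟨M, rfl⟩ : ∃ M, m = M + 1 := ⟨m - 1, by omega⟩
  have hM : 2 ≤ M := by omega
  have hMr : (2 : ℝ) ≤ M := by exact_mod_cast hM
  obtain ⟨w, hw⟩ : ∃ w : ℕ → ℝ, w = fun c => if c = 0 then 8 * (M : ℝ) else sT c - sV c := ⟨_, rfl⟩
  obtain ⟨S, hS⟩ : ∃ S : ℕ → ℝ, S = fun i => w i * (-(1 / (2 * b))) ^ i := ⟨_, rfl⟩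
  have e0 : -((-1 : ℝ) / (2 * -b)) = -(1 / (2 * b)) := by
    rw [mul_neg, neg_div_neg_eq]
  have hBw : ∀ j, j ≤ 4 * (M + 1) → ∃ R, B j = spr 4 w j • u1 ^ (j / 4) + (u1 - u2) * R := by
    intro j hj
    rcases Nat.eq_zero_or_pos j with rfl | hj0
    · refine ⟨0, ?_⟩
      have h3 : spr 4 w 0 = 8 * (((M + 1 : ℕ) : ℝ) - 1) := by
        unfold spr
        rw [if_pos (dvd_zero _), Nat.zero_div, hw]
        push_cast
        simp
      rw [B0, h3, Nat.zero_div, pow_zero, mul_zero, add_zero, Algebra.smul_def, mul_one]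
    · obtain ⟨R, hR⟩ := hB j hj0 hj
      refine ⟨R, ?_⟩
      rw [hR]
      congr 2
      unfold spr
      split_ifs with hd
      · obtain ⟨c, rfl⟩ := hd
        rw [Nat.mul_div_cancel_left c (by norm_num), hw]
        have hc : c ≠ 0 := by
          rintro rfl
          omega
        exact (if_neg hc).symm
      · rfl
  have hX : ∀ n, n + 1 ≤ 4 * (M + 1) → l * elc (GP B D l) n = 0 → elc (GP (spr 4 S) (fun _ => 0) 1) n = 0 := by
    intro n hn h3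
    have h4 := spec_l (h := 4) (by omega) (by norm_num) hs (by norm_num) (neg_ne_zero.2 hb0) h0 p1 R1 R2 X2
      (w := w) (n := n) (fun j hj => hBw j (by omega)) (fun j _ => hD j) hn h3
    rw [e0] at h4
    have h5 : (fun j => spr 4 w j * (-(1 / (2 * b))) ^ (j / 4)) = spr 4 S := by
      funext j
      unfold spr
      rw [hS]
      split_ifs
      · rfl
      · rw [zero_mul]
    rw [h5] at h4
    exact h4
  have r1 := hX (4 * (M + 1) - 3) (by omega) h1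
  have r2 := hX (4 * (M + 1) - 2) (by omega) h2
  rw [show 4 * (M + 1) - 3 = 4 * M + 1 from by omega] at r1
  rw [show 4 * (M + 1) - 2 = 4 * M + 2 from by omega] at r2
  obtain ⟨w1, w2⟩ := w_bounds hm3 hb c1 c5 hT hV
  have S0 : S 0 = 8 * M := by
    rw [hS, hw]
    simp
  have S1 : S 1 = 2 * (M : ℝ) - 4 := by
    rw [hS, hw]
    show (if (1 : ℕ) = 0 then 8 * (M : ℝ) else sT 1 - sV 1) * (-(1 / (2 * b))) ^ 1 = _
    rw [if_neg one_ne_zero, w1]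
    push_cast
    ring
  have S2 : ∀ i, 2 ≤ i → i ≤ M → |S i| ≤ (M : ℝ) + 10 := by
    intro i hi hi'
    rw [hS, hw]
    show |(if i = 0 then 8 * (M : ℝ) else sT i - sV i) * (-(1 / (2 * b))) ^ i| ≤ _
    rw [if_neg (by omega)]
    refine (w2 i hi (by omega)).trans ?_
    push_cast
    linarith
  obtain ⟨σ, hσ⟩ := exists_sec
  obtain ⟨f, f0, f1, f2⟩ := GP_even hσ S0 r1 r2
  refine domin (N := 2 * M + 1) (by omega) (U := 83 / 10 * M - 7) (by linarith) ?_ (Y := Yj σ) (L := Lj σ S)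
    (fun j _ => Yj_pos hσ j) (fun j hj => Yj_step hσ hj) (fun p hp => hσ.conv hp) f0 f1
    (fun j hj hj' => Lj_up hσ hM S0 S1 S2 hj (by omega)) (Lj_lo hσ hM S0 S1 S2) f2
  push_cast
  linarith

end Pool.Agent.Lib.MP_ccbbf6_gt.L5.RG
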