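import Pool.Agent.Lib.MP_ccbbf6_gt.L6.BI
import Pool.Agent.Lib.MP_ccbbf6_gt.L6.RG12
import Pool.Agent.Lib.MP_ccbbf6_gt.L6.X67

/-!
# Level 6, RG13: `κ = 7`, `8 < n` implies `n = 16` (helper67)
-/

set_option autoImplicit false
set_option maxSynthPendingDepth 3
set_option maxHeartbeats 400000
set_option linter.unusedSectionVars false

open Set Filter Topology Matrix
open scoped ContDiff

noncomputable section

namespace Pool.Agent.Lib.MP_ccbbf6_gt.L6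

open Geo L4 L4.FR L4.ORI L5 L5.RG L5.FR6

variable {M : Type} [MetricSpace M] [CompactSpace M] [MeasurableSpace M] [BorelSpace M]

/-- **no Blaschke manifold with `κ = 7` and `m ≥ 3`** -/
theorem no_eight {N K : ℕ} {𝒜 : SDist (N + 1) M} {hB : Bl M} (D : GeoD 𝒜 hB 7 (K + 3)) {p : M}
    {ψ : Om (spR (N + 1))} {Bf : Fm (N + 1)} (hcc : ConcD 𝒜 hB 7 (K + 3) p ψ Bf D.u)
    {g : (spVF 𝒜 7).pt → ℝ} (hU : UD 𝒜 hB 7 D.u g) : False := by
  have : Nonempty M := ⟨p⟩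
  obtain ⟨t⟩ := exists_TEmb 𝒜
  obtain ⟨b, P, c1, c2, c3, -, hodd, c5⟩ := D.three_point_all (n := 3) t
  obtain ⟨j, hj⟩ := b_int D t c3 hU
  by_cases hb : b = 0
  · exact no_geo' (n := 3) (K := K + 1) t D (by norm_num) hcc (Or.inr (Or.inr hb)) c1 c2 c3 hodd c5
  obtain ⟨sT, hT⟩ := exists_sg c1 4
  obtain ⟨sV, hV⟩ := exists_sg (P := 1 + 2 * PowerSeries.C b * PowerSeries.X) (by simp) 4
  obtain ⟨G⟩ := geo_dat (n := 3) D t (by norm_num) hcc c2 c3 hT hV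
  have hρ : G.ρ = -b := by
    have h := G.ρ_even 1 rfl
    rw [h]
    ring
  have R2 : G.e ^ 2 = (-1 : ℝ) • G.l ^ (2 * 4 - 2) + (-b) • ((G.u1 + G.u2) * G.l ^ (4 - 2)) := by
    have h := G.R2
    rw [hρ] at h
    have h1 : ((-1 : ℝ) ^ (3 + 1 - 1)) = -1 := by norm_num
    rw [h1] at h
    exact h
  have hs : ((-1 : ℝ) ^ (3 + 1)) ≠ 0 := pow_ne_zero _ (by norm_num)
  have key := no_big (m := K + 3) (b := b) (by omega) hs G.h0 G.p1 G.R1 R2 G.X2 c1 c5 hT hV (B := G.B) (D := G.D)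
    (by
      rw [G.B0]
      congr 1
      push_cast
      ring)
    (fun j h1 h2 => by
      obtain ⟨r, hr⟩ := G.hB j h1 h2
      refine ⟨r, hr.trans ?_⟩
      congr 2
      exact congrArg (fun f => spr 4 f j) (funext fun c => by rw [sg_four, one_mul]))
    G.hDe (G.hF _ (by omega) (by omega)) (G.hF _ (by omega) (by omega))
  rw [hj, ← Int.cast_abs] at key
  have h3 : |j| < 1 := by exact_mod_cast key
  have h4 : j = 0 := Int.abs_lt_one_iff.1 h3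
  apply hb
  rw [hj, h4, Int.cast_zero]

/-- **`κ = 7`, `8 < n` implies `n = 16`** -/
theorem seven_two {n : ℕ} {𝒜 : SDist n M} (hB : Bl M) (hk : 𝒜.HK 7) (hlt : 8 < n) (p : M) : n = 16 := by
  obtain ⟨N, rfl⟩ : ∃ N, n = N + 1 := ⟨n - 1, by omega⟩
  obtain ⟨m, h2, hdim, D, ψ, Bf, hc, ⟨g, hU⟩, -⟩ := exists_GeoC (l := 3) hB (by norm_num) hk (by omega) p
  by_contra h3
  obtain ⟨K, rfl⟩ : ∃ K, m = K + 3 := ⟨m - 3, by omega⟩
  exact no_eight D hc hU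

end Pool.Agent.Lib.MP_ccbbf6_gt.L6
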