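import Pool.Agent.Lib.MP_ccbbf6_gt.L5.COH4
import Pool.Agent.Lib.MP_ccbbf6_gt.L5.IC7
import Pool.Agent.Lib.MP_ccbbf6_gt.L5.TE7

/-!
# Level 6, `k = 8` : `b` is an integer (helper79)

`b_int` : if the Pontryagin classes of `V` are `1 + b (u_1 + u_2) + (u_1 - u_2)^2` then `b` is an integer.
-/

set_option autoImplicit false
set_option maxSynthPendingDepth 3
set_option linter.unusedSectionVars false
set_option linter.unusedVariables false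

open Set Filter Topology Matrix Metric Real Module
open scoped ContDiff RealInnerProductSpace

noncomputable section

namespace Pool.Agent.Lib.MP_ccbbf6_gt.L6

open Geo L4 L4.FR L4.ORI L5 L5.IC

variable {N m : ℕ} {M : Type} [MetricSpace M] [CompactSpace M] {𝒜 : SDist (N + 1) M} {hB : Bl M}

theorem coeff_Asr {R : Type*} [CommRing R] [Algebra ℝ R] (b : ℝ) (u v : R) :
    PowerSeries.coeff 1 (Asr b u v) = b • (u + v) := by
  unfold Asr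
  rw [map_add, map_add, PowerSeries.coeff_C_mul, PowerSeries.coeff_C_mul, PowerSeries.coeff_one, PowerSeries.coeff_one_X,
    PowerSeries.coeff_X_pow]
  simp

/-- `p_2(V) = b (u_1 + u_2)` on the level of forms -/
theorem p2_PV (D : GeoD 𝒜 hB 7 m) (t : TEmb 𝒜) {b : ℝ}
    (c3 : PTd 4 (TE.PV_idem t hB D.hk D.hL) = Asr b D.coh.k1 D.coh.k2) :
    ∃ ρ : Om (spF 𝒜), Deg 7 ρ ∧ p2 (GO (spF 𝒜)) ((TE.PV t hB D.hk D.hL).map (FO (spF 𝒜)).f) =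
      b • ((pF1 𝒜).pull D.u + (pF2 𝒜).pull D.u) + dO _ ρ := by
  have hP := TE.PV_idem t hB D.hk D.hL
  have hs : (TE.PV t hB D.hk D.hL)ᵀ = TE.PV t hB D.hk D.hL := TE.PV_symm t hB D.hk D.hL
  have hI := (FO (spF 𝒜)).idem hP
  have e1 := cf_four (φ := FO (spF 𝒜)) hP hs
  have hpi : ((2 * π) ^ 4 : ℝ) ≠ 0 := by positivity
  have su : sO _ D.u = D.u := D.coh.su
  obtain ⟨Y, hY⟩ : ∃ Y : (GO (spF 𝒜)).Zc, Y = ((2 * π) ^ 4)⁻¹ • GDA.cf hI 4 := ⟨_, rfl⟩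
  have e2 : (Y : Om (spF 𝒜)) = p2 (GO (spF 𝒜)) ((TE.PV t hB D.hk D.hL).map (FO (spF 𝒜)).f) := by
    rw [hY]
    change ((2 * π) ^ 4)⁻¹ • ((GDA.cf hI 4 : (GO (spF 𝒜)).Zc) : Om (spF 𝒜)) = _
    rw [e1, smul_smul, inv_mul_cancel₀ hpi, one_smul]
  have e3 : Ideal.Quotient.mk (GO (spF 𝒜)).Ex Y = b • (D.coh.k1 + D.coh.k2) := by
    have h1 : Ideal.Quotient.mk (GO (spF 𝒜)).Ex Y = ((2 * π) ^ 4)⁻¹ • GDA.hc hI 4 := by
      rw [hY, ← GDA.mk_cf]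
      rfl
    have h2 := congrArg (PowerSeries.coeff 1) c3
    rw [coeff_Asr, PTd, coeff_PTs] at h2
    rw [h1, ← h2]
    rfl
  have h1 : D.coh.k1 + D.coh.k2 = GDA.cl (G := GO (spF 𝒜)) ((pF1 𝒜).pull D.u + (pF2 𝒜).pull D.u)
      (by show sO _ _ = _; rw [map_add, pull_s, pull_s, su])
      (by show dO _ _ = _; rw [map_add, pull_d, pull_d, D.du, map_zero, map_zero, add_zero]) := rfl
  have e4 : GDA.cl (G := GO (spF 𝒜)) (Y : Om (spF 𝒜)) Y.2.1 Y.2.2 =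
      GDA.cl (G := GO (spF 𝒜)) (b • ((pF1 𝒜).pull D.u + (pF2 𝒜).pull D.u))
        (by show sO _ _ = _; rw [map_smul, map_add, pull_s, pull_s, su])
        (by show dO _ _ = _; rw [map_smul, map_add, pull_d, pull_d, D.du, map_zero, map_zero, add_zero, smul_zero]) := by
    have h3 : GDA.cl (G := GO (spF 𝒜)) (Y : Om (spF 𝒜)) Y.2.1 Y.2.2 = b • (D.coh.k1 + D.coh.k2) := e3
    exact h3.trans (congrArg (fun z => b • z) h1)
  obtain ⟨ξ, hξ⟩ := GDA.cl_eq.1 e4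
  rw [e2] at hξ
  have h5 : Deg (7 + 1) (p2 (GO (spF 𝒜)) ((TE.PV t hB D.hk D.hL).map (FO (spF 𝒜)).f)) := by
    have g2 := OT.Deg_ps (TE.PV t hB D.hk D.hL) 2
    have g4 := OT.Deg_ps (TE.PV t hB D.hk D.hL) 4
    have g := Deg_smul (1 / (2 * π) ^ 4) (Deg_sub (Deg_smul (1 / 8) (Deg_mul g2 g2)) (Deg_smul (1 / 4) g4))
    exact g
  have h6 : Deg (7 + 1) (b • ((pF1 𝒜).pull D.u + (pF2 𝒜).pull D.u)) :=
    Deg_smul _ (Deg_add (Deg_pull _ D.Du) (Deg_pull _ D.Du))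
  obtain ⟨ρ, h7, h8⟩ := exists_prim_Deg
    (w := p2 (GO (spF 𝒜)) ((TE.PV t hB D.hk D.hL).map (FO (spF 𝒜)).f) - b • ((pF1 𝒜).pull D.u + (pF2 𝒜).pull D.u)) (ξ := ξ)
    (by rw [hξ]; exact add_sub_cancel_left _ _) (Deg_sub h5 h6)
  refine ⟨ρ, h7, ?_⟩
  rw [← h8, add_sub_cancel]

/-- **integrality of `b`** -/
theorem b_int (D : GeoD 𝒜 hB 7 m) (t : TEmb 𝒜) {b : ℝ}
    (c3 : PTd 4 (TE.PV_idem t hB D.hk D.hL) = Asr b D.coh.k1 D.coh.k2) {g : (spVF 𝒜 7).pt → ℝ} (hU : UD 𝒜 hB 7 D.u g) :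
    ∃ j : ℤ, b = j := by
  obtain ⟨ρ, h1, h2⟩ := p2_PV D t c3
  have hn : 9 ≤ N + 1 := by
    have h3 := D.dim
    have h4 := D.two
    omega
  exact exists_b7 hn hB D.hk D.f0.1.1 hU (TE.tJ_mul t _) (fun x i j => TE.PV_cF t hB D.hk D.hL _ x i j) h1 h2

end Pool.Agent.Lib.MP_ccbbf6_gt.L6
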