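import Pool.Agent.Lib.MP_ccbbf6_gt.L5.Gam

/-!
# Level 6, X3a: generalised binomial series and their partial sums (helper38)

`ch a k` binomial coefficients for a real `a`, `Z a = (1 + X) ^ a`, `geo 1 = 1/(1 - X)`.
* `sub_x` : `[X^N] (1 + X)^γ / (1 + 2 X)^r = (-1)^N [X^N] (1 + X)^(N - 1 + r - γ) / (1 - X)^r`;
* `P_nonneg` : the partial sums of `ch γ` are nonnegative for `γ > -1`;
* `key_pos` : `(2 γ + 2) [X^N] Z γ / (1 - X) < 4 [X^N] Z γ / (1 - X)^3` for `γ = (N + 1) / 2`.
-/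

set_option autoImplicit false

namespace Pool.Agent.Lib.MP_ccbbf6_gt.L6

open PowerSeries L5

/-- generalised binomial coefficients -/
noncomputable def ch (a : ℝ) : ℕ → ℝ
  | 0 => 1
  | k + 1 => ch a k * (a - k) / (k + 1)

theorem ch_zero (a : ℝ) : ch a 0 = 1 := rfl

theorem ch_succ (a : ℝ) (k : ℕ) : ch a (k + 1) = ch a k * (a - k) / (k + 1) := rfl

theorem ch_succ' (a : ℝ) (k : ℕ) : ((k : ℝ) + 1) * ch a (k + 1) = ch a k * (a - k) := by
  have h : ((k : ℝ) + 1) ≠ 0 := by positivity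
  rw [ch_succ]
  field_simp

theorem ch_pascal (a : ℝ) (k : ℕ) : ch (a + 1) (k + 1) = ch a (k + 1) + ch a k := by
  induction k with
  | zero =>
    rw [ch_succ, ch_succ, ch_zero, ch_zero]
    push_cast
    ring
  | succ k ih =>
    have h1 := ch_succ' a k
    have h : ((k : ℝ) + 1 + 1) ≠ 0 := by positivity
    rw [ch_succ (a + 1) (k + 1), ih, ch_succ a (k + 1)]
    push_cast
    field_simp
    linear_combination -h1

theorem ch_absorb (a : ℝ) (k : ℕ) : ((k : ℝ) + 1) * ch (a + 1) (k + 1) = (a + 1) * ch a k := by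
  have h1 := ch_succ' a k
  rw [ch_pascal]
  linear_combination h1

theorem ch_neg (N : ℕ) (γ : ℝ) : ch γ N = (-1) ^ N * ch (N - 1 - γ) N := by
  induction N with
  | zero =>
    rw [ch_zero, ch_zero]
    norm_num
  | succ N ih =>
    have h1 := ch_absorb (N - 1 - γ) N
    have h2 : (N : ℝ) - 1 - γ + 1 = ((N + 1 : ℕ) : ℝ) - 1 - γ := by
      push_cast
      ring
    rw [h2] at h1
    have h3 : ((N : ℝ) + 1) ≠ 0 := by positivity
    have h4 : ch (((N + 1 : ℕ) : ℝ) - 1 - γ) (N + 1) =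
        (((N + 1 : ℕ) : ℝ) - 1 - γ) * ch (N - 1 - γ) N / (N + 1) := by
      rw [eq_div_iff h3]
      linear_combination h1
    rw [h4, ch_succ, ih]
    push_cast
    field_simp
    ring

/-- `ch a k > 0` for `k < a + 1` -/
theorem ch_pos {a : ℝ} {k : ℕ} (h : (k : ℝ) < a + 1) : 0 < ch a k := by
  induction k with
  | zero =>
    rw [ch_zero]
    exact one_pos
  | succ k ih =>
    push_cast at h
    have h1 := ih (by linarith)
    rw [ch_succ]
    have h2 : 0 < a - k := by linarith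
    positivity

/-- `(1 + X) ^ a` -/
noncomputable def Z (a : ℝ) : PowerSeries ℝ := PowerSeries.mk (ch a)

theorem coeff_Z (a : ℝ) (k : ℕ) : coeff k (Z a) = ch a k := by
  rw [Z, coeff_mk]

theorem Z_zero (a : ℝ) : constantCoeff (Z a) = 1 := by
  rw [← coeff_zero_eq_constantCoeff_apply, coeff_Z, ch_zero]

theorem Z_succ (a : ℝ) : Z (a + 1) = (1 + X) * Z a := by
  ext k
  rw [add_mul, one_mul, map_add, coeff_Z, coeff_Z]
  rcases k with _ | k
  · rw [coeff_zero_X_mul, ch_zero, ch_zero, add_zero]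
  · rw [coeff_succ_X_mul, coeff_Z, ch_pascal]

theorem Z_der (a : ℝ) : derivative ℝ (Z (a + 1)) = C (a + 1) * Z a := by
  ext k
  rw [coeff_derivative, coeff_C_mul, coeff_Z, coeff_Z]
  linear_combination ch_absorb a k

theorem geo_zero (a : ℝ) : constantCoeff (geo a) = 1 := by
  rw [← coeff_zero_eq_constantCoeff_apply, geo, coeff_mk, pow_zero]

theorem geo1_mul : (1 - X) * geo 1 = 1 := by
  have h := geo_mul 1
  rwa [map_one, one_mul] at h

theorem geo2_mul : (1 + 2 * X) * geo (-2) = 1 := by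
  have h := geo_mul (-2)
  have h2 : (C (-2 : ℝ) : PowerSeries ℝ) = -2 := by
    rw [map_neg, map_ofNat]
  rw [h2] at h
  linear_combination h

/-- the substitution `X = t / (1 + t)` up to sign -/
theorem sub_x (r N : ℕ) (γ δ : ℝ) (h : δ = N - 1 + r - γ) :
    coeff N (Z γ * geo (-2) ^ r) = (-1) ^ N * coeff N (Z δ * geo 1 ^ r) := by
  induction r generalizing N γ δ with
  | zero =>
    rw [pow_zero, pow_zero, mul_one, mul_one, coeff_Z, coeff_Z, ch_neg N γ, h]
    push_cast
    rw [add_zero]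
  | succ r ihr =>
    induction N generalizing γ δ with
    | zero =>
      rw [coeff_zero_eq_constantCoeff_apply, coeff_zero_eq_constantCoeff_apply, map_mul, map_mul,
        map_pow, map_pow, geo_zero, geo_zero, Z_zero, Z_zero]
      norm_num
    | succ N ihN =>
      obtain ⟨δ, rfl⟩ : ∃ d, δ = d + 1 := ⟨δ - 1, by ring⟩
      have h1 : δ = N - 1 + (r + 1 : ℕ) - γ := by
        push_cast at h ⊢
        linarith
      have h2 : δ = (N + 1 : ℕ) - 1 + r - γ := by
        push_cast at h ⊢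
        linarith
      have e1 := ihN γ δ h1
      have e2 := ihr (N + 1) γ δ h2
      have e3 : Z γ * geo (-2) ^ (r + 1) = Z γ * geo (-2) ^ r - C 2 * (X * (Z γ * geo (-2) ^ (r + 1))) := by
        rw [map_ofNat]
        linear_combination (Z γ * geo (-2) ^ r) * geo2_mul
      have e4 : Z (δ + 1) * geo 1 ^ (r + 1) = Z δ * geo 1 ^ r + C 2 * (X * (Z δ * geo 1 ^ (r + 1))) := by
        rw [map_ofNat, Z_succ]
        linear_combination (Z δ * geo 1 ^ r) * geo1_mul
      rw [e3, e4, map_sub, map_add, coeff_C_mul, coeff_C_mul, coeff_succ_X_mul, coeff_succ_X_mul,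
        e1, e2]
      ring

/-- partial sums -/
theorem P_succ (γ : ℝ) (N : ℕ) :
    coeff (N + 1) (Z γ * geo 1) = coeff N (Z γ * geo 1) + ch γ (N + 1) := by
  have e : Z γ * geo 1 = X * (Z γ * geo 1) + Z γ := by
    linear_combination (Z γ) * geo1_mul
  conv_lhs => rw [e]
  rw [map_add, coeff_succ_X_mul, coeff_Z]

theorem P_zero (γ : ℝ) : coeff 0 (Z γ * geo 1) = 1 := by
  rw [coeff_zero_eq_constantCoeff_apply, map_mul, Z_zero, geo_zero, mul_one]

theorem P_aux {γ : ℝ} (hγ : -1 < γ) (N : ℕ) :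
    0 ≤ coeff N (Z γ * geo 1) ∧ ch γ N ≤ coeff N (Z γ * geo 1) ∧ ((N : ℝ) ≤ γ → 0 ≤ ch γ N) := by
  induction N with
  | zero =>
    rw [P_zero, ch_zero]
    exact ⟨zero_le_one, le_rfl, fun _ => zero_le_one⟩
  | succ N ih =>
    obtain ⟨h1, h2, h3⟩ := ih
    have hN : (0 : ℝ) < (N : ℝ) + 1 := by positivity
    have h4 : ((N + 1 : ℕ) : ℝ) ≤ γ → 0 ≤ ch γ (N + 1) := by
      intro h
      push_cast at h
      exact (ch_pos (by push_cast; linarith)).le
    have h5 : 0 ≤ coeff N (Z γ * geo 1) + ch γ (N + 1) := by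
      rcases le_or_gt 0 (ch γ (N + 1)) with h | h
      · exact add_nonneg h1 h
      · -- the last term is negative
        have h6 : γ < N := by
          by_contra h7
          have h8 : 0 ≤ ch γ N := h3 (not_lt.1 h7)
          have h9 : 0 ≤ ch γ (N + 1) := by
            rw [ch_succ]
            have : 0 ≤ γ - N := by linarith [not_lt.1 h7]
            positivity
          linarith
        have h7 : 0 < ch γ N := by
          by_contra h8
          have h9 : 0 ≤ ch γ (N + 1) := by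
            rw [ch_succ]
            have h10 : 0 ≤ ch γ N * (γ - N) := mul_nonneg_of_nonpos_of_nonpos (not_lt.1 h8) (by linarith)
            positivity
          linarith
        have h8 : -ch γ N ≤ ch γ (N + 1) := by
          rw [ch_succ, le_div_iff₀ hN]
          nlinarith
        linarith
    refine ⟨?_, ?_, h4⟩
    · rw [P_succ]
      exact h5
    · rw [P_succ]
      linarith

theorem P_nonneg {γ : ℝ} (hγ : -1 < γ) (N : ℕ) : 0 ≤ coeff N (Z γ * geo 1) := (P_aux hγ N).1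

/-- sums of partial sums -/
theorem PP_pos {γ : ℝ} (hγ : -1 < γ) (N : ℕ) : 0 < coeff N (Z γ * geo 1 ^ 2) := by
  induction N with
  | zero =>
    rw [coeff_zero_eq_constantCoeff_apply, map_mul, map_pow, Z_zero, geo_zero]
    norm_num
  | succ N ih =>
    have e : Z γ * geo 1 ^ 2 = X * (Z γ * geo 1 ^ 2) + Z γ * geo 1 := by
      linear_combination (Z γ * geo 1) * geo1_mul
    rw [e, map_add, coeff_succ_X_mul]
    exact add_pos_of_pos_of_nonneg ih (P_nonneg hγ _)

theorem geo1_der : derivative ℝ (geo 1) = geo 1 ^ 2 := by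
  have h := congrArg (derivative ℝ) geo1_mul
  rw [der_mul, map_sub, derivative_X, ← map_one C, derivative_C, zero_sub, map_one] at h
  linear_combination (geo 1) * h + (-derivative ℝ (geo 1)) * geo1_mul

/-- **the key identity** -/
theorem key_eq (N : ℕ) (γ : ℝ) (hγ : 2 * γ = N + 1) :
    4 * coeff N (Z γ * geo 1 ^ 3) - (2 * γ + 2) * coeff N (Z γ * geo 1) =
      coeff N (Z γ * geo 1 ^ 2) + (3 * γ + 2) * coeff N ((X : PowerSeries ℝ) * (Z γ * geo 1 ^ 2)) := by
  have e1 : coeff N (X * derivative ℝ (Z (γ + 1) * geo 1 ^ 2)) =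
      (N : ℝ) * coeff N (Z (γ + 1) * geo 1 ^ 2) := by
    rcases N with _ | N
    · rw [coeff_zero_X_mul]
      simp
    · rw [coeff_succ_X_mul, coeff_derivative]
      push_cast
      ring
  have hN : (C (N : ℝ) : PowerSeries ℝ) = 2 * C γ - 1 := by
    have : (N : ℝ) = 2 * γ - 1 := by linarith
    rw [this, map_sub, map_mul, map_ofNat, map_one]
  have e2 : C 4 * (Z γ * geo 1 ^ 3) - C (2 * γ + 2) * (Z γ * geo 1) - Z γ * geo 1 ^ 2 -
      C (3 * γ + 2) * (X * (Z γ * geo 1 ^ 2)) =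
      X * derivative ℝ (Z (γ + 1) * geo 1 ^ 2) - C (N : ℝ) * (Z (γ + 1) * geo 1 ^ 2) := by
    rw [der_mul, Z_der, derivative_pow, geo1_der, Z_succ, hN]
    simp only [map_add, map_mul, map_ofNat, map_one, Nat.cast_ofNat, Nat.add_one_sub_one, pow_one]
    have hg := geo1_mul
    obtain ⟨g, hg'⟩ : ∃ g, g = geo 1 := ⟨_, rfl⟩
    obtain ⟨z, hz⟩ : ∃ z, z = Z γ := ⟨_, rfl⟩
    obtain ⟨c, hc⟩ : ∃ c : PowerSeries ℝ, c = C γ := ⟨_, rfl⟩
    rw [← hg'] at hg ⊢
    rw [← hz, ← hc]
    have h2 : X * g = g - 1 := by linear_combination -hg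
    have h3 : X * g ^ 2 = g ^ 2 - g := by linear_combination g * h2
    have h4 : X * g ^ 3 = g ^ 3 - g ^ 2 := by linear_combination g ^ 2 * h2
    have h5 : X ^ 2 * g ^ 3 = g ^ 3 - 2 * g ^ 2 + g := by linear_combination X * h4 + h4 - h3
    linear_combination (-2 * z) * h4 + (-2 * z) * h5 + (-(2 * c + 4) * z) * h3
  have e3 := congrArg (coeff N) e2
  simp only [map_sub, coeff_C_mul, e1] at e3
  linarith

theorem key_pos (N : ℕ) (γ : ℝ) (hγ : 2 * γ = N + 1) :
    (2 * γ + 2) * coeff N (Z γ * geo 1) < 4 * coeff N (Z γ * geo 1 ^ 3) := by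
  have hN : (0 : ℝ) ≤ N := Nat.cast_nonneg N
  have h0 : -1 < γ := by linarith
  have h1 := key_eq N γ hγ
  have h2 := PP_pos h0 N
  have h3 : 0 ≤ coeff N ((X : PowerSeries ℝ) * (Z γ * geo 1 ^ 2)) := by
    rcases N with _ | N
    · rw [coeff_zero_X_mul]
    · rw [coeff_succ_X_mul]
      exact (PP_pos h0 N).le
  have h4 : 0 ≤ (3 * γ + 2) * coeff N ((X : PowerSeries ℝ) * (Z γ * geo 1 ^ 2)) := mul_nonneg (by linarith) h3
  linarith

end Pool.Agent.Lib.MP_ccbbf6_gt.L6
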