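import Pool.Agent.Lib.MP_ccbbf6_gt.L6.X3a

/-!
# Level 6, X3b: the expansion of `(1 + b X + X^2)^a` (helper38)

`E a b = (1 + b X + X^2)^a`, `E_mul`: the coefficients of `E a b * Q(b X)`.
-/

set_option autoImplicit false

namespace Pool.Agent.Lib.MP_ccbbf6_gt.L6

open PowerSeries L5

/-- partial sums of the expansion of `(1 + b X + X^2)^a` in powers of `X^2` -/
noncomputable def Et (a b : ℝ) (N : ℕ) : PowerSeries ℝ :=
  ∑ i ∈ Finset.range N, C (ch a i) * (X ^ (2 * i) * rescale b (Z (a - i)))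

theorem Et_succ (a b : ℝ) (N : ℕ) :
    Et a b (N + 1) = Et a b N + C (ch a N) * (X ^ (2 * N) * rescale b (Z (a - N))) := by
  rw [Et, Finset.sum_range_succ, ← Et]

/-- `(1 + b X + X^2)^a` -/
noncomputable def E (a b : ℝ) : PowerSeries ℝ := PowerSeries.mk fun n => coeff n (Et a b (n + 1))

theorem coeff_Et {a b : ℝ} {n N M : ℕ} (h : n < 2 * N) (hM : N ≤ M) :
    coeff n (Et a b M) = coeff n (Et a b N) := by
  induction M, hM using Nat.le_induction with
  | base => rfl
  | succ M hM ih =>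
    rw [Et_succ, map_add, ih, coeff_C_mul, coeff_X_pow_mul', if_neg (by omega), mul_zero, add_zero]

theorem coeff_E {a b : ℝ} {n N : ℕ} (h : n < 2 * N) : coeff n (E a b) = coeff n (Et a b N) := by
  rw [E, coeff_mk]
  rcases le_total N (n + 1) with h1 | h1
  · exact coeff_Et h h1
  · exact (coeff_Et (by omega) h1).symm

theorem E_zero (a b : ℝ) : constantCoeff (E a b) = 1 := by
  rw [← coeff_zero_eq_constantCoeff_apply, coeff_E (N := 1) (by omega), Et, Finset.sum_range_one, ch_zero,
    map_one, one_mul, mul_zero, pow_zero, one_mul, coeff_rescale, pow_zero, one_mul, coeff_Z, ch_zero]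

theorem rescale_Z_succ (a b : ℝ) :
    rescale b (Z (a + 1)) = (1 + C b * X) * rescale b (Z a) := by
  rw [Z_succ, map_mul, map_add, map_one, rescale_X]

theorem rescale_C' (b c : ℝ) : rescale b (C c) = C c := by
  ext k
  rw [coeff_rescale, coeff_C]
  split_ifs with h
  · rw [h, pow_zero, one_mul]
  · rw [mul_zero]

theorem rescale_der (b : ℝ) (f : PowerSeries ℝ) :
    derivative ℝ (rescale b f) = C b * rescale b (derivative ℝ f) := by
  ext k
  rw [coeff_derivative, coeff_rescale, coeff_C_mul, coeff_rescale, coeff_derivative]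
  ring

theorem Et_pascal (a b : ℝ) (N : ℕ) : (1 + C b * X + X ^ 2) * Et a b N =
    Et (a + 1) b (N + 1) - C (ch a N) * (X ^ (2 * N) * rescale b (Z (a + 1 - N))) := by
  induction N with
  | zero =>
    rw [Et_succ, Et, Et, Finset.sum_range_zero, Finset.sum_range_zero, ch_zero, ch_zero, zero_add, mul_zero,
      sub_self]
  | succ N ih =>
    rw [Et_succ a b N, mul_add, ih, Et_succ (a + 1) b (N + 1)]
    have h1 : a + 1 - (N : ℝ) = (a - N) + 1 := by ring
    have h2 : a + 1 - ((N + 1 : ℕ) : ℝ) = a - N := by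
      push_cast
      ring
    have h3 : 2 * (N + 1) = 2 * N + 2 := by ring
    rw [h1, h2, rescale_Z_succ, ch_pascal, map_add, h3, pow_add]
    ring

theorem E_pascal (a b : ℝ) : (1 + C b * X + X ^ 2) * E a b = E (a + 1) b := by
  ext n
  have h1 : coeff n ((1 + C b * X + X ^ 2) * E a b) = coeff n ((1 + C b * X + X ^ 2) * Et a b (n + 1)) := by
    rw [coeff_mul, coeff_mul]
    refine Finset.sum_congr rfl fun x hx => ?_
    have := Finset.HasAntidiagonal.mem_antidiagonal.1 hx
    rw [coeff_E (N := n + 1) (by omega)]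
  rw [h1, Et_pascal, map_sub, coeff_C_mul, coeff_X_pow_mul', if_neg (by omega), mul_zero, sub_zero,
    coeff_E (N := n + 1 + 1) (by omega)]

theorem Et_der (a b : ℝ) (N : ℕ) : derivative ℝ (Et (a + 1) b (N + 1)) =
    C (a + 1) * ((C b + 2 * X) * Et a b N + C (b * ch a N) * (X ^ (2 * N) * rescale b (Z (a - N)))) := by
  induction N with
  | zero =>
    rw [Et_succ, Et, Et, Finset.sum_range_zero, Finset.sum_range_zero, ch_zero, ch_zero, zero_add, mul_zero,
      pow_zero, one_mul, map_one, one_mul, Nat.cast_zero, sub_zero, rescale_der, Z_der, map_mul, rescale_C',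
      sub_zero, mul_zero, zero_add, mul_one, one_mul]
    ring
  | succ N ih =>
    have h2 : a + 1 - ((N + 1 : ℕ) : ℝ) = a - N := by
      push_cast
      ring
    have h3 := ch_absorb a N
    have h4 := ch_succ' (a + 1) (N + 1)
    have h5 := ch_absorb a (N + 1)
    obtain ⟨w1, hw1⟩ : ∃ w, w = rescale b (Z (a - N)) := ⟨_, rfl⟩
    obtain ⟨w0, hw0⟩ : ∃ w, w = rescale b (Z (a - ((N + 1 : ℕ) : ℝ))) := ⟨_, rfl⟩
    have hd : derivative ℝ w1 = C b * (C (a - N) * w0) := by
      have h6 := Z_der (a - ((N + 1 : ℕ) : ℝ))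
      have h7 : a - ((N + 1 : ℕ) : ℝ) + 1 = a - N := by
        push_cast
        ring
      rw [h7] at h6
      rw [hw1, rescale_der, h6, map_mul, rescale_C', hw0]
    -- the coefficients
    have k1 : (C (ch (a + 1) (N + 1)) : PowerSeries ℝ) * ((2 * N + 2 : ℕ) : PowerSeries ℝ) =
        C (a + 1) * (2 * C (ch a N)) := by
      rw [← map_natCast C, ← map_ofNat C 2, ← map_mul, ← map_mul, ← map_mul]
      congr 1
      push_cast
      linear_combination 2 * h3
    have k2 : (C (ch (a + 1) (N + 1)) : PowerSeries ℝ) * C (a - N) = C (a + 1) * C (ch a (N + 1)) := by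
      rw [← map_mul, ← map_mul]
      congr 1
      push_cast at h4 h5
      linear_combination -h4 + h5
    rw [Et_succ (a + 1) b (N + 1), map_add, ih, Et_succ a b N, h2, ← hw1, ← hw0,
      show 2 * (N + 1) = 2 * N + 2 by ring, der_mul, der_mul, derivative_C, derivative_pow,
      derivative_X, hd, map_mul, map_mul, show 2 * N + 2 - 1 = 2 * N + 1 by omega]
    linear_combination (X ^ (2 * N + 1) * w1) * k1 + (X ^ (2 * N + 2) * w0 * C b) * k2

theorem E_der (a b : ℝ) : derivative ℝ (E (a + 1) b) = C (a + 1) * ((C b + 2 * X) * E a b) := by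
  ext n
  have h1 : coeff n ((C b + 2 * X) * E a b) = coeff n ((C b + 2 * X) * Et a b (n + 1)) := by
    rw [coeff_mul, coeff_mul]
    refine Finset.sum_congr rfl fun x hx => ?_
    have := Finset.HasAntidiagonal.mem_antidiagonal.1 hx
    rw [coeff_E (N := n + 1) (by omega)]
  have h2 := congrArg (coeff n) (Et_der a b (n + 1))
  rw [coeff_derivative, coeff_C_mul, map_add, coeff_C_mul, coeff_X_pow_mul', if_neg (by omega), mul_zero,
    add_zero] at h2
  rw [coeff_derivative, coeff_C_mul, h1, coeff_E (N := n + 1 + 1) (by omega)]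
  exact h2

theorem E_ode (a b : ℝ) : (1 + C b * X + X ^ 2) * derivative ℝ (E a b) = C a * ((C b + 2 * X) * E a b) := by
  obtain ⟨a, rfl⟩ : ∃ a', a = a' + 1 := ⟨a - 1, by ring⟩
  rw [E_der, ← E_pascal]
  ring

theorem S_inv (b : ℝ) : (1 + C b * X + X ^ 2) * (1 + C b * X + X ^ 2)⁻¹ = (1 : PowerSeries ℝ) :=
  PowerSeries.mul_inv_cancel _ (by simp)

theorem S_der (b : ℝ) : derivative ℝ (1 + C b * X + X ^ 2) = C b + 2 * X := by
  rw [map_add, map_add, der_mul, derivative_C, derivative_pow, derivative_X, ← map_one C, derivative_C, map_one]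
  simp only [Nat.add_one_sub_one, pow_one, Nat.cast_ofNat]
  ring

theorem E_sq (a b : ℝ) (M : ℕ) (h : 2 * a = M) : E a b ^ 2 = (1 + C b * X + X ^ 2) ^ M := by
  have hS := S_inv b
  obtain ⟨S, hS'⟩ : ∃ S : PowerSeries ℝ, S = 1 + C b * X + X ^ 2 := ⟨_, rfl⟩
  have h0 := E_ode a b
  have h1 := S_der b
  rw [← hS'] at hS h0 h1 ⊢
  have hM : (C (2 * a) : PowerSeries ℝ) = (M : PowerSeries ℝ) := by rw [h, map_natCast]
  have e1 : derivative ℝ (E a b) = E a b * (C a * ((C b + 2 * X) * S⁻¹)) := by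
    linear_combination S⁻¹ * h0 - derivative ℝ (E a b) * hS
  have e2 : derivative ℝ S = S * ((C b + 2 * X) * S⁻¹) := by
    rw [h1]
    linear_combination (-(C b + 2 * X)) * hS
  refine sol_unique (der_pow e1 2) ?_ ?_
  · rw [der_pow e2 M, ← hM, map_mul, map_ofNat]
    push_cast
    ring
  · rw [map_pow, map_pow, E_zero, hS']
    simp

theorem E_mul (a b : ℝ) (N : ℕ) (Q : PowerSeries ℝ) : coeff N (E a b * rescale b Q) =
    ∑ i ∈ Finset.range (N / 2 + 1), ch a i * (b ^ (N - 2 * i) * coeff (N - 2 * i) (Z (a - i) * Q)) := by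
  have h1 : coeff N (E a b * rescale b Q) = coeff N (Et a b (N / 2 + 1) * rescale b Q) := by
    rw [coeff_mul, coeff_mul]
    refine Finset.sum_congr rfl fun x hx => ?_
    have := Finset.HasAntidiagonal.mem_antidiagonal.1 hx
    rw [coeff_E (N := N / 2 + 1) (by omega)]
  rw [h1, Et, Finset.sum_mul, map_sum]
  refine Finset.sum_congr rfl fun i hi => ?_
  have hi' := Finset.mem_range.1 hi
  have e : C (ch a i) * (X ^ (2 * i) * rescale b (Z (a - i))) * rescale b Q =
      C (ch a i) * (X ^ (2 * i) * rescale b (Z (a - i) * Q)) := by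
    rw [map_mul]
    ring
  rw [e, coeff_C_mul, coeff_X_pow_mul', if_pos (by omega), coeff_rescale]

end Pool.Agent.Lib.MP_ccbbf6_gt.L6
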