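import Pool.Agent.Lib.MP_ccbbf6_gt.L6.X3b

/-!
# Level 6, X3c: the coefficient of index `n` of `C0 * (X d/dX)^2 log C0` (helper38)

`C0 = (1 + b X + X^2)^((n + 2) / 2) / (1 + 2 b X)`.  With `L = X C0' / C0` and `D = n C0 - X C0'`
the coefficient of index `n` of `D^2 / C0` is minus the one of `C0 * X L'`.
* `tl_even` : it is not zero for even `n`;  `tl_odd` : for odd `n` it is zero only for `b = 0`.
-/

set_option autoImplicit false

namespace Pool.Agent.Lib.MP_ccbbf6_gt.L6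

open PowerSeries L5

/-! ### the coefficients -/

theorem ch_ratio (a : ℝ) (i : ℕ) : ch (a + 1) i * (a + 1 - i) = (a + 1) * ch a i := by
  rw [← ch_succ', ch_absorb]

theorem coeff_X_zero (f : PowerSeries ℝ) : coeff 0 ((X : PowerSeries ℝ) * f) = 0 := coeff_zero_X_mul _

theorem L1 (j : ℕ) : coeff j (Z (j / 2 - 1) * (X * geo (-2))) =
    -(-1) ^ j * coeff j ((X : PowerSeries ℝ) * (Z (j / 2) * geo 1)) := by
  rcases j with _ | j
  · rw [coeff_X_zero, mul_left_comm, coeff_X_zero, mul_zero]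
  · have h := sub_x 1 j (((j + 1 : ℕ) : ℝ) / 2 - 1) (((j + 1 : ℕ) : ℝ) / 2) (by push_cast; ring)
    rw [pow_one, pow_one] at h
    rw [mul_left_comm, coeff_succ_X_mul, coeff_succ_X_mul, h]
    ring

theorem L3 (j : ℕ) : coeff j (Z (j / 2 + 1) * (X * geo (-2) ^ 3)) =
    -(-1) ^ j * coeff j ((X : PowerSeries ℝ) * (Z (j / 2) * geo 1 ^ 3)) := by
  rcases j with _ | j
  · rw [coeff_X_zero, mul_left_comm, coeff_X_zero, mul_zero]
  · have h := sub_x 3 j (((j + 1 : ℕ) : ℝ) / 2 + 1) (((j + 1 : ℕ) : ℝ) / 2) (by push_cast; ring)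
    rw [mul_left_comm, coeff_succ_X_mul, coeff_succ_X_mul, h]
    ring

/-- the third coefficient -/
noncomputable def dj (j : ℕ) : ℝ := 4 * coeff j (Z (j / 2) * geo 1) -
  coeff j ((X : PowerSeries ℝ) * (Z (j / 2 - 1) * geo 1))

theorem L2 (j : ℕ) : coeff j (Z (j / 2) * ((4 + X) * geo (-2))) = (-1) ^ j * dj j := by
  have h1 := sub_x 1 j ((j : ℝ) / 2) (j / 2) (by push_cast; ring)
  rw [pow_one, pow_one] at h1
  have e : Z ((j : ℝ) / 2) * ((4 + X) * geo (-2)) =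
      C 4 * (Z (j / 2) * geo (-2)) + X * (Z (j / 2) * geo (-2)) := by
    rw [map_ofNat]
    ring
  rw [e, map_add, coeff_C_mul, h1, dj]
  rcases j with _ | j
  · rw [coeff_X_zero, coeff_X_zero]
    ring
  · have h := sub_x 1 j (((j + 1 : ℕ) : ℝ) / 2) (((j + 1 : ℕ) : ℝ) / 2 - 1) (by push_cast; ring)
    rw [pow_one, pow_one] at h
    rw [coeff_succ_X_mul, coeff_succ_X_mul, h]
    ring

theorem dj_zero : dj 0 = 4 := by
  rw [dj, coeff_X_zero, P_zero]
  ring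

theorem dj_nonneg (j : ℕ) : 0 ≤ dj j := by
  rcases j with _ | j
  · rw [dj_zero]
    norm_num
  · have hg : (-1 : ℝ) < ((j + 1 : ℕ) : ℝ) / 2 - 1 := by
      push_cast
      have : (0 : ℝ) ≤ j := Nat.cast_nonneg j
      linarith
    have h1 := P_nonneg hg (j + 1)
    have h2 := P_nonneg hg j
    have e : Z (((j + 1 : ℕ) : ℝ) / 2) = (1 + X) * Z (((j + 1 : ℕ) : ℝ) / 2 - 1) := by
      rw [← Z_succ]
      congr 1
      ring
    have e2 : (1 + X) * Z (((j + 1 : ℕ) : ℝ) / 2 - 1) * geo 1 =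
        Z (((j + 1 : ℕ) : ℝ) / 2 - 1) * geo 1 + X * (Z (((j + 1 : ℕ) : ℝ) / 2 - 1) * geo 1) := by ring
    rw [dj, e, e2, map_add, coeff_succ_X_mul]
    linarith

/-- the first and the third coefficient together -/
noncomputable def wj (n i : ℕ) : ℝ :=
  2 * (ch (n / 2 + 1) i * coeff (n - 2 * i) ((X : PowerSeries ℝ) * (Z ((n - 2 * i : ℕ) / 2) * geo 1 ^ 3))) -
    (n / 2 + 1) * (ch (n / 2 - 1) i * coeff (n - 2 * i) ((X : PowerSeries ℝ) * (Z ((n - 2 * i : ℕ) / 2) * geo 1)))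

theorem wj_pos {n i : ℕ} (h : 2 * i < n) : 0 < wj n i := by
  obtain ⟨N, hN⟩ : ∃ N, n - 2 * i = N + 1 := ⟨n - 2 * i - 1, by omega⟩
  have hn : (n : ℝ) = N + 1 + 2 * i := by
    have : n = N + 1 + 2 * i := by omega
    rw [this]
    push_cast
    ring
  have hN0 : (0 : ℝ) ≤ N := Nat.cast_nonneg N
  have hi0 : (0 : ℝ) ≤ i := Nat.cast_nonneg i
  have k0 := key_pos N (((N + 1 : ℕ) : ℝ) / 2) (by push_cast; ring)
  have k1 := P_nonneg (γ := ((N + 1 : ℕ) : ℝ) / 2) (by push_cast; linarith) N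
  have r1 := ch_ratio ((n : ℝ) / 2 - 1) i
  have r2 := ch_ratio ((n : ℝ) / 2) i
  have hc : 0 < ch ((n : ℝ) / 2 - 1) i := ch_pos (by rw [hn]; linarith)
  have e1 : (n : ℝ) / 2 - 1 + 1 = n / 2 := by ring
  rw [e1] at r1
  rw [wj, hN, coeff_succ_X_mul, coeff_succ_X_mul]
  obtain ⟨c3, hc3⟩ : ∃ x, x = coeff N (Z (((N + 1 : ℕ) : ℝ) / 2) * geo 1 ^ 3) := ⟨_, rfl⟩
  obtain ⟨c1, hc1⟩ : ∃ x, x = coeff N (Z (((N + 1 : ℕ) : ℝ) / 2) * geo 1) := ⟨_, rfl⟩
  obtain ⟨x, hx⟩ : ∃ x, x = ch ((n : ℝ) / 2 - 1) i := ⟨_, rfl⟩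
  obtain ⟨y, hy⟩ : ∃ y, y = ch ((n : ℝ) / 2 + 1) i := ⟨_, rfl⟩
  rw [← hc3, ← hc1] at k0 ⊢
  rw [← hc1] at k1
  rw [← hx] at r1 hc ⊢
  rw [← hy] at r2 ⊢
  have r3 : y * (((N : ℝ) + 3) * (N + 1)) = ((n : ℝ) + 2) * n * x := by
    have a1 : (n : ℝ) / 2 + 1 - i = (N + 3) / 2 := by rw [hn]; ring
    have a2 : (n : ℝ) / 2 - i = (N + 1) / 2 := by rw [hn]; ring
    rw [a1] at r2
    rw [a2] at r1
    linear_combination (2 * ((N : ℝ) + 1)) * r2 + (2 * ((n : ℝ) + 2)) * r1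
  have c3p : 0 < c3 := by
    push_cast at k0
    have : 0 ≤ (2 * (((N : ℝ) + 1) / 2) + 2) * c1 := mul_nonneg (by linarith) k1
    linarith
  have k2 : 0 < 4 * (n : ℝ) * c3 - (N + 1) * (N + 3) * c1 := by
    have s1 : 0 < ((N : ℝ) + 1) * (4 * c3 - (N + 3) * c1) := by
      refine mul_pos (by linarith) ?_
      push_cast at k0
      linarith
    have s2 : 0 ≤ 4 * (2 * (i : ℝ)) * c3 := by positivity
    rw [hn]
    linarith
  have k3 : 0 < (((N : ℝ) + 3) * (N + 1)) * (2 * (y * c3) - (n / 2 + 1) * (x * c1)) := by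
    have s1 : (((N : ℝ) + 3) * (N + 1)) * (2 * (y * c3) - (n / 2 + 1) * (x * c1)) =
        ((n : ℝ) + 2) / 2 * x * (4 * (n : ℝ) * c3 - (N + 1) * (N + 3) * c1) := by
      linear_combination (2 * c3) * r3
    rw [s1]
    have : 0 < ((n : ℝ) + 2) / 2 := by
      rw [hn]
      linarith
    positivity
  exact (mul_pos_iff_of_pos_left (by positivity)).1 k3

theorem wj_nonneg {n i : ℕ} (h : 2 * i ≤ n) : 0 ≤ wj n i := by
  rcases Nat.lt_or_ge (2 * i) n with h1 | h1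
  · exact (wj_pos h1).le
  · have h2 : n - 2 * i = 0 := by omega
    rw [wj, h2, coeff_X_zero, coeff_X_zero]
    norm_num

/-! ### the function `C0` -/

/-- `(X d/dX)^2 log c` -/
noncomputable def tl (c : PowerSeries ℝ) : PowerSeries ℝ :=
  X * derivative ℝ (X * (derivative ℝ c * c⁻¹))

variable {b : ℝ} {n : ℕ} {c : PowerSeries ℝ}

theorem c_eq (hc : c ^ 2 * (1 + C (2 * b) * X) ^ 2 = (1 + C b * X + X ^ 2) ^ (n + 2))
    (h0 : constantCoeff c = 1) : c * (1 + C (2 * b) * X) = E (n / 2 + 1) b := by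
  refine sq_cancel ?_ ?_ (E_zero _ _)
  · rw [mul_pow, hc, E_sq (M := n + 2)]
    push_cast
    ring
  · rw [map_mul, h0]
    simp

theorem ctl_eq (hc : c ^ 2 * (1 + C (2 * b) * X) ^ 2 = (1 + C b * X + X ^ 2) ^ (n + 2))
    (h0 : constantCoeff c = 1) : c * tl c = C ((n : ℝ) / 2 + 1) *
      (E (n / 2 - 1) b * rescale b (X * geo (-2)) + X ^ 2 * (E (n / 2 - 1) b * rescale b ((4 + X) * geo (-2)))) -
      C 2 * (E (n / 2 + 1) b * rescale b (X * geo (-2) ^ 3)) := by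
  have h1 := c_eq hc h0
  have hci : c * c⁻¹ = 1 := PowerSeries.mul_inv_cancel _ (by rw [h0]; exact one_ne_zero)
  obtain ⟨κ, hκ⟩ : ∃ κ, κ = rescale b (geo (-2)) := ⟨_, rfl⟩
  obtain ⟨B, hB⟩ : ∃ B : PowerSeries ℝ, B = C b := ⟨_, rfl⟩
  have hB2 : (C (2 * b) : PowerSeries ℝ) = 2 * B := by rw [map_mul, map_ofNat, hB]
  have k1 : (1 + 2 * (B * X)) * κ = 1 := by
    have h := congrArg (rescale b) geo2_mul
    rw [map_mul, map_add, map_mul, map_one, rescale_X, map_ofNat, ← hκ, ← hB] at h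
    exact h
  have dB : derivative ℝ B = 0 := by rw [hB, derivative_C]
  have k2 : derivative ℝ κ = -(2 * B) * κ ^ 2 := by
    have h := congrArg (derivative ℝ) k1
    rw [der_mul, map_add, ← map_one C, derivative_C, ← map_ofNat C 2, der_mul, der_mul, derivative_C, derivative_X, dB,
      map_one, map_ofNat] at h
    linear_combination κ * h - derivative ℝ κ * k1
  have hS := S_inv b
  have dS := S_der b
  obtain ⟨S, hS'⟩ : ∃ S : PowerSeries ℝ, S = 1 + C b * X + X ^ 2 := ⟨_, rfl⟩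
  obtain ⟨Si, hSi⟩ : ∃ Si : PowerSeries ℝ, Si = (1 + C b * X + X ^ 2)⁻¹ := ⟨_, rfl⟩
  have ode := E_ode (n / 2 + 1) b
  have pas1 := E_pascal (n / 2 - 1) b
  have pas2 := E_pascal (n / 2 - 1 + 1) b
  have e1 : (n : ℝ) / 2 - 1 + 1 + 1 = n / 2 + 1 := by ring
  rw [e1] at pas2
  rw [← hSi, ← hS'] at hS
  rw [← hS'] at dS ode pas1 pas2
  rw [← hB] at dS ode
  obtain ⟨F, hF⟩ : ∃ F, F = E ((n : ℝ) / 2 - 1) b := ⟨_, rfl⟩
  obtain ⟨G, hG⟩ : ∃ G, G = E ((n : ℝ) / 2 + 1) b := ⟨_, rfl⟩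
  have pas : G = S ^ 2 * F := by
    rw [hG, ← pas2, ← pas1, hF]
    ring
  obtain ⟨h, hh⟩ : ∃ h : PowerSeries ℝ, h = C ((n : ℝ) / 2 + 1) := ⟨_, rfl⟩
  have dh : derivative ℝ h = 0 := by rw [hh, derivative_C]
  rw [← hG] at h1 ode
  rw [← hh] at ode
  rw [hB2] at h1
  -- `c = G κ`
  have hcG : c = G * κ := by linear_combination κ * h1 - c * k1
  -- the logarithmic derivative
  have dG : derivative ℝ G = G * (h * ((B + 2 * X) * Si)) := by
    linear_combination Si * ode - derivative ℝ G * hS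
  have dc : derivative ℝ c = c * (h * ((B + 2 * X) * Si) - 2 * B * κ) := by
    rw [hcG, der_mul, dG, k2]
    ring
  have hM : derivative ℝ c * c⁻¹ = h * ((B + 2 * X) * Si) - 2 * B * κ := by
    rw [dc]
    linear_combination (h * ((B + 2 * X) * Si) - 2 * B * κ) * hci
  have dSi : derivative ℝ Si = -(B + 2 * X) * Si ^ 2 := by
    have h2 := congrArg (derivative ℝ) hS
    rw [der_mul, dS, ← map_one C, derivative_C] at h2
    linear_combination Si * h2 - derivative ℝ Si * hS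
  have dM : derivative ℝ (X * (h * ((B + 2 * X) * Si) - 2 * B * κ)) =
      h * (B + 4 * X + B * X ^ 2) * Si ^ 2 - 2 * B * κ ^ 2 := by
    rw [der_mul, map_sub, der_mul, der_mul, map_add, der_mul, der_mul, der_mul, dSi, k2, dh, dB, derivative_X,
      ← map_ofNat C 2, derivative_C, map_ofNat]
    rw [hS'] at hS
    rw [← hB] at hS
    linear_combination (-h * (B + 4 * X) * Si) * hS + (2 * B * κ) * k1
  have r1 : rescale b (X * geo (-2)) = B * X * κ := by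
    rw [map_mul, rescale_X, ← hκ, ← hB]
  have r2 : rescale b ((4 + X) * geo (-2)) = (4 + B * X) * κ := by
    rw [map_mul, map_add, rescale_X, map_ofNat, ← hκ, ← hB]
  have r3 : rescale b (X * geo (-2) ^ 3) = B * X * κ ^ 3 := by
    rw [map_mul, map_pow, rescale_X, ← hκ, ← hB]
  rw [tl, hM, dM, r1, r2, r3, ← hF, ← hG, ← hh, map_ofNat, hcG, pas]
  linear_combination (h * (B + 4 * X + B * X ^ 2) * F * κ * X * (S * Si + 1)) * hS

/-- the coefficient as a sum -/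
theorem coeff_ctl (hn : 1 ≤ n) (hc : c ^ 2 * (1 + C (2 * b) * X) ^ 2 = (1 + C b * X + X ^ 2) ^ (n + 2))
    (h0 : constantCoeff c = 1) : coeff n (c * tl c) =
      ∑ i ∈ Finset.range (n / 2 + 1), (-b) ^ (n - 2 * i) * wj n i +
      ∑ i ∈ Finset.range (n / 2), (-b) ^ (n - 2 * (i + 1)) * ((n / 2 + 1) * (ch (n / 2 - 1) i * dj (n - 2 * (i + 1)))) := by
  have e3 : coeff n (X ^ 2 * (E (n / 2 - 1) b * rescale b ((4 + X) * geo (-2)))) =
      ∑ i ∈ Finset.range (n / 2), (-b) ^ (n - 2 * (i + 1)) * (ch (n / 2 - 1) i * dj (n - 2 * (i + 1))) := by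
    rcases Nat.lt_or_ge n 2 with h | h
    · rw [coeff_X_pow_mul', if_neg (by omega)]
      have : n / 2 = 0 := by omega
      rw [this, Finset.sum_range_zero]
    · rw [coeff_X_pow_mul', if_pos h, E_mul]
      have h2 : (n - 2) / 2 + 1 = n / 2 := by omega
      rw [h2]
      refine Finset.sum_congr rfl fun i hi => ?_
      have hi' := Finset.mem_range.1 hi
      have h3 : n - 2 - 2 * i = n - 2 * (i + 1) := by omega
      have h4 : (n : ℝ) / 2 - 1 - i = ((n - 2 * (i + 1) : ℕ) : ℝ) / 2 := by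
        rw [Nat.cast_sub (by omega)]
        push_cast
        ring
      rw [h3, h4, L2, neg_pow b]
      ring
  have e1 : coeff n (E (n / 2 - 1) b * rescale b (X * geo (-2))) =
      ∑ i ∈ Finset.range (n / 2 + 1), -((-b) ^ (n - 2 * i) * (ch (n / 2 - 1) i *
        coeff (n - 2 * i) ((X : PowerSeries ℝ) * (Z ((n - 2 * i : ℕ) / 2) * geo 1)))) := by
    rw [E_mul]
    refine Finset.sum_congr rfl fun i hi => ?_
    have hi' := Finset.mem_range.1 hi
    have h4 : (n : ℝ) / 2 - 1 - i = ((n - 2 * i : ℕ) : ℝ) / 2 - 1 := by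
      rw [Nat.cast_sub (by omega)]
      push_cast
      ring
    rw [h4, L1, neg_pow b]
    ring
  have e2 : coeff n (E (n / 2 + 1) b * rescale b (X * geo (-2) ^ 3)) =
      ∑ i ∈ Finset.range (n / 2 + 1), -((-b) ^ (n - 2 * i) * (ch (n / 2 + 1) i *
        coeff (n - 2 * i) ((X : PowerSeries ℝ) * (Z ((n - 2 * i : ℕ) / 2) * geo 1 ^ 3)))) := by
    rw [E_mul]
    refine Finset.sum_congr rfl fun i hi => ?_
    have hi' := Finset.mem_range.1 hi
    have h4 : (n : ℝ) / 2 + 1 - i = ((n - 2 * i : ℕ) : ℝ) / 2 + 1 := by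
      rw [Nat.cast_sub (by omega)]
      push_cast
      ring
    rw [h4, L3, neg_pow b]
    ring
  rw [ctl_eq hc h0, map_sub, coeff_C_mul, coeff_C_mul, map_add, e1, e2, e3, mul_add, Finset.mul_sum, Finset.mul_sum,
    Finset.mul_sum, add_sub_right_comm, ← Finset.sum_sub_distrib]
  congr 1
  · refine Finset.sum_congr rfl fun i _ => ?_
    rw [wj]
    ring
  · refine Finset.sum_congr rfl fun i _ => ?_
    ring

theorem vj_nonneg {n i : ℕ} (h : i < n / 2) (j : ℕ) : 0 ≤ ((n : ℝ) / 2 + 1) * (ch (n / 2 - 1) i * dj j) := by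
  have h1 : (2 * (i : ℝ)) < n := by
    have : 2 * i < n := by omega
    exact_mod_cast this
  have h2 : 0 < ch ((n : ℝ) / 2 - 1) i := ch_pos (by linarith)
  have h3 := dj_nonneg j
  positivity

/-- even index -/
theorem tl_even (hn : 1 ≤ n) (he : Even n) (hc : c ^ 2 * (1 + C (2 * b) * X) ^ 2 = (1 + C b * X + X ^ 2) ^ (n + 2))
    (h0 : constantCoeff c = 1) : 0 < coeff n (c * tl c) := by
  rw [coeff_ctl hn hc h0]
  obtain ⟨m, hm⟩ := he
  obtain ⟨m, rfl⟩ : ∃ k, m = k + 1 := ⟨m - 1, by omega⟩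
  have hp : ∀ k, 0 ≤ (-b) ^ (n - 2 * k) := fun k => Even.pow_nonneg ⟨m + 1 - k, by omega⟩ _
  refine add_pos_of_nonneg_of_pos (Finset.sum_nonneg fun i hi => ?_) ?_
  · have := Finset.mem_range.1 hi
    exact mul_nonneg (hp i) (wj_nonneg (by omega))
  · refine Finset.sum_pos' (fun i hi => mul_nonneg (hp _) (vj_nonneg (Finset.mem_range.1 hi) _))
      ⟨m, Finset.mem_range.2 (by omega), ?_⟩
    have h1 : n - 2 * (m + 1) = 0 := by omega
    have h2 : (n : ℝ) = 2 * m + 2 := by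
      rw [hm]
      push_cast
      ring
    have h3 : 0 < ch ((n : ℝ) / 2 - 1) m := ch_pos (by rw [h2]; linarith)
    rw [h1, pow_zero, dj_zero]
    positivity

/-- odd index -/
theorem tl_odd (hn : Odd n) (hb : b ≠ 0) (hc : c ^ 2 * (1 + C (2 * b) * X) ^ 2 = (1 + C b * X + X ^ 2) ^ (n + 2))
    (h0 : constantCoeff c = 1) : coeff n (c * tl c) ≠ 0 := by
  obtain ⟨m, hm⟩ := hn
  rw [coeff_ctl (by omega) hc h0]
  have hp : ∀ k, 2 * k ≤ n → (-b) ^ (n - 2 * k) = (-b) * (-b) ^ (n - 1 - 2 * k) := fun k hk => by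
    rw [← pow_succ']
    congr 1
    omega
  have hq : ∀ k, 0 ≤ (-b) ^ (n - 1 - 2 * k) := fun k => Even.pow_nonneg ⟨m - k, by omega⟩ _
  have e1 : ∑ i ∈ Finset.range (n / 2 + 1), (-b) ^ (n - 2 * i) * wj n i +
      ∑ i ∈ Finset.range (n / 2), (-b) ^ (n - 2 * (i + 1)) * (((n : ℝ) / 2 + 1) * (ch (n / 2 - 1) i * dj (n - 2 * (i + 1)))) =
      (-b) * (∑ i ∈ Finset.range (n / 2 + 1), (-b) ^ (n - 1 - 2 * i) * wj n i +
      ∑ i ∈ Finset.range (n / 2), (-b) ^ (n - 1 - 2 * (i + 1)) *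
        (((n : ℝ) / 2 + 1) * (ch (n / 2 - 1) i * dj (n - 2 * (i + 1))))) := by
    rw [mul_add, Finset.mul_sum, Finset.mul_sum]
    congr 1
    · refine Finset.sum_congr rfl fun i hi => ?_
      have := Finset.mem_range.1 hi
      rw [hp i (by omega)]
      ring
    · refine Finset.sum_congr rfl fun i hi => ?_
      have := Finset.mem_range.1 hi
      rw [hp (i + 1) (by omega)]
      ring
  rw [e1]
  refine mul_ne_zero (neg_ne_zero.2 hb) (ne_of_gt ?_)
  refine add_pos_of_pos_of_nonneg ?_ ?_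
  · refine Finset.sum_pos' (fun i hi => ?_) ⟨0, Finset.mem_range.2 (by omega), ?_⟩
    · have := Finset.mem_range.1 hi
      exact mul_nonneg (hq i) (wj_nonneg (by omega))
    · refine mul_pos (Even.pow_pos ⟨m, by omega⟩ (neg_ne_zero.2 hb)) (wj_pos (by omega))
  · exact Finset.sum_nonneg fun i hi => mul_nonneg (hq _) (vj_nonneg (Finset.mem_range.1 hi) _)

end Pool.Agent.Lib.MP_ccbbf6_gt.L6
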