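import Pool.Agent.Lib.MP_ccbbf6_gt.L5.RG0

/-!
# Level 6, X61: `ρ ≠ 0`: after multiplication by `l ^ (h - 1)` everything is a power of `l` (helper95)

In `Q = A / I` (`FR6.red`) `l e = 0` and `e² = t l^(2h-2) + 2 ρ u l^(h-2)`, hence `u l^(h-1) = - t/(2ρ) l^(2h-1)`.
`spec_l` : `l elc (GP B D l) n = 0` with `n < h m` implies `elc p n = 0` for the real numbers `p = GP (..) 0 1`.
-/

set_option autoImplicit false
set_option linter.unusedSectionVars false

noncomputable section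

open Finset

namespace Pool.Agent.Lib.MP_ccbbf6_gt.L5.FR6

open L4

variable {A : Type*} [CommRing A] [Algebra ℝ A]

/-- homogeneity -/
theorem GP_hom (b : ℕ → ℝ) (x : A) (n : ℕ) :
    GP (fun j => b j • x ^ j) (fun _ => 0) x n = GP b (fun _ => 0) 1 n • x ^ n := by
  induction n using Nat.strong_induction_on with
  | _ n ih =>
    rw [GP_eq, GP_eq, zero_add, zero_add, smul_assoc, sub_smul, Finset.sum_smul, Finset.sum_smul]
    congr 2
    · refine Finset.sum_congr rfl fun a ha => ?_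
      have ha' := Finset.mem_range.1 ha
      have h1 : x ^ a * x ^ (n - a) = x ^ n := by
        rw [← pow_add]
        congr 1
        omega
      rw [mul_smul_comm, neg_pow x, mul_assoc, h1, smul_assoc, neg_one_pow_eq_pow_mod_two]
      rcases Nat.mod_two_eq_zero_or_one a with h2 | h2
      · have h3 : ((-1 : ℝ)) ^ a = 1 := by rw [neg_one_pow_eq_pow_mod_two, h2, pow_zero]
        rw [h2, pow_zero, one_mul, h3, one_mul]
      · have h3 : ((-1 : ℝ)) ^ a = -1 := by rw [neg_one_pow_eq_pow_mod_two, h2, pow_one]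
        rw [h2, pow_one, neg_one_mul, h3, neg_one_mul, neg_smul, smul_neg]
    · refine Finset.sum_congr rfl fun a ha => ?_
      have ha' := Finset.mem_range.1 ha
      split_ifs
      · rw [ih (n - 1 - a) (by omega), one_pow, one_mul, mul_smul_comm, ← pow_add, smul_smul, smul_eq_mul]
        congr 2
        omega
      · rw [zero_smul]

theorem elc_hom (p : ℕ → ℝ) (x : A) (n : ℕ) : elc (fun j => p j • x ^ j) n = elc p n • x ^ n := by
  have h := elc_gr (h := 1) one_pos p x (N := n) (fun j => p j • x ^ j) (fun j _ _ => by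
    unfold spr
    rw [if_pos (one_dvd j), Nat.div_one]) n le_rfl
  have h2 : spr 1 p = p := funext fun j => by
    unfold spr
    rw [if_pos (one_dvd j), Nat.div_one]
  rw [h, h2, Nat.div_one]

theorem spec_l {l e u1 u2 : A} {m h n : ℕ} {s t ρ : ℝ} (hm1 : 1 ≤ m) (hh : 3 ≤ h) (hs : s ≠ 0) (ht : t ≠ 0)
    (hρ : ρ ≠ 0) (h0 : hm m u1 u2 = 0) (p1 : u1 ^ (m + 1) = 0) (R1 : l * e = s • (u1 - u2))
    (R2 : e ^ 2 = t • l ^ (2 * h - 2) + ρ • ((u1 + u2) * l ^ (h - 2)))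
    (X2 : e ^ 2 * (u1 ^ m * u2 ^ (m - 1)) ≠ 0) {w : ℕ → ℝ} {B D : ℕ → A}
    (hB : ∀ j, j ≤ n → ∃ R, B j = spr h w j • u1 ^ (j / h) + (u1 - u2) * R)
    (hD : ∀ j, j ≤ n + 1 → ∃ R, D j = e * R) (hn : n + 1 ≤ h * m) (hF : l * elc (GP B D l) n = 0) :
    elc (GP (fun j => spr h w j * (-(t / (2 * ρ))) ^ (j / h)) (fun _ => 0) 1) n = 0 := by
  have hq : (2 * h - 2) / 2 - 1 = h - 2 := by omega
  obtain ⟨I, hI, i1, i2, i3, i4, i5⟩ := red (q := 2 * h - 2) hm1 hs h0 p1 R1 (by rw [hq]; exact R2) X2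
  rw [hq] at i3
  obtain ⟨c, hc⟩ : ∃ c : ℝ, c = -(t / (2 * ρ)) := ⟨_, rfl⟩
  obtain ⟨k, rfl⟩ : ∃ k, h = k + 2 := ⟨h - 2, by omega⟩
  rw [← hc]
  have hk2 : 2 * (k + 2) - 2 = 2 * k + 2 := by omega
  have hk3 : k + 2 - 2 = k := by omega
  rw [hk2, hk3] at i3
  rw [hk2] at i5
  -- the ideal
  obtain ⟨J, hJ⟩ : ∃ J : Ideal A, ∀ x, x ∈ J ↔ l ^ (k + 1) * x ∈ I :=
    ⟨{ carrier := {x | l ^ (k + 1) * x ∈ I}
       add_mem' := fun {a b} ha hb => by
        change l ^ (k + 1) * (a + b) ∈ I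
        rw [mul_add]
        exact I.add_mem ha hb
       zero_mem' := by
        change l ^ (k + 1) * 0 ∈ I
        rw [mul_zero]
        exact I.zero_mem
       smul_mem' := fun r x hx => by
        change l ^ (k + 1) * (r * x) ∈ I
        have h1 : l ^ (k + 1) * (r * x) = r * (l ^ (k + 1) * x) := by ring
        rw [h1]
        exact I.mul_mem_left r hx }, fun x => Iff.rfl⟩
  have hIJ : ∀ x ∈ I, x ∈ J := fun x hx => (hJ x).2 (I.mul_mem_left _ hx)
  obtain ⟨π, hπ⟩ : ∃ π : A →ₐ[ℝ] A ⧸ J, π = Ideal.Quotient.mkₐ ℝ J := ⟨_, rfl⟩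
  have hπ0 : ∀ x, π x = 0 ↔ x ∈ J := fun x => by
    rw [hπ]
    exact Ideal.Quotient.eq_zero_iff_mem
  have j0 : π (u1 - u2) = 0 := (hπ0 _).2 (hIJ _ i1)
  have j1 : π e = 0 := by
    rw [hπ0, hJ]
    have h1 : l ^ (k + 1) * e = l ^ k * (l * e) := by ring
    rw [h1]
    exact I.mul_mem_left _ i2
  -- `u l^(h-1) = c l^(2h-1)`
  have key : l ^ (k + 1) * (u1 - c • l ^ (k + 2)) ∈ I := by
    have h1 : (2 * ρ) • (l ^ (k + 1) * (u1 - c • l ^ (k + 2))) =
        -(l * (e ^ 2 - (t • l ^ (2 * k + 2) + (2 * ρ) • (u1 * l ^ k)))) + e * (l * e) := by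
      have h2 : (2 * ρ) • (l ^ (k + 1) * (c • l ^ (k + 2))) = -(t • l ^ (2 * k + 3)) := by
        rw [mul_smul_comm, smul_smul, hc, ← pow_add, ← neg_smul]
        congr 1
        · field_simp
        · congr 1
          ring
      rw [mul_sub, smul_sub, h2]
      simp only [Algebra.smul_def]
      ring
    have h2 : (2 * ρ) • (l ^ (k + 1) * (u1 - c • l ^ (k + 2))) ∈ I := by
      rw [h1]
      exact I.add_mem (I.neg_mem (I.mul_mem_left _ i3)) (I.mul_mem_left _ i2)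
    have h3 : l ^ (k + 1) * (u1 - c • l ^ (k + 2)) =
        (2 * ρ)⁻¹ • ((2 * ρ) • (l ^ (k + 1) * (u1 - c • l ^ (k + 2)))) := by
      rw [smul_smul, inv_mul_cancel₀ (mul_ne_zero two_ne_zero hρ), one_smul]
    rw [h3, Algebra.smul_def]
    exact I.mul_mem_left _ h2
  have j2 : π u1 = c • π l ^ (k + 2) := by
    have h1 : π (u1 - c • l ^ (k + 2)) = 0 := by rw [hπ0, hJ]; exact key
    rw [map_sub, map_smul, map_pow, sub_eq_zero] at h1
    exact h1
  -- the power sums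
  have j3 : ∀ j, j ≤ n → π (B j) = (spr (k + 2) w j * c ^ (j / (k + 2))) • π l ^ j := by
    intro j hj
    obtain ⟨R, hR⟩ := hB j hj
    rw [hR, map_add, map_mul, j0, zero_mul, add_zero, map_smul, map_pow, j2, smul_pow, smul_smul, ← pow_mul]
    by_cases hd : k + 2 ∣ j
    · rw [Nat.mul_div_cancel' hd]
    · rw [spr_not w hd, zero_mul, zero_smul, zero_smul]
  have j4 : ∀ j, j ≤ n + 1 → π (D j) = 0 := by
    intro j hj
    obtain ⟨R, hR⟩ := hD j hj
    rw [hR, map_mul, j1, zero_mul]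
  have j5 : π (elc (GP B D l) n) = elc (GP (fun j => spr (k + 2) w j * c ^ (j / (k + 2))) (fun _ => 0) 1) n • π l ^ n := by
    rw [map_elc]
    have h1 : elc (fun i => π (GP B D l i)) n =
        elc (fun i => GP (fun j => (spr (k + 2) w j * c ^ (j / (k + 2))) • π l ^ j) (fun _ => 0) (π l) i) n := by
      refine elc_congr_le fun i hi => ?_
      rw [map_GP]
      exact GP_congr n (fun j hj => j3 j hj) (fun j hj => j4 j hj) _ (by omega)
    rw [h1]
    have h2 : (fun i => GP (fun j => (spr (k + 2) w j * c ^ (j / (k + 2))) • π l ^ j) (fun _ => 0) (π l) i) =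
        fun i => GP (fun j => spr (k + 2) w j * c ^ (j / (k + 2))) (fun _ => 0) 1 i • π l ^ i := funext fun i =>
      GP_hom (fun j => spr (k + 2) w j * c ^ (j / (k + 2))) (π l) i
    rw [h2]
    exact elc_hom _ _ _
  have j6 : π (elc (GP B D l) n) = 0 := (hπ0 _).2 (hIJ _ (hI _ hF))
  rw [j6] at j5
  refine (smul_eq_zero.1 j5.symm).resolve_right ?_
  intro h1
  -- `l ^ n` is not zero
  have h2 : l ^ (k + 1) * l ^ n ∈ I := by
    rw [← hJ, ← hπ0, map_pow]
    exact h1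
  have h3 : l ^ ((k + 2) * m + k) ∈ I := by
    have h4 : l ^ ((k + 2) * m + k) = l ^ ((k + 2) * m - 1 - n) * (l ^ (k + 1) * l ^ n) := by
      rw [← pow_add, ← pow_add]
      congr 1
      omega
    rw [h4]
    exact I.mul_mem_left _ h2
  have h4 : ∀ i, l ^ (k + 1) * (u1 ^ i - (c • l ^ (k + 2)) ^ i) ∈ I := by
    intro i
    have h5 : π (u1 ^ i - (c • l ^ (k + 2)) ^ i) = 0 := by
      rw [map_sub, map_pow, map_pow, map_smul, map_pow, j2, sub_self]
    rw [hπ0, hJ] at h5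
    exact h5
  apply i5
  have h5 : l ^ (2 * k + 2) * u1 ^ (m - 1) =
      l ^ (k + 1) * (l ^ (k + 1) * (u1 ^ (m - 1) - (c • l ^ (k + 2)) ^ (m - 1))) + c ^ (m - 1) • l ^ ((k + 2) * m + k) := by
    have h6 : l ^ (k + 1) * (l ^ (k + 1) * (c • l ^ (k + 2)) ^ (m - 1)) = c ^ (m - 1) • l ^ ((k + 2) * m + k) := by
      rw [smul_pow, mul_smul_comm, mul_smul_comm, ← pow_mul, ← pow_add, ← pow_add]
      congr 2
      obtain ⟨m, rfl⟩ : ∃ i, m = i + 1 := ⟨m - 1, by omega⟩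
      rw [Nat.add_sub_cancel]
      ring
    rw [mul_sub, mul_sub, h6, sub_add_cancel, ← mul_assoc, ← pow_add]
    congr 2
    ring
  rw [h5]
  refine I.add_mem (I.mul_mem_left _ (h4 _)) ?_
  rw [Algebra.smul_def]
  exact I.mul_mem_left _ h3

end Pool.Agent.Lib.MP_ccbbf6_gt.L5.FR6
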