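import Pool.Agent.Lib.MP_ccbbf6_gt.ML

/-!
# Level 6, X62: the coefficients of `1 / cos` (helper80)
-/

set_option autoImplicit false
set_option linter.unusedSectionVars false

noncomputable section

open Finset

namespace Pool.Agent.Lib.MP_ccbbf6_gt.L5.FR6

/-- `s` are the coefficients of `1 / cos √x` -/
def IsSec (s : ℕ → ℝ) : Prop :=
  s 0 = 1 ∧ ∀ j, ∑ i ∈ range (j + 2), (-1) ^ i * s (j + 1 - i) / ((2 * i).factorial : ℝ) = 0

/-- the majorants -/
def Yj (s : ℕ → ℝ) (j : ℕ) : ℝ := ((2 * j - 1).factorial : ℝ) * s j / 4 ^ j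

/-- existence -/
theorem exists_sec : ∃ s, IsSec s := by
  obtain ⟨C, hC⟩ : ∃ C : PowerSeries ℝ, C = PowerSeries.mk fun i => (-1) ^ i / ((2 * i).factorial : ℝ) := ⟨_, rfl⟩
  have h0 : PowerSeries.constantCoeff C = 1 := by
    rw [hC, ← PowerSeries.coeff_zero_eq_constantCoeff_apply, PowerSeries.coeff_mk]
    simp
  have h1 : C * C⁻¹ = 1 := PowerSeries.mul_inv_cancel C (by rw [h0]; exact one_ne_zero)
  refine ⟨fun j => PowerSeries.coeff j C⁻¹, ?_, fun j => ?_⟩
  · have h2 := congrArg PowerSeries.constantCoeff h1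
    rw [map_mul, h0, one_mul, map_one] at h2
    show PowerSeries.coeff 0 C⁻¹ = 1
    rw [PowerSeries.coeff_zero_eq_constantCoeff_apply]
    exact h2
  · have h2 := congrArg (PowerSeries.coeff (j + 1)) h1
    rw [PowerSeries.coeff_mul, PowerSeries.coeff_one, if_neg (Nat.succ_ne_zero j),
      Finset.Nat.sum_antidiagonal_eq_sum_range_succ (fun a b => PowerSeries.coeff a C * PowerSeries.coeff b C⁻¹) (j + 1)] at h2
    rw [← h2]
    refine Finset.sum_congr rfl fun i _ => ?_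
    have h3 : PowerSeries.coeff i C = (-1) ^ i / ((2 * i).factorial : ℝ) := by rw [hC, PowerSeries.coeff_mk]
    rw [h3]
    ring

private theorem X62_fac (x : ℕ) : (40320 : ℝ) * 90 ^ x ≤ ((2 * (4 + x)).factorial : ℝ) := by
  induction x with
  | zero => norm_num [Nat.factorial]
  | succ x ih =>
    have h1 : 2 * (4 + (x + 1)) = 2 * (4 + x) + 1 + 1 := by ring
    rw [h1, Nat.factorial_succ, Nat.factorial_succ]
    push_cast
    have h2 : (0 : ℝ) ≤ ((2 * (4 + x)).factorial : ℝ) := Nat.cast_nonneg _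
    have h3 : (0 : ℝ) ≤ (x : ℝ) := Nat.cast_nonneg _
    have h4 : (90 : ℝ) ≤ (2 * (4 + (x : ℝ)) + 1 + 1) * (2 * (4 + (x : ℝ)) + 1) := by nlinarith
    calc (40320 : ℝ) * 90 ^ (x + 1) = 90 * (40320 * 90 ^ x) := by ring
      _ ≤ 90 * ((2 * (4 + x)).factorial : ℝ) := by linarith
      _ ≤ (2 * (4 + (x : ℝ)) + 1 + 1) * (2 * (4 + (x : ℝ)) + 1) * ((2 * (4 + x)).factorial : ℝ) :=
        mul_le_mul_of_nonneg_right h4 h2
      _ = _ := by ring

private theorem X62_geo (m : ℕ) : ∑ x ∈ range m, ((1 : ℝ) / 36) ^ x ≤ 36 / 35 := by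
  rw [geom_sum_eq (by norm_num)]
  have h1 : (0 : ℝ) < (1 / 36) ^ m := by positivity
  rw [div_le_iff_of_neg (by norm_num)]
  linarith

private theorem X62_back {s : ℕ → ℝ} {n : ℕ} (h : ∀ j < n, 2 / 5 * s j ≤ s (j + 1)) :
    ∀ d ≤ n, s (n - d) ≤ (5 / 2) ^ d * s n := by
  intro d
  induction d with
  | zero => intro _; simp
  | succ d ih =>
    intro hd
    have h1 := ih (by omega)
    have h2 := h (n - (d + 1)) (by omega)
    have h3 : n - (d + 1) + 1 = n - d := by omega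
    rw [h3] at h2
    rw [pow_succ]
    linarith

/-- the tail of the recursion -/
private theorem X62_tail {s : ℕ → ℝ} {k : ℕ} (hp : ∀ j ≤ k + 3, 0 < s j) (h : ∀ j < k + 3, 2 / 5 * s j ≤ s (j + 1)) :
    |∑ x ∈ range (k + 1), (-1) ^ (4 + x) * s (k + 3 + 1 - (4 + x)) / ((2 * (4 + x)).factorial : ℝ)| ≤ s (k + 3) / 2500 := by
  have h1 : ∀ x ∈ range (k + 1), |(-1) ^ (4 + x) * s (k + 3 + 1 - (4 + x)) / ((2 * (4 + x)).factorial : ℝ)| ≤
      125 / 322560 * s (k + 3) * (1 / 36) ^ x := by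
    intro x hx
    have hxk : x ≤ k := Nat.lt_succ_iff.1 (mem_range.1 hx)
    have e1 : k + 3 + 1 - (4 + x) = k + 3 - (3 + x) := by omega
    have h2 := X62_back h (3 + x) (by omega)
    have h3 : 0 < s (k + 3 - (3 + x)) := hp _ (by omega)
    rw [e1, abs_div, abs_mul, abs_pow, abs_neg, abs_one, one_pow, one_mul, abs_of_pos h3, Nat.abs_cast]
    have h4 := X62_fac x
    have h5 : (0 : ℝ) < 40320 * 90 ^ x := by positivity
    have h6 : (0 : ℝ) < ((2 * (4 + x)).factorial : ℝ) := lt_of_lt_of_le h5 h4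
    calc s (k + 3 - (3 + x)) / ((2 * (4 + x)).factorial : ℝ) ≤ (5 / 2) ^ (3 + x) * s (k + 3) / (40320 * 90 ^ x) :=
        div_le_div₀ (by have := hp (k + 3) le_rfl; positivity) h2 h5 h4
      _ = _ := by
        have e2 : ((90 : ℝ) ^ x) = 36 ^ x * (5 / 2) ^ x := by rw [← mul_pow]; norm_num
        rw [e2, pow_add, one_div, inv_pow]
        have h7 : ((5 : ℝ) / 2) ^ x ≠ 0 := by positivity
        have h8 : ((36 : ℝ)) ^ x ≠ 0 := by positivity
        field_simp
        norm_num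
        ring
  refine (Finset.abs_sum_le_sum_abs _ _).trans ((Finset.sum_le_sum h1).trans ?_)
  rw [← Finset.mul_sum]
  have h2 := X62_geo (k + 1)
  have h3 : (0 : ℝ) < s (k + 3) := hp _ le_rfl
  calc 125 / 322560 * s (k + 3) * ∑ x ∈ range (k + 1), ((1 : ℝ) / 36) ^ x ≤ 125 / 322560 * s (k + 3) * (36 / 35) :=
      mul_le_mul_of_nonneg_left h2 (by positivity)
    _ ≤ _ := by linarith

private theorem X62_all {s : ℕ → ℝ} (hs : IsSec s) (n : ℕ) :
    0 < s n ∧ 2 / 5 * s n ≤ s (n + 1) ∧ (1 ≤ n → s (n + 1) ≤ 5 / 12 * s n) := by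
  induction n using Nat.strong_induction_on with
  | _ n ih =>
    have e0 := hs.1
    have r0 := hs.2 0
    have r1 := hs.2 1
    have r2 := hs.2 2
    simp only [Finset.sum_range_succ, Finset.sum_range_zero] at r0 r1 r2
    norm_num [Nat.factorial] at r0 r1 r2
    have e1 : s 1 = 1 / 2 := by rw [e0] at r0; linarith
    have e2 : s 2 = 5 / 24 := by rw [e0, e1] at r1; linarith
    have e3 : s 3 = 61 / 720 := by rw [e0, e1, e2] at r2; linarith
    rcases n with _ | _ | _ | k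
    · rw [e0, zero_add, e1]
      refine ⟨by norm_num, by norm_num, fun h => absurd h (by norm_num)⟩
    · show 0 < s 1 ∧ 2 / 5 * s 1 ≤ s 2 ∧ (1 ≤ 1 → s 2 ≤ 5 / 12 * s 1)
      rw [e1, e2]
      refine ⟨by norm_num, by norm_num, fun _ => by norm_num⟩
    · show 0 < s 2 ∧ 2 / 5 * s 2 ≤ s 3 ∧ (1 ≤ 2 → s 3 ≤ 5 / 12 * s 2)
      rw [e2, e3]
      refine ⟨by norm_num, by norm_num, fun _ => by norm_num⟩
    · show 0 < s (k + 3) ∧ 2 / 5 * s (k + 3) ≤ s (k + 3 + 1) ∧ (1 ≤ k + 3 → s (k + 3 + 1) ≤ 5 / 12 * s (k + 3))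
      have hp3 : 0 < s (k + 3) := by
        have h1 := ih (k + 2) (by omega)
        have h2 : s (k + 3) = s (k + 2 + 1) := rfl
        rw [h2]
        linarith [h1.1, h1.2.1]
      have hp : ∀ j ≤ k + 3, 0 < s j := by
        intro j hj
        rcases hj.lt_or_eq with h | h
        · exact (ih j h).1
        · rw [h]
          exact hp3
      have ht := X62_tail hp fun j hj => (ih j hj).2.1
      have hr := hs.2 (k + 3)
      have e4 : k + 3 + 2 = 4 + (k + 1) := by ring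
      rw [e4, Finset.sum_range_add] at hr
      obtain ⟨T, hT⟩ : ∃ T, T = ∑ x ∈ range (k + 1), (-1) ^ (4 + x) * s (k + 3 + 1 - (4 + x)) / ((2 * (4 + x)).factorial : ℝ) :=
        ⟨_, rfl⟩
      rw [← hT] at ht hr
      simp only [Finset.sum_range_succ, Finset.sum_range_zero] at hr
      have f1 : k + 3 + 1 - 1 = k + 3 := by omega
      have f2 : k + 3 + 1 - 2 = k + 2 := by omega
      have f3 : k + 3 + 1 - 3 = k + 1 := by omega
      rw [f1, f2, f3, Nat.sub_zero] at hr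
      norm_num [Nat.factorial] at hr
      have a2 := ih (k + 2) (by omega)
      have a1 := ih (k + 1) (by omega)
      have b1 : 2 / 5 * s (k + 2) ≤ s (k + 3) := a2.2.1
      have b2 : s (k + 3) ≤ 5 / 12 * s (k + 2) := a2.2.2 (by omega)
      have b3 : 2 / 5 * s (k + 1) ≤ s (k + 2) := a1.2.1
      have b4 : s (k + 2) ≤ 5 / 12 * s (k + 1) := a1.2.2 (by omega)
      obtain ⟨t1, t2⟩ := abs_le.1 ht
      have hr' : s (k + 3 + 1) = s (k + 3) / 2 - s (k + 2) / 24 + s (k + 1) / 720 - T := by linarith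
      rw [hr']
      refine ⟨hp3, by linarith, fun _ => by linarith⟩

theorem IsSec.pos {s : ℕ → ℝ} (hs : IsSec s) (j : ℕ) : 0 < s j := (X62_all hs j).1

theorem IsSec.lo {s : ℕ → ℝ} (hs : IsSec s) (j : ℕ) : 2 / 5 * s j ≤ s (j + 1) := (X62_all hs j).2.1

theorem IsSec.up {s : ℕ → ℝ} (hs : IsSec s) {j : ℕ} (hj : 1 ≤ j) : s (j + 1) ≤ 5 / 12 * s j := (X62_all hs j).2.2 hj

end Pool.Agent.Lib.MP_ccbbf6_gt.L5.FR6
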